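import Pool.Agent.Work.MP_72041b_co.Bd.B01

/-! Bundle of small proof modules (one section per former module). -/

section

/-!
# MP_72041b_co: the upper bound for small total volume
-/

namespace Pool.Agent.Potatoes

open MeasureTheory Set Metric
open scoped RealInnerProductSpace

namespace SmallAux

lemma coord_eq {k : ℕ} (v : OrthonormalBasis (Fin k) ℝ (E k)) (y : E k) (m : Fin k) :
    y m = ∑ l, ⟪v l, y⟫ * v l m := by
  have h := congrArg (fun z : E k => z m) (v.sum_repr y)
  simp only [WithLp.ofLp_sum, Finset.sum_apply, PiLp.smul_apply, smul_eq_mul,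
    v.repr_apply_apply] at h
  exact h.symm

lemma coord_le_one {k : ℕ} (v : OrthonormalBasis (Fin k) ℝ (E k)) (l m : Fin k) :
    |v l m| ≤ 1 := by
  have h := PiLp.norm_apply_le (v l) m
  rwa [v.orthonormal.1 l, Real.norm_eq_abs] at h

lemma abs_coord_le {k : ℕ} (v : OrthonormalBasis (Fin k) ℝ (E k)) (y : E k) (m : Fin k) (j : ℕ)
    {a b : ℝ} (h1 : |∑ l : Fin k, (if (l : ℕ) < j then ⟪v l, y⟫ * v l m else 0)| ≤ a)
    (h2 : |∑ l : Fin k, (if (l : ℕ) < j then 0 else ⟪v l, y⟫ * v l m)| ≤ b) : |y m| ≤ a + b := by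
  have e : y m = ∑ l : Fin k, (if (l : ℕ) < j then ⟪v l, y⟫ * v l m else 0) +
      ∑ l : Fin k, (if (l : ℕ) < j then 0 else ⟪v l, y⟫ * v l m) := by
    rw [coord_eq v y m, ← Finset.sum_add_distrib]
    refine Finset.sum_congr rfl fun l _ => ?_
    split_ifs <;> ring
  rw [e]
  exact (abs_add_le _ _).trans (add_le_add h1 h2)

lemma delta_pos {n : ℕ} (hn : 1 ≤ n) :
    0 < (√((n : ℝ) / (n + 1)) - √(((n : ℝ) - 1) / n)) / (2 * ((n : ℝ) + 1)) := by
  have hn' : (1 : ℝ) ≤ n := by exact_mod_cast hn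
  apply div_pos _ (by positivity)
  rw [sub_pos]
  apply Real.sqrt_lt_sqrt
  · apply div_nonneg <;> linarith
  · rw [div_lt_div_iff₀ (by linarith) (by linarith)]
    nlinarith

lemma sqrt_mono {n j : ℕ} (hj : j < n) :
    √((j : ℝ) / (j + 1)) ≤ √(((n : ℝ) - 1) / n) := by
  have hn' : (j : ℝ) + 1 ≤ n := by exact_mod_cast hj
  have hj0 : (0 : ℝ) ≤ j := Nat.cast_nonneg j
  apply Real.sqrt_le_sqrt
  rw [div_le_div_iff₀ (by linarith) (by linarith)]
  nlinarith

/-- The side of the cube. -/
lemma side_eq (n : ℕ) (C t : ℝ) :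
    (√(n : ℝ) + 2 * C * t) / √(((n + 1 : ℕ) : ℝ)) / 2 =
      √((n : ℝ) / (n + 1)) / 2 + C * t * (1 / √((n : ℝ) + 1)) := by
  rw [Real.sqrt_div' _ (by positivity)]
  push_cast
  have : √((n : ℝ) + 1) ≠ 0 := by positivity
  field_simp

end SmallAux

open SmallAux in
/-- The upper bound for small total volume. -/
theorem claimSmall (hs : ClaimStd) (h1 : ClaimBox) (h2 : ClaimHelmert) (h3 : ClaimPlace)
    (h4 : ClaimArrange) : ClaimSmall := by
  intro n hn
  obtain ⟨B, hB, hbox⟩ := h1 (n + 1) n.succ_pos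
  obtain ⟨v, hv⟩ := h2 n
  set δ : ℝ := (√((n : ℝ) / (n + 1)) - √(((n : ℝ) - 1) / n)) / (2 * ((n : ℝ) + 1)) with hδ
  have hδpos : 0 < δ := delta_pos hn
  obtain ⟨β, C, hβ, hC, harr⟩ := h4 n hn B δ hB hδpos
  refine ⟨β, 2 * C, hβ, by positivity, fun t ht htβ => ?_⟩
  have hc : 0 < √(n : ℝ) + 2 * C * t := by positivity
  refine ((hs (n + 1) 1 t _ n.succ_pos hc).1).2 ?_
  intro ι _ K hK hdiam hvol
  choose u p w hw1 hw2 hw3 hw4 using fun i => hbox (K i) (hK i) (hdiam i)
  have hfin : ∑' i, volume (K i) ≠ ⊤ := ne_top_of_le_ne_top ENNReal.ofReal_ne_top hvol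
  have hsum : Summable fun i => volume.real (K i) := ENNReal.summable_toReal hfin
  have htsum : ∑' i, volume.real (K i) ≤ t := by
    have e : ∑' i, volume.real (K i) = (∑' i, volume (K i)).toReal := by
      rw [ENNReal.tsum_toReal_eq fun i => (hK i).compact.measure_ne_top]
      rfl
    rw [e]
    exact ENNReal.toReal_le_of_le_ofReal ht.le hvol
  have hprod0 : ∀ i, 0 ≤ ∏ l, w i l := fun i => Finset.prod_nonneg fun l _ => (hw2 i l).1.le
  have hsumw : Summable fun i => ∏ l, w i l :=
    Summable.of_nonneg_of_le hprod0 hw4 (hsum.mul_left B)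
  have htsumw : ∑' i, ∏ l, w i l ≤ B * t := by
    calc ∑' i, ∏ l, w i l ≤ ∑' i, B * volume.real (K i) :=
          hsumw.tsum_le_tsum hw4 (hsum.mul_left B)
      _ = B * ∑' i, volume.real (K i) := tsum_mul_left
      _ ≤ B * t := mul_le_mul_of_nonneg_left htsum hB.le
  obtain ⟨cls, P, hcls, hP1, hP2, hP3⟩ := harr t ht htβ ι w hw1 hw2 hsumw htsumw
  choose g hg using fun i => h3 n (cls i) (hcls i) v hv (K i) (hK i) (hdiam i) (u i) (p i) (w i)
    (P i) (hw3 i)
  refine ⟨g, ?_, ?_⟩
  · rintro i _ ⟨x, hx, rfl⟩ m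
    obtain ⟨ha, hb⟩ := hg i x hx
    rw [side_eq]
    rcases (hcls i).eq_or_lt with hc1 | hc1
    · -- the last class
      refine abs_coord_le v _ m (cls i) ((hb m).trans_eq (by rw [hc1])) ?_
      have e : ∑ l : Fin (n + 1), (if (l : ℕ) < cls i then 0 else ⟪v l, g i x⟫ * v l m) =
          ⟪v (Fin.last n), g i x⟫ * v (Fin.last n) m := by
        rw [Finset.sum_eq_single (Fin.last n)]
        · rw [if_neg (by rw [hc1]; simp)]
        · intro l _ hl
          rw [if_pos]
          rw [hc1]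
          exact Fin.val_lt_last hl
        · intro h
          exact absurd (Finset.mem_univ _) h
      rw [e, abs_mul, hv.last m, abs_of_nonneg (a := 1 / √((n : ℝ) + 1)) (by positivity)]
      refine mul_le_mul_of_nonneg_right ?_ (by positivity)
      obtain ⟨q1, q2⟩ := ha (Fin.last n) (by rw [hc1]; simp)
      obtain ⟨q3, q4⟩ := hP1 i hc1
      rw [abs_of_nonneg (q3.trans q1)]
      exact q2.trans q4
    · -- the other classes
      have h5 : |∑ l : Fin (n + 1), (if (l : ℕ) < cls i then 0 else ⟪v l, g i x⟫ * v l m)| ≤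
          ((n : ℝ) + 1) * δ := by
        calc |∑ l : Fin (n + 1), (if (l : ℕ) < cls i then 0 else ⟪v l, g i x⟫ * v l m)| ≤
            ∑ l : Fin (n + 1), |(if (l : ℕ) < cls i then 0 else ⟪v l, g i x⟫ * v l m)| :=
              Finset.abs_sum_le_sum_abs _ _
          _ ≤ ∑ _l : Fin (n + 1), δ := by
              refine Finset.sum_le_sum fun l _ => ?_
              split_ifs with hl
              · rw [abs_zero]
                exact hδpos.le
              · push Not at hl
                obtain ⟨q1, q2⟩ := ha l hl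
                obtain ⟨q3, q4⟩ := hP2 i hc1 l hl
                rw [abs_mul, abs_of_nonneg (q3.trans q1)]
                calc ⟪v l, g i x⟫ * |v l m| ≤ δ * 1 :=
                      mul_le_mul (q2.trans q4) (coord_le_one v l m) (abs_nonneg _) hδpos.le
                  _ = δ := mul_one _
          _ = ((n : ℝ) + 1) * δ := by
              rw [Finset.sum_const, Finset.card_univ, Fintype.card_fin, nsmul_eq_mul]
              push_cast
              ring
      have h6 := abs_coord_le v (g i x) m (cls i) (hb m) h5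
      have h7 := sqrt_mono hc1
      have h8 : ((n : ℝ) + 1) * δ = (√((n : ℝ) / (n + 1)) - √(((n : ℝ) - 1) / n)) / 2 := by
        rw [hδ]
        have : (n : ℝ) + 1 ≠ 0 := by positivity
        field_simp
      have h9 : 0 ≤ C * t * (1 / √((n : ℝ) + 1)) := by positivity
      rw [h8] at h6
      linarith
  · intro i i' hii
    rw [Set.disjoint_left]
    rintro _ ⟨x, hx, rfl⟩ ⟨x', hx', he⟩
    obtain ⟨l, hl1, hl2, hl3⟩ := hP3 i i' hii
    obtain ⟨q1, q2⟩ := (hg i x hx).1 l hl1
    obtain ⟨q3, q4⟩ := (hg i' x' hx').1 l hl2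
    rw [he] at q3 q4
    rcases hl3 with h | h <;> linarith

end Pool.Agent.Potatoes

end

section

/-!
# MP_72041b_co, item B1: one-dimensional stacking in a prescribed order
-/

namespace Pool.Agent.Potatoes

open MeasureTheory Set Metric

theorem claimStack : ClaimStack := by
  intro ι _ _ h hpos hsum
  have hs : ∀ (p : ι → Prop) [DecidablePred p],
      Summable (fun j : ι => if p j then h j else 0) := by
    intro p _
    refine Summable.of_nonneg_of_le (fun j => ?_) (fun j => ?_) hsum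
    · split_ifs
      · exact (hpos j).le
      · exact le_refl 0
    · split_ifs
      · exact le_refl _
      · exact (hpos j).le
  have hmono : ∀ (p q : ι → Prop) [DecidablePred p] [DecidablePred q], (∀ j, p j → q j) →
      ∑' j : ι, (if p j then h j else 0) ≤ ∑' j : ι, (if q j then h j else 0) := by
    intro p q _ _ hpq
    refine (hs p).tsum_le_tsum (fun j => ?_) (hs q)
    by_cases hp : p j
    · simp [hp, hpq j hp]
    · simp only [hp, if_false]
      split_ifs
      · exact (hpos j).le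
      · exact le_refl 0
  have hadd : ∀ i : ι, (∑' j : ι, if j < i then h j else 0) + h i =
      ∑' j : ι, if j ≤ i then h j else 0 := by
    intro i
    have h1 : (∑' j : ι, if j = i then h j else 0) = h i := by
      rw [tsum_ite_eq]
    rw [← h1, ← (hs (fun j => j < i)).tsum_add (hs (fun j => j = i))]
    refine tsum_congr (fun j => ?_)
    rcases lt_trichotomy j i with hj | hj | hj
    · simp [hj, hj.ne, hj.le]
    · subst hj
      simp
    · simp [hj.not_gt, hj.ne', hj.not_ge]
  refine ⟨fun i => ∑' j : ι, if j < i then h j else 0, fun i => rfl, fun i => ?_, hadd,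
    fun i => ?_, fun i i' hii => ?_⟩
  · refine tsum_nonneg (fun j => ?_)
    split_ifs
    · exact (hpos j).le
    · exact le_refl 0
  · show _ ≤ _
    rw [hadd i]
    refine (hs (fun j => j ≤ i)).tsum_le_tsum (fun j => ?_) hsum
    split_ifs
    · exact le_refl _
    · exact (hpos j).le
  · show _ ≤ _
    rw [hadd i]
    exact hmono (fun j => j ≤ i) (fun j => j < i') (fun j hj => lt_of_le_of_lt hj hii)

end Pool.Agent.Potatoes

end

section

/-!
# S2: the cube may be taken to be the standard one, and it may be enlarged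
-/

namespace Pool.Agent.Potatoes

open MeasureTheory Set Metric

namespace Std

/-- placement in a cube of diameter `c` is placement in the standard cube -/
lemma placed_std {k : ℕ} {ι : Type} {K : ι → Set (E k)} {c : ℝ} :
    (∃ Q : Set (E k), IsCube c Q ∧ PlacedIn K Q) ↔ PlacedIn K (stdCube k (c / √k)) := by
  constructor
  · rintro ⟨Q, ⟨g, rfl⟩, h, hsub, hdis⟩
    refine ⟨fun i => (h i).trans g.symm, ?_, ?_⟩
    · intro i
      have h1 : ((h i).trans g.symm) '' K i = g.symm '' (h i '' K i) := by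
        rw [← Set.image_comp]
        rfl
      have h2 : g.symm '' (g '' stdCube k (c / √k)) = stdCube k (c / √k) := by
        rw [← Set.image_comp]
        have h3 : (g.symm ∘ g : E k → E k) = id := by
          funext x
          exact g.symm_apply_apply x
        rw [h3, Set.image_id]
      rw [h1, ← h2]
      exact Set.image_mono (hsub i)
    · intro i j hij
      have h1 : ∀ i, ((h i).trans g.symm) '' K i = g.symm '' (h i '' K i) := by
        intro i
        rw [← Set.image_comp]
        rfl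
      rw [h1, h1, Set.disjoint_image_iff g.symm.injective]
      exact hdis i j hij
  · intro h
    refine ⟨stdCube k (c / √k), ⟨IsometryEquiv.refl (E k), ?_⟩, h⟩
    have h3 : (IsometryEquiv.refl (E k) : E k → E k) = id := rfl
    rw [h3, Set.image_id]

lemma cube_mono {k : ℕ} {s t : ℝ} (h : s ≤ t) : stdCube k s ⊆ stdCube k t := by
  intro x hx i
  exact (hx i).trans (by linarith)

lemma placed_mono {k : ℕ} {ι : Type} {K : ι → Set (E k)} {Q R : Set (E k)} (h : Q ⊆ R)
    (hQ : PlacedIn K Q) : PlacedIn K R := by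
  obtain ⟨g, h1, h2⟩ := hQ
  exact ⟨g, fun i => (h1 i).trans h, h2⟩

end Std

theorem claimStd : ClaimStd := by
  intro k a b c hk hc
  refine ⟨?_, ?_⟩
  · constructor
    · intro h ι _ K h1 h2 h3
      exact Std.placed_std.mp (h ι K h1 h2 h3)
    · intro h ι _ K h1 h2 h3
      exact Std.placed_std.mpr (h ι K h1 h2 h3)
  · intro c' hcc h ι _ K h1 h2 h3
    apply Std.placed_std.mpr
    apply Std.placed_mono (Std.cube_mono _) (Std.placed_std.mp (h ι K h1 h2 h3))
    exact div_le_div_of_nonneg_right hcc (Real.sqrt_nonneg _)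

end Pool.Agent.Potatoes

end

section

/-!
# MP_72041b_co, item F3: the thin double cone
-/

namespace Pool.Agent.Potatoes

open MeasureTheory Set Metric

namespace Thin

/-- Projection to the first `n` coordinates. -/
noncomputable def proj (n : ℕ) : E (n + 1) →ₗ[ℝ] E n where
  toFun x := WithLp.toLp 2 (fun i => x i.castSucc)
  map_add' x y := by ext i; rfl
  map_smul' a x := by ext i; rfl

theorem proj_apply (n : ℕ) (x : E (n + 1)) (i : Fin n) : proj n x i = x i.castSucc := rfl

/-- The defining function of the double cone. -/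
noncomputable def F (n : ℕ) (h : ℝ) (x : E (n + 1)) : ℝ := ‖proj n x‖ + |x (Fin.last n)| / h

theorem norm_proj (n : ℕ) (x : E (n + 1)) :
    ‖proj n x‖ = √(∑ i : Fin n, x i.castSucc ^ 2) := by
  rw [EuclideanSpace.norm_eq]
  congr 1
  refine Finset.sum_congr rfl fun i _ => ?_
  rw [proj_apply, Real.norm_eq_abs, sq_abs]

theorem thin_eq (n : ℕ) (h : ℝ) : thin n h = {x | F n h x ≤ 1 / 2} := by
  unfold thin F
  ext x
  simp only [mem_ofPred_eq, norm_proj]

theorem cont (n : ℕ) (h : ℝ) : Continuous (F n h) := by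
  unfold F
  have h1 : Continuous (proj n) := LinearMap.continuous_of_finiteDimensional _
  have h2 : Continuous (fun x : E (n + 1) => x (Fin.last n)) := by fun_prop
  exact h1.norm.add (h2.abs.div_const h)

theorem sub_ball (n : ℕ) {h : ℝ} (h0 : 0 < h) (h1 : h ≤ 1) :
    thin n h ⊆ closedBall (0 : E (n + 1)) (1 / 2) := by
  intro x hx
  rw [thin_eq] at hx
  have hx' : ‖proj n x‖ + |x (Fin.last n)| / h ≤ 1 / 2 := hx
  rw [mem_closedBall_zero_iff]
  have h2 : |x (Fin.last n)| ≤ |x (Fin.last n)| / h := by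
    rw [le_div_iff₀ h0]
    nlinarith [abs_nonneg (x (Fin.last n))]
  have h3 : ‖x‖ ^ 2 = ‖proj n x‖ ^ 2 + |x (Fin.last n)| ^ 2 := by
    rw [EuclideanSpace.norm_sq_eq, Fin.sum_univ_castSucc, EuclideanSpace.norm_sq_eq]
    simp only [Real.norm_eq_abs, proj_apply]
  have h4 := norm_nonneg (proj n x)
  have h5 := abs_nonneg (x (Fin.last n))
  nlinarith [norm_nonneg x]

theorem convex_thin (n : ℕ) {h : ℝ} (h0 : 0 < h) : Convex ℝ (thin n h) := by
  rw [thin_eq]
  intro x hx y hy a b ha hb hab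
  have hx' : ‖proj n x‖ + |x (Fin.last n)| / h ≤ 1 / 2 := hx
  have hy' : ‖proj n y‖ + |y (Fin.last n)| / h ≤ 1 / 2 := hy
  show ‖proj n (a • x + b • y)‖ + |(a • x + b • y) (Fin.last n)| / h ≤ 1 / 2
  have h1 : ‖proj n (a • x + b • y)‖ ≤ a * ‖proj n x‖ + b * ‖proj n y‖ := by
    rw [map_add, map_smul, map_smul]
    refine (norm_add_le _ _).trans ?_
    rw [norm_smul, norm_smul, Real.norm_of_nonneg ha, Real.norm_of_nonneg hb]
  have h2 : |(a • x + b • y) (Fin.last n)| / h ≤
      a * (|x (Fin.last n)| / h) + b * (|y (Fin.last n)| / h) := by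
    have h3 : (a • x + b • y) (Fin.last n) = a * x (Fin.last n) + b * y (Fin.last n) := rfl
    have h4 : |(a • x + b • y) (Fin.last n)| ≤ a * |x (Fin.last n)| + b * |y (Fin.last n)| := by
      rw [h3]
      refine (abs_add_le _ _).trans ?_
      rw [abs_mul, abs_mul, abs_of_nonneg ha, abs_of_nonneg hb]
    calc |(a • x + b • y) (Fin.last n)| / h
        ≤ (a * |x (Fin.last n)| + b * |y (Fin.last n)|) / h :=
          div_le_div_of_nonneg_right h4 h0.le
      _ = _ := by ring
  have h5 := mul_le_mul_of_nonneg_left hx' ha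
  have h6 := mul_le_mul_of_nonneg_left hy' hb
  have h7 : a * (1 / 2 : ℝ) + b * (1 / 2) = 1 / 2 := by rw [← add_mul, hab, one_mul]
  linarith

theorem body (n : ℕ) {h : ℝ} (h0 : 0 < h) (h1 : h ≤ 1) : IsBody (thin n h) where
  compact := by
    refine Metric.isCompact_of_isClosed_isBounded ?_ ?_
    · rw [thin_eq]
      exact isClosed_le (cont n h) continuous_const
    · exact isBounded_closedBall.subset (sub_ball n h0 h1)
  convex := convex_thin n h0
  inner := by
    refine ⟨0, ?_⟩
    rw [mem_interior]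
    refine ⟨{x | F n h x < 1 / 2}, ?_, isOpen_lt (cont n h) continuous_const, ?_⟩
    · rw [thin_eq]
      intro x hx
      have hx' : F n h x < 1 / 2 := hx
      exact hx'.le
    · show F n h 0 < 1 / 2
      unfold F
      rw [map_zero, norm_zero]
      have : (0 : E (n + 1)) (Fin.last n) = 0 := rfl
      rw [this]
      norm_num

/-- Boxes. -/
def bx {k : ℕ} (a : Fin k → ℝ) : Set (E k) := {x | ∀ i, |x i| ≤ a i}

theorem vol_bx {k : ℕ} (a : Fin k → ℝ) (ha : ∀ i, 0 ≤ a i) :
    volume.real (bx a) = ∏ i, (2 * a i) := by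
  have h1 : bx a = (WithLp.ofLp : E k → (Fin k → ℝ)) ⁻¹' (Icc (fun i => -a i) a) := by
    ext x
    simp only [bx, mem_ofPred_eq, mem_preimage, mem_Icc, Pi.le_def, abs_le]
    exact ⟨fun h => ⟨fun i => (h i).1, fun i => (h i).2⟩, fun h i => ⟨h.1 i, h.2 i⟩⟩
  unfold Measure.real
  rw [h1, (PiLp.volume_preserving_ofLp (Fin k)).measure_preimage
    measurableSet_Icc.nullMeasurableSet, Real.volume_Icc_pi_toReal
    (fun i => (neg_nonpos.2 (ha i)).trans (ha i))]
  refine Finset.prod_congr rfl fun i _ => ?_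
  ring

theorem bx_fin {k : ℕ} (a : Fin k → ℝ) : volume (bx a) ≠ ⊤ := by
  have h1 : bx a = (WithLp.ofLp : E k → (Fin k → ℝ)) ⁻¹' (Icc (fun i => -a i) a) := by
    ext x
    simp only [bx, mem_ofPred_eq, mem_preimage, mem_Icc, Pi.le_def, abs_le]
    exact ⟨fun h => ⟨fun i => (h i).1, fun i => (h i).2⟩, fun h i => ⟨h.1 i, h.2 i⟩⟩
  rw [h1, (PiLp.volume_preserving_ofLp (Fin k)).measure_preimage
    measurableSet_Icc.nullMeasurableSet]
  exact isCompact_Icc.measure_ne_top

/-- The edges of the boxes used below. -/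
noncomputable def ed (n : ℕ) (r s : ℝ) : Fin (n + 1) → ℝ :=
  Fin.snoc (α := fun _ => ℝ) (fun _ : Fin n => r) s

theorem vol_ed (n : ℕ) (r s : ℝ) (hr : 0 ≤ r) (hs : 0 ≤ s) :
    volume.real (bx (ed n r s)) = (2 * r) ^ n * (2 * s) := by
  rw [vol_bx, Fin.prod_univ_castSucc]
  · simp [ed]
  · intro i
    refine Fin.lastCases ?_ (fun j => ?_) i
    · simpa [ed] using hs
    · simpa [ed] using hr

theorem mem_ed (n : ℕ) (r s : ℝ) (x : E (n + 1)) :
    x ∈ bx (ed n r s) ↔ (∀ i : Fin n, |x i.castSucc| ≤ r) ∧ |x (Fin.last n)| ≤ s := by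
  constructor
  · intro h
    refine ⟨fun i => ?_, ?_⟩
    · have := h i.castSucc
      simpa [ed] using this
    · have := h (Fin.last n)
      simpa [ed] using this
  · rintro ⟨h1, h2⟩ i
    refine Fin.lastCases ?_ (fun j => ?_) i
    · simpa [ed] using h2
    · simpa [ed] using h1 j

end Thin

open Thin in
/-- F3: the double cone is a body of diameter at most one and of volume comparable with `h`. -/
theorem claimThin : ClaimThin := by
  intro n hn
  have hn0 : (0 : ℝ) < n := by exact_mod_cast hn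
  refine ⟨(1 / (2 * n) : ℝ) ^ n / 2, by positivity, fun h h0 h1 => ⟨body n h0 h1, ?_, ?_, ?_⟩⟩
  · refine (diam_mono (sub_ball n h0 h1) isBounded_closedBall).trans ?_
    refine (diam_closedBall (by norm_num)).trans ?_
    norm_num
  · have hsub : thin n h ⊆ bx (ed n (1 / 2) (h / 2)) := by
      intro x hx
      rw [thin_eq] at hx
      have hx' : ‖proj n x‖ + |x (Fin.last n)| / h ≤ 1 / 2 := hx
      rw [mem_ed]
      refine ⟨fun i => ?_, ?_⟩
      · have h3 : |x i.castSucc| ≤ ‖proj n x‖ := by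
          have := EuclideanSpace.norm_eq (proj n x)
          rw [this]
          refine Real.le_sqrt_of_sq_le ?_
          have h4 := Finset.single_le_sum (f := fun j => ‖proj n x j‖ ^ 2)
            (fun j _ => by positivity) (Finset.mem_univ i)
          simpa [proj_apply] using h4
        have h5 : 0 ≤ |x (Fin.last n)| / h := by positivity
        linarith
      · have h3 := norm_nonneg (proj n x)
        have h4 : |x (Fin.last n)| / h ≤ 1 / 2 := by linarith
        rw [div_le_iff₀ h0] at h4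
        linarith
    have h2 := measureReal_mono hsub (bx_fin _)
    rw [vol_ed _ _ _ (by norm_num) (by positivity)] at h2
    refine h2.trans (le_of_eq ?_)
    rw [mul_one_div_cancel two_ne_zero, one_pow]
    ring
  · have hsub : bx (ed n (1 / (4 * n)) (h / 4)) ⊆ thin n h := by
      intro x hx
      rw [mem_ed] at hx
      rw [thin_eq]
      show ‖proj n x‖ + |x (Fin.last n)| / h ≤ 1 / 2
      have h3 : ‖proj n x‖ ≤ 1 / 4 := by
        rw [norm_proj]
        rw [Real.sqrt_le_left (by norm_num)]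
        calc ∑ i : Fin n, x i.castSucc ^ 2 ≤ ∑ _i : Fin n, (1 / (4 * n) : ℝ) ^ 2 := by
              refine Finset.sum_le_sum fun i _ => ?_
              rw [← sq_abs]
              exact pow_le_pow_left₀ (abs_nonneg _) (hx.1 i) 2
          _ = (n : ℝ) * (1 / (4 * n)) ^ 2 := by
              rw [Finset.sum_const, Finset.card_univ, Fintype.card_fin, nsmul_eq_mul]
          _ = (1 / 4) ^ 2 * (1 / n) := by
              field_simp
          _ ≤ (1 / 4) ^ 2 * 1 := by
              refine mul_le_mul_of_nonneg_left ?_ (by norm_num)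
              rw [div_le_one hn0]
              exact_mod_cast hn
          _ = _ := by norm_num
      have h4 : |x (Fin.last n)| / h ≤ 1 / 4 := by
        rw [div_le_iff₀ h0]
        have := hx.2
        linarith
      linarith
    have hfin : volume (thin n h) ≠ ⊤ := (body n h0 h1).compact.measure_ne_top
    have h2 := measureReal_mono hsub hfin
    rw [vol_ed _ _ _ (by positivity) (by positivity)] at h2
    refine le_trans (le_of_eq ?_) h2
    have h5 : (2 * (1 / (4 * n)) : ℝ) = 1 / (2 * n) := by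
      field_simp
      norm_num
    rw [h5]
    ring

end Pool.Agent.Potatoes

end

section

/-!
# F1: the volume bound
-/

namespace Pool.Agent.Potatoes

open MeasureTheory Set Metric
open scoped RealInnerProductSpace

namespace Vol

/-- Isometries preserve the volume. -/
theorem volume_image {k : ℕ} (g : E k ≃ᵢ E k) (K : Set (E k)) :
    volume (g '' K) = volume K := by
  have h1 : g '' K = (fun x => x + g 0) '' (g.toRealLinearIsometryEquiv '' K) := by
    rw [image_image]
    refine image_congr fun x _ => ?_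
    rw [IsometryEquiv.toRealLinearIsometryEquiv_apply, sub_add_cancel]
  rw [h1]
  have h2 : (fun x : E k => x + g 0) '' (g.toRealLinearIsometryEquiv '' K) =
      (fun x : E k => x + -g 0) ⁻¹' (g.toRealLinearIsometryEquiv '' K) := by
    ext y
    constructor
    · rintro ⟨x, hx, rfl⟩
      simpa using hx
    · intro hy
      exact ⟨y + -g 0, hy, by simp⟩
  rw [h2, measure_preimage_add_right]
  rw [LinearIsometryEquiv.image_eq_preimage_symm]
  exact g.toRealLinearIsometryEquiv.symm.measurePreserving.measure_preimage_emb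
    g.toRealLinearIsometryEquiv.symm.toHomeomorph.measurableEmbedding K

theorem stdCube_eq (k : ℕ) (s : ℝ) : stdCube k s = (@WithLp.ofLp 2 (Fin k → ℝ)) ⁻¹'
      (Set.pi univ fun _ => Icc (-(s / 2)) (s / 2)) := by
  ext x
  simp only [stdCube, mem_preimage, mem_pi, mem_univ, true_imp_iff, mem_Icc, ← abs_le]
  rfl

theorem volume_stdCube (k : ℕ) {s : ℝ} (hs : 0 ≤ s) :
    volume (stdCube k s) = ENNReal.ofReal (s ^ k) := by
  rw [stdCube_eq, (PiLp.volume_preserving_ofLp (Fin k)).measure_preimage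
    (MeasurableSet.univ_pi fun _ => measurableSet_Icc).nullMeasurableSet, volume_pi_pi]
  simp only [Real.volume_Icc, Finset.prod_const, Finset.card_univ, Fintype.card_fin]
  rw [← ENNReal.ofReal_pow (by linarith)]
  congr 1
  ring

theorem isClosed_stdCube (k : ℕ) (s : ℝ) : IsClosed (stdCube k s) := by
  have : stdCube k s = ⋂ i, {x : E k | |x i| ≤ s / 2} := by
    ext x
    simp [stdCube]
  rw [this]
  refine isClosed_iInter fun i => isClosed_le ?_ continuous_const
  exact continuous_abs.comp (EuclideanSpace.proj i : E k →L[ℝ] ℝ).continuous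

theorem dist_stdCube (k : ℕ) {s : ℝ} (hs : 0 ≤ s) {x y : E k} (hx : x ∈ stdCube k s)
    (hy : y ∈ stdCube k s) : dist x y ≤ √k * s := by
  rw [EuclideanSpace.dist_eq]
  have h1 : ∑ i, dist (x i) (y i) ^ 2 ≤ (√k * s) ^ 2 := by
    rw [mul_pow, Real.sq_sqrt (Nat.cast_nonneg k)]
    calc ∑ i, dist (x i) (y i) ^ 2 ≤ ∑ _i : Fin k, s ^ 2 := by
          refine Finset.sum_le_sum fun i _ => ?_
          refine pow_le_pow_left₀ dist_nonneg ?_ 2
          rw [Real.dist_eq]
          have h2 := hx i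
          have h3 := hy i
          calc |x i - y i| ≤ |x i| + |y i| := abs_sub _ _
            _ ≤ s := by linarith
      _ = k * s ^ 2 := by simp
  calc √(∑ i, dist (x i) (y i) ^ 2) ≤ √((√k * s) ^ 2) := Real.sqrt_le_sqrt h1
    _ = √k * s := Real.sqrt_sq (by positivity)

theorem isBody_stdCube (k : ℕ) {s : ℝ} (hs : 0 < s) : IsBody (stdCube k s) := by
  refine ⟨?_, ?_, ?_⟩
  · refine Metric.isCompact_of_isClosed_isBounded (isClosed_stdCube k s) ?_
    exact Metric.isBounded_iff.2 ⟨√k * s, fun x hx y hy => dist_stdCube k hs.le hx hy⟩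
  · intro x hx y hy a b ha hb hab i
    have h1 : (a • x + b • y) i = a * x i + b * y i := by simp
    rw [h1]
    calc |a * x i + b * y i| ≤ |a * x i| + |b * y i| := abs_add_le _ _
      _ = a * |x i| + b * |y i| := by rw [abs_mul, abs_mul, abs_of_nonneg ha, abs_of_nonneg hb]
      _ ≤ a * (s / 2) + b * (s / 2) := by
          have h2 := hx i
          have h3 := hy i
          gcongr
      _ = s / 2 := by rw [← add_mul, hab, one_mul]
  · refine ⟨0, mem_interior.2 ⟨⋂ i, {x : E k | |x i| < s / 2}, ?_, ?_, ?_⟩⟩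
    · intro x hx i
      have := mem_iInter.1 hx i
      exact le_of_lt this
    · refine isOpen_iInter_of_finite fun i => isOpen_lt ?_ continuous_const
      exact continuous_abs.comp (EuclideanSpace.proj i : E k →L[ℝ] ℝ).continuous
    · refine mem_iInter.2 fun i => ?_
      change |(0 : E k) i| < s / 2
      simp [hs]

end Vol

open Vol in
theorem claimVol (hs : ClaimStd) : ClaimVol := by
  intro n _ t c ht hc hW
  set k := n + 1 with hk
  have hk0 : (0 : ℝ) < (k : ℝ) := by positivity
  have hkc : (k : ℝ) = (n : ℝ) + 1 := by push_cast [hk]; ring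
  rw [← hkc]
  have hsk : 0 < √(k : ℝ) := Real.sqrt_pos.2 hk0
  obtain ⟨N, hN⟩ := exists_nat_gt (t * √(k : ℝ) ^ k)
  have hNpos : (0 : ℝ) < N := lt_of_le_of_lt (by positivity) hN
  set s := (t / N) ^ (1 / (k : ℝ)) with hsdef
  have hs0 : 0 < s := Real.rpow_pos_of_pos (by positivity) _
  have hsp : s ^ k = t / N := by
    rw [hsdef, one_div]
    exact Real.rpow_inv_natCast_pow (by positivity) (by omega)
  have hs1 : √(k : ℝ) * s ≤ 1 := by
    have h1 : (√(k : ℝ) * s) ^ k ≤ 1 ^ k := by
      rw [mul_pow, hsp, one_pow]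
      rw [mul_div_assoc', div_le_one hNpos]
      linarith [mul_comm t (√(k : ℝ) ^ k)]
    exact le_of_pow_le_pow_left₀ (by omega) (by norm_num) h1
  have hplaced := ((hs k 1 t c (by omega) hc).1.1 hW) (Fin N) (fun _ => stdCube k s)
    (fun _ => isBody_stdCube k hs0)
    (fun _ => Metric.diam_le_of_forall_dist_le zero_le_one fun x hx y hy =>
      (dist_stdCube k hs0.le hx hy).trans hs1) (by
      rw [tsum_fintype, Finset.sum_const, Finset.card_univ, Fintype.card_fin,
        volume_stdCube k hs0.le, hsp, nsmul_eq_mul, ← ENNReal.ofReal_natCast,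
        ← ENNReal.ofReal_mul hNpos.le]
      apply le_of_eq
      congr 1
      field_simp)
  obtain ⟨g, hg1, hg2⟩ := hplaced
  have hvol : ENNReal.ofReal t ≤ ENNReal.ofReal ((c / √(k : ℝ)) ^ k) := by
    rw [← volume_stdCube k (by positivity : 0 ≤ c / √(k : ℝ))]
    calc ENNReal.ofReal t = ∑ i : Fin N, volume (g i '' stdCube k s) := by
          simp only [volume_image]
          rw [Finset.sum_const, Finset.card_univ, Fintype.card_fin,
            volume_stdCube k hs0.le, hsp, nsmul_eq_mul, ← ENNReal.ofReal_natCast,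
            ← ENNReal.ofReal_mul hNpos.le]
          congr 1
          field_simp
      _ = volume (⋃ i : Fin N, g i '' stdCube k s) := by
          rw [measure_iUnion, tsum_fintype]
          · intro i j hij
            exact hg2 i j hij
          · intro i
            exact ((isBody_stdCube k hs0).compact.image (g i).continuous).measurableSet
      _ ≤ volume (stdCube k (c / √(k : ℝ))) := measure_mono (iUnion_subset hg1)
  have hvol' : t ≤ (c / √(k : ℝ)) ^ k :=
    (ENNReal.ofReal_le_ofReal_iff (by positivity)).1 hvol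
  have h2 : t ^ (1 / (k : ℝ)) ≤ c / √(k : ℝ) := by
    have h3 : t ^ (1 / (k : ℝ)) ≤ ((c / √(k : ℝ)) ^ k) ^ (1 / (k : ℝ)) :=
      Real.rpow_le_rpow ht.le hvol' (by positivity)
    rwa [one_div, Real.pow_rpow_inv_natCast (by positivity) (by omega), ← one_div] at h3
  rw [le_div_iff₀ hsk] at h2
  linarith [mul_comm (t ^ (1 / (k : ℝ))) (√(k : ℝ))]

end Pool.Agent.Potatoes

end

section

/-!
# MP_72041b_co, item C2: an odd function sums to zero over some rotated simplex
-/

namespace Pool.Agent.Potatoes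

open MeasureTheory Set Metric
open scoped RealInnerProductSpace

namespace ZeroAux

variable {N j : ℕ} {p : Fin (j + 1) → E N}

theorem sum_zero (hp : IsSimplex p) : ∑ m, p m = 0 := by
  have h1 : ⟪∑ m, p m, ∑ m, p m⟫ = 0 := by
    rw [sum_inner]
    simp_rw [inner_sum]
    have h2 : ∀ l : Fin (j + 1), ∑ m, ⟪p l, p m⟫ = 0 := by
      intro l
      simp_rw [hp l]
      rw [Finset.sum_sub_distrib, Finset.sum_ite_eq]
      simp only [Finset.mem_univ, if_true, Finset.sum_const, Finset.card_univ,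
        Fintype.card_fin, nsmul_eq_mul]
      have : (j : ℝ) + 1 ≠ 0 := by positivity
      push_cast
      field_simp
      ring
    simp [h2]
  exact inner_self_eq_zero.mp h1

theorem indep (hp : IsSimplex p) : LinearIndependent ℝ (fun m : Fin j => p m.succ) := by
  rw [Fintype.linearIndependent_iff]
  intro a ha
  have h1 : ∀ q : E N, ∑ m : Fin j, a m * ⟪q, p m.succ⟫ = 0 := by
    intro q
    have h2 : ⟪q, ∑ m : Fin j, a m • p m.succ⟫ = 0 := by rw [ha, inner_zero_right]
    rw [inner_sum] at h2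
    simp_rw [inner_smul_right] at h2
    exact h2
  have h0 := h1 (p 0)
  have h0' : ∑ m : Fin j, a m * (-(1 / ((j : ℝ) + 1))) = 0 := by
    rw [← h0]
    refine Finset.sum_congr rfl (fun m _ => ?_)
    rw [hp 0 m.succ, if_neg (Fin.succ_ne_zero m).symm]
    ring
  intro l
  have hl := h1 (p l.succ)
  have hl' : ∑ m : Fin j, a m * ⟪p l.succ, p m.succ⟫ =
      ∑ m : Fin j, (if l = m then a m else 0) + ∑ m : Fin j, a m * (-(1 / ((j : ℝ) + 1))) := by
    rw [← Finset.sum_add_distrib]
    refine Finset.sum_congr rfl (fun m _ => ?_)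
    rw [hp l.succ m.succ]
    by_cases hlm : l = m
    · subst hlm
      simp
      ring
    · have : ¬ l.succ = m.succ := fun h => hlm (Fin.succ_injective _ h)
      rw [if_neg this, if_neg hlm]
      ring
  rw [hl', h0', add_zero, Finset.sum_ite_eq, if_pos (Finset.mem_univ l)] at hl
  exact hl

theorem finrank_span (hp : IsSimplex p) :
    Module.finrank ℝ (Submodule.span ℝ (Set.range p)) = j := by
  have h1 : Submodule.span ℝ (Set.range p) =
      Submodule.span ℝ (Set.range (fun m : Fin j => p m.succ)) := by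
    apply le_antisymm
    · rw [Submodule.span_le]
      rintro _ ⟨m, rfl⟩
      have hs : ∀ m : Fin j, p m.succ ∈ Submodule.span ℝ (Set.range (fun m : Fin j => p m.succ)) :=
        fun m => Submodule.subset_span ⟨m, rfl⟩
      refine Fin.cases ?_ (fun m => hs m) m
      have h0 := sum_zero hp
      rw [Fin.sum_univ_succ] at h0
      have h2 : p 0 = -∑ m : Fin j, p m.succ := eq_neg_of_add_eq_zero_left h0
      show p 0 ∈ _
      rw [h2]
      exact Submodule.neg_mem _ (Submodule.sum_mem _ (fun m _ => hs m))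
    · rw [Submodule.span_le]
      rintro _ ⟨m, rfl⟩
      exact Submodule.subset_span ⟨m.succ, rfl⟩
  rw [h1, finrank_span_eq_card (indep hp), Fintype.card_fin]

theorem exists_zero {φ : ℝ → ℝ} (hc : Continuous φ) (h1 : φ 1 = -φ 0) : ∃ t, φ t = 0 := by
  rcases le_total (φ 0) 0 with h | h
  · exact mem_range_of_exists_le_of_exists_ge hc ⟨0, h⟩ ⟨1, by rw [h1]; linarith⟩
  · exact mem_range_of_exists_le_of_exists_ge hc ⟨1, by rw [h1]; linarith⟩ ⟨0, h⟩

theorem mem_orth {F : Submodule ℝ (E N)} (hF : F ≤ Submodule.span ℝ (Set.range p)) {x : E N}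
    (hx : ∀ m, ⟪p m, x⟫ = 0) : x ∈ Fᗮ := by
  have h1 : x ∈ (Submodule.span ℝ (Set.range p))ᗮ := by
    rw [Submodule.mem_orthogonal]
    intro u hu
    induction hu using Submodule.span_induction with
    | mem y hy =>
      obtain ⟨m, rfl⟩ := hy
      exact hx m
    | zero => exact inner_zero_left _
    | add y z _ _ hy hz => rw [inner_add_left, hy, hz, add_zero]
    | smul c y _ hy => rw [inner_smul_left, hy, mul_zero]
  exact Submodule.orthogonal_le hF h1

end ZeroAux

open ZeroAux in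
theorem claimZero (h : ClaimRot) : ClaimZero := by
  intro N j p hp g hg hodd
  set F := Submodule.span ℝ (Set.range p) with hF
  have hpF : ∀ m, p m ∈ F := fun m => Submodule.subset_span ⟨m, rfl⟩
  have hfin : Module.finrank ℝ F = j := finrank_span hp
  rcases Nat.even_or_odd j with hj | hj
  · obtain ⟨R, hR1, hR2, hR3, hR4⟩ := h N F (by rwa [hfin])
    have hc : Continuous (fun t => ∑ m, g (R t (p m))) :=
      continuous_finsetSum _ (fun m _ => hg.comp (hR1 (p m)))
    obtain ⟨t, ht⟩ := exists_zero hc (by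
      simp only [hR2]
      rw [← Finset.sum_neg_distrib]
      refine Finset.sum_congr rfl (fun m _ => ?_)
      rw [hR3 _ (hpF m), hodd])
    exact ⟨R t, fun x hx => hR4 t x (mem_orth le_rfl hx), ht⟩
  · obtain ⟨i, hi⟩ := hj
    obtain ⟨j', rfl⟩ : ∃ j', j = j' + 1 := ⟨2 * i, hi⟩
    set nn : E N := p 0 - p 1 with hnn
    have h01 : (0 : Fin (j' + 1 + 1)) ≠ 1 := by
      intro h
      have := congrArg Fin.val h
      simp at this
    have hnnF : nn ∈ F := Submodule.sub_mem _ (hpF 0) (hpF 1)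
    have hnn0 : ⟪nn, p 0⟫ = 1 := by
      rw [hnn, inner_sub_left, hp 0 0, hp 1 0, if_pos rfl, if_neg h01.symm]
      ring
    have hnn1 : ⟪nn, p 1⟫ = -1 := by
      rw [hnn, inner_sub_left, hp 0 1, hp 1 1, if_pos rfl, if_neg h01]
      ring
    have hnne : nn ≠ 0 := by
      intro h0
      rw [h0, inner_zero_left] at hnn0
      exact zero_ne_one hnn0
    have hnm : ∀ m, m ≠ 0 → m ≠ 1 → ⟪nn, p m⟫ = 0 := by
      intro m h0 h1
      rw [hnn, inner_sub_left, hp 0 m, hp 1 m, if_neg (Ne.symm h0), if_neg (Ne.symm h1)]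
      ring
    set K1 : Submodule ℝ (E N) := Submodule.span ℝ {nn} with hK1
    have hle : K1 ≤ F := by
      rw [hK1, Submodule.span_le]
      intro x hx
      rw [Set.mem_singleton_iff] at hx
      rw [hx]
      exact hnnF
    have hf := Submodule.finrank_add_inf_finrank_orthogonal hle
    have hf1 : Module.finrank ℝ K1 = 1 := finrank_span_singleton hnne
    rw [hf1, hfin] at hf
    have hev : Even (Module.finrank ℝ ↥(K1ᗮ ⊓ F)) := ⟨i, by omega⟩
    have hmemF' : ∀ x, x ∈ F → ⟪nn, x⟫ = 0 → x ∈ K1ᗮ ⊓ F := by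
      intro x hx h0
      refine ⟨?_, hx⟩
      rw [SetLike.mem_coe, Submodule.mem_orthogonal]
      intro u hu
      rw [hK1, Submodule.mem_span_singleton] at hu
      obtain ⟨c, rfl⟩ := hu
      rw [inner_smul_left, h0, mul_zero]
    have hnnorth : nn ∈ (K1ᗮ ⊓ F)ᗮ := by
      rw [Submodule.mem_orthogonal]
      intro u hu
      have h1 := (Submodule.mem_orthogonal K1 u).mp hu.1 nn (Submodule.mem_span_singleton_self nn)
      rw [real_inner_comm]
      exact h1
    obtain ⟨R, hR1, hR2, hR3, hR4⟩ := h N (K1ᗮ ⊓ F) hev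
    have hmid : p 0 + p 1 ∈ K1ᗮ ⊓ F := by
      refine hmemF' _ (Submodule.add_mem _ (hpF 0) (hpF 1)) ?_
      rw [inner_add_right, hnn0, hnn1]
      ring
    have e0 : p 0 = (1 / 2 : ℝ) • nn + (1 / 2 : ℝ) • (p 0 + p 1) := by
      rw [hnn, ← smul_add]
      have : p 0 - p 1 + (p 0 + p 1) = (2 : ℝ) • p 0 := by
        rw [two_smul]
        abel
      rw [this, smul_smul]
      norm_num
    have e1 : p 1 = -((1 / 2 : ℝ) • nn) + (1 / 2 : ℝ) • (p 0 + p 1) := by
      rw [hnn, ← smul_neg, ← smul_add]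
      have : -(p 0 - p 1) + (p 0 + p 1) = (2 : ℝ) • p 1 := by
        rw [two_smul]
        abel
      rw [this, smul_smul]
      norm_num
    have r0 : R 1 (p 0) = -p 1 := by
      have : R 1 (p 0) = (1 / 2 : ℝ) • nn + (1 / 2 : ℝ) • (-(p 0 + p 1)) := by
        conv_lhs => rw [e0]
        rw [map_add, map_smul, map_smul, hR4 1 nn hnnorth, hR3 _ hmid]
      rw [this]
      conv_rhs => rw [e1]
      module
    have r1 : R 1 (p 1) = -p 0 := by
      have : R 1 (p 1) = -((1 / 2 : ℝ) • nn) + (1 / 2 : ℝ) • (-(p 0 + p 1)) := by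
        conv_lhs => rw [e1]
        rw [map_add, map_neg, map_smul, map_smul, hR4 1 nn hnnorth, hR3 _ hmid]
      rw [this]
      conv_rhs => rw [e0]
      module
    have hc : Continuous (fun t => ∑ m, g (R t (p m))) :=
      continuous_finsetSum _ (fun m _ => hg.comp (hR1 (p m)))
    have hRm : ∀ m, R 1 (p m) = -p (Equiv.swap 0 1 m) := by
      intro m
      by_cases h0 : m = 0
      · subst h0
        rw [Equiv.swap_apply_left, r0]
      · by_cases h1 : m = 1
        · subst h1
          rw [Equiv.swap_apply_right, r1]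
        · rw [Equiv.swap_apply_of_ne_of_ne h0 h1]
          exact hR3 _ (hmemF' _ (hpF m) (hnm m h0 h1))
    obtain ⟨t, ht⟩ := exists_zero hc (by
      simp only [hR2]
      rw [← Finset.sum_neg_distrib, ← Equiv.sum_comp (Equiv.swap 0 1) (fun m => -g (p m))]
      refine Finset.sum_congr rfl (fun m _ => ?_)
      rw [hRm m, hodd])
    exact ⟨R t, fun x hx => hR4 t x (mem_orth (p := p) inf_le_right hx), ht⟩

end Pool.Agent.Potatoes

end

section

/-!
# MP_72041b_co: the lower bound in general dimension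
-/

namespace Pool.Agent.Potatoes

open MeasureTheory Set Metric
open scoped RealInnerProductSpace

namespace Low

open Disc

/-- An isometry is a linear isometry followed by a translation. -/
theorem exists_linear {k : ℕ} (g : E k ≃ᵢ E k) :
    ∃ L : E k ≃ₗᵢ[ℝ] E k, ∀ x, g x = L x + g 0 := by
  refine ⟨g.toRealAffineIsometryEquiv.linearIsometryEquiv, fun x => ?_⟩
  have h := g.toRealAffineIsometryEquiv.map_vadd (0 : E k) x
  simpa using h

theorem volume_image {k : ℕ} (g : E k ≃ᵢ E k) {A : Set (E k)} (hA : IsCompact A) :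
    volume (g '' A) = volume A := by
  obtain ⟨L, hL⟩ := exists_linear g
  have h1 : MeasurePreserving (fun x => L x + g 0) (volume : Measure (E k)) volume :=
    (measurePreserving_add_right volume (g 0)).comp L.measurePreserving
  have h2 : (fun x => L x + g 0) = g := funext fun x => (hL x).symm
  rw [h2] at h1
  have hm : MeasurableSet (g '' A) := (hA.image g.continuous).isClosed.measurableSet
  rw [← h1.measure_preimage hm.nullMeasurableSet, preimage_image_eq _ g.injective]

theorem norm_split {n : ℕ} (x : E (n + 1)) :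
    ‖x‖ ^ 2 = ∑ i : Fin n, x i.castSucc ^ 2 + x (Fin.last n) ^ 2 := by
  rw [norm_sq_eq, Fin.sum_univ_castSucc]

/-- The copies of the thin body lie in a slab. -/
theorem slab {n : ℕ} (hn : 1 ≤ n) (h1 : ClaimDisc) {h s : ℝ} (hh : 0 < h)
    (g : E (n + 1) ≃ᵢ E (n + 1)) (hg : g '' thin n h ⊆ stdCube (n + 1) s) :
    0 < s ∧ (n : ℝ) / (n + 1) ≤ s ^ 2 ∧ ∃ σ : Fin (n + 1) → ℝ, (∀ i, σ i = 1 ∨ σ i = -1) ∧
      ∀ y ∈ g '' thin n h, |∑ i, σ i * y i| ≤
        2 * ((n : ℝ) + 1) ^ 3 * (s ^ 2 - (n : ℝ) / (n + 1)) + ((n : ℝ) + 1) * h := by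
  obtain ⟨L, hL⟩ := exists_linear g
  set e : E (n + 1) := EuclideanSpace.single (Fin.last n) (1 : ℝ) with he
  have hen : ‖e‖ = 1 := by simp [he]
  have hex : ∀ x : E (n + 1), ⟪e, x⟫ = x (Fin.last n) := fun x => by
    rw [inner_eq, Finset.sum_eq_single (Fin.last n)]
    · simp [he]
    · intro j _ hj
      simp [he, hj]
    · simp
  have hν : ‖L e‖ = 1 := by rw [L.norm_map, hen]
  obtain ⟨hs, hs2, σ, hσ, hb⟩ := h1 n hn s (L e) (g 0) hν (by
    intro x hx hx2
    have hy : (L.symm x) (Fin.last n) = 0 := by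
      rw [← hex, ← L.inner_map_map, L.apply_symm_apply, hx]
    have hmem : L.symm x ∈ thin n h := by
      change √(∑ i : Fin n, (L.symm x) i.castSucc ^ 2) + |(L.symm x) (Fin.last n)| / h ≤ 1 / 2
      have h2 := norm_split (L.symm x)
      rw [hy, L.symm.norm_map] at h2
      rw [hy, abs_zero, zero_div, add_zero]
      have h3 : ∑ i : Fin n, (L.symm x) i.castSucc ^ 2 = ‖x‖ ^ 2 := by rw [h2]; ring
      rw [h3, Real.sqrt_sq (norm_nonneg x)]
      exact hx2
    have h4 := hg (mem_image_of_mem g hmem)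
    rw [hL, L.apply_symm_apply, add_comm x (g 0)] at h4
    exact h4)
  refine ⟨hs, hs2, σ, hσ, ?_⟩
  rintro _ ⟨x, hx, rfl⟩
  have hx' : √(∑ i : Fin n, x i.castSucc ^ 2) + |x (Fin.last n)| / h ≤ 1 / 2 := hx
  set r : ℝ := x (Fin.last n) with hr
  set w : E (n + 1) := x - r • e with hw
  have hwl : w (Fin.last n) = 0 := by simp [hw, he, hr]
  have hwi : ∀ i : Fin n, w i.castSucc = x i.castSucc := fun i => by
    have : i.castSucc ≠ Fin.last n := (Fin.castSucc_lt_last i).ne
    simp [hw, he, this]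
  have hsq0 : 0 ≤ √(∑ i : Fin n, x i.castSucc ^ 2) := Real.sqrt_nonneg _
  have hr0 : 0 ≤ |r| / h := by positivity
  have hwn : ‖w‖ ≤ 1 / 2 := by
    have h2 := norm_split w
    rw [hwl] at h2
    have h3 : ‖w‖ ^ 2 = ∑ i : Fin n, x i.castSucc ^ 2 := by
      rw [h2]
      simp only [hwi]
      ring
    have h4 : ‖w‖ = √(∑ i : Fin n, x i.castSucc ^ 2) := by
      rw [← h3, Real.sqrt_sq (norm_nonneg w)]
    rw [h4]
    linarith
  have hrh : |r| ≤ h / 2 := by
    have h2 : |r| / h ≤ 1 / 2 := by linarith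
    rw [div_le_iff₀ hh] at h2
    linarith
  have horth : ⟪L e, L w⟫ = 0 := by rw [L.inner_map_map, hex, hwl]
  have hLw : ‖L w‖ ≤ 1 / 2 := by rw [L.norm_map]; exact hwn
  have hB := hb (L w) horth hLw
  have hgx : g x = (g 0 + L w) + r • L e := by
    rw [hL x]
    have : x = w + r • e := by rw [hw]; abel
    conv_lhs => rw [this, map_add, map_smul]
    abel
  have hsum : ∑ i, σ i * (g x) i = ∑ i, σ i * (g 0 + L w) i + r * ∑ i, σ i * (L e) i := by
    rw [Finset.mul_sum, ← Finset.sum_add_distrib]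
    refine Finset.sum_congr rfl fun i _ => ?_
    rw [hgx]
    simp only [PiLp.add_apply, PiLp.smul_apply, smul_eq_mul]
    ring
  have hσ1 : ∀ i, |σ i| = 1 := fun i => by rcases hσ i with h | h <;> rw [h] <;> norm_num
  have hSe : |∑ i, σ i * (L e) i| ≤ (n : ℝ) + 1 := by
    refine (Finset.abs_sum_le_sum_abs _ _).trans ?_
    have h2 : ∀ i ∈ (Finset.univ : Finset (Fin (n + 1))), |σ i * (L e) i| ≤ 1 := fun i _ => by
      rw [abs_mul, hσ1, one_mul, ← hν]
      exact abs_coord_le _ _
    refine (Finset.sum_le_sum h2).trans (le_of_eq ?_)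
    simp
  rw [hsum]
  refine (abs_add_le _ _).trans (add_le_add hB ?_)
  rw [abs_mul]
  calc |r| * |∑ i, σ i * (L e) i| ≤ (h / 2) * ((n : ℝ) + 1) :=
        mul_le_mul hrh hSe (abs_nonneg _) (by positivity)
    _ ≤ ((n : ℝ) + 1) * h := by
        have : 0 ≤ ((n : ℝ) + 1) * h := by positivity
        linarith

/-- The inequality for one value of `h`. -/
theorem step (hs : ClaimStd) (h1 : ClaimDisc) (h3 : ClaimSlab) {n : ℕ} (hn : 1 ≤ n) {κ : ℝ}
    (hκ : 0 < κ) {t c h : ℝ} (ht : 0 < t) (hc : 0 < c) (hh : 0 < h) (hht : h < t)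
    (hb : IsBody (thin n h)) (hd : diam (thin n h) ≤ 1) (hv : volume.real (thin n h) ≤ h)
    (hv2 : κ * h ≤ volume.real (thin n h)) (hW : Works (n + 1) 1 t c) :
    (n : ℝ) ≤ c ^ 2 ∧ κ * (t - h) ≤ 2 ^ (n + 1) * (2 *
      (2 * ((n : ℝ) + 1) ^ 2 * (c ^ 2 - n) + ((n : ℝ) + 1) * h) * c ^ n) := by
  have hk0 : 0 < (n : ℝ) + 1 := by positivity
  have hth : 1 ≤ t / h := by rw [le_div_iff₀ hh]; linarith
  set N : ℕ := ⌊t / h⌋₊ with hN
  have hN1 : 1 ≤ N := by
    rw [hN]
    exact Nat.one_le_floor_iff _ |>.mpr hth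
  have hNle : (N : ℝ) * h ≤ t := by
    have := Nat.floor_le (show 0 ≤ t / h by positivity)
    rwa [le_div_iff₀ hh] at this
  have hNge : t - h ≤ (N : ℝ) * h := by
    have := Nat.lt_floor_add_one (t / h)
    rw [div_lt_iff₀ hh, ← hN] at this
    linarith
  have hfin : volume (thin n h) ≠ ⊤ := hb.compact.measure_lt_top.ne
  have hvE : volume (thin n h) = ENNReal.ofReal (volume.real (thin n h)) := by
    rw [measureReal_def, ENNReal.ofReal_toReal hfin]
  have hpl := ((hs (n + 1) 1 t c (Nat.succ_pos n) hc).1.mp hW (Fin N) (fun _ => thin n h)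
    (fun _ => hb) (fun _ => hd) (by
      rw [tsum_fintype, Finset.sum_const, Finset.card_univ, Fintype.card_fin, nsmul_eq_mul, hvE,
        ← ENNReal.ofReal_natCast, ← ENNReal.ofReal_mul (Nat.cast_nonneg N)]
      refine ENNReal.ofReal_le_ofReal (le_trans ?_ hNle)
      exact mul_le_mul_of_nonneg_left hv (Nat.cast_nonneg N)))
  obtain ⟨g, hg, hdis⟩ := hpl
  set s : ℝ := c / √((n + 1 : ℕ) : ℝ) with hsdef
  have hsq : √((n + 1 : ℕ) : ℝ) = √((n : ℝ) + 1) := by push_cast; rfl
  have hsk : √((n : ℝ) + 1) * s = c := by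
    rw [hsdef, hsq]
    have : √((n : ℝ) + 1) ≠ 0 := (Real.sqrt_pos.mpr hk0).ne'
    field_simp
  have hs2 : s ^ 2 = c ^ 2 / ((n : ℝ) + 1) := by
    rw [hsdef, hsq, div_pow, Real.sq_sqrt hk0.le]
  have hall := fun i => slab hn h1 hh (g i) (hg i)
  obtain ⟨hs0, hsn, -⟩ := hall ⟨0, hN1⟩
  have hcn : (n : ℝ) ≤ c ^ 2 := by
    rw [hs2, div_le_div_iff_of_pos_right hk0] at hsn
    exact hsn
  refine ⟨hcn, ?_⟩
  set δ : ℝ := 2 * ((n : ℝ) + 1) ^ 3 * (s ^ 2 - (n : ℝ) / (n + 1)) + ((n : ℝ) + 1) * h with hδ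
  have hδ2 : δ = 2 * ((n : ℝ) + 1) ^ 2 * (c ^ 2 - n) + ((n : ℝ) + 1) * h := by
    rw [hδ, hs2]
    field_simp
  have hδ0 : 0 ≤ δ := by
    rw [hδ2]
    have : 0 ≤ c ^ 2 - n := by linarith
    positivity
  -- the cover
  set sg : (Fin (n + 1) → Bool) → Fin (n + 1) → ℝ := fun τ i => if τ i then 1 else -1 with hsg
  have hsg1 : ∀ τ i, sg τ i = 1 ∨ sg τ i = -1 := fun τ i => by
    rw [hsg]
    simp only
    split_ifs
    · exact Or.inl rfl
    · exact Or.inr rfl
  have hcov : (⋃ i, g i '' thin n h) ⊆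
      ⋃ τ, {x : E (n + 1) | x ∈ stdCube (n + 1) s ∧ |∑ i, sg τ i * x i| ≤ δ} := by
    intro y hy
    rw [mem_iUnion] at hy
    obtain ⟨i, hi⟩ := hy
    obtain ⟨-, -, σ, hσ, hσb⟩ := hall i
    rw [mem_iUnion]
    refine ⟨fun l => decide (σ l = 1), hg i hi, ?_⟩
    have h4 : sg (fun l => decide (σ l = 1)) = σ := by
      funext l
      rw [hsg]
      simp only [decide_eq_true_eq]
      rcases hσ l with h | h
      · rw [if_pos h, h]
      · rw [if_neg (by rw [h]; norm_num), h]
    rw [h4]
    exact hσb y hi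
  have hvol1 : volume (⋃ i, g i '' thin n h) = (N : ENNReal) * volume (thin n h) := by
    rw [measure_iUnion (fun i j hij => hdis i j hij)
      (fun i => (hb.compact.image (g i).continuous).isClosed.measurableSet)]
    simp only [volume_image _ hb.compact]
    rw [tsum_fintype, Finset.sum_const, Finset.card_univ, Fintype.card_fin, nsmul_eq_mul]
  have hvol2 : volume (⋃ τ, {x : E (n + 1) | x ∈ stdCube (n + 1) s ∧
      |∑ i, sg τ i * x i| ≤ δ}) ≤ ENNReal.ofReal (2 ^ (n + 1) * (2 * δ * c ^ n)) := by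
    refine (measure_iUnion_le _).trans ?_
    rw [tsum_fintype]
    refine (Finset.sum_le_sum fun τ _ => h3 n s δ (sg τ) hs0.le hδ0 (hsg1 τ)).trans ?_
    rw [Finset.sum_const, Finset.card_univ, hsk, nsmul_eq_mul]
    rw [ENNReal.ofReal_mul (by positivity : (0 : ℝ) ≤ 2 ^ (n + 1))]
    refine le_of_eq ?_
    congr 1
    rw [Fintype.card_fun, Fintype.card_bool, Fintype.card_fin]
    rw [ENNReal.ofReal_pow (by norm_num)]
    simp
  have hmain : (N : ENNReal) * volume (thin n h) ≤
      ENNReal.ofReal (2 ^ (n + 1) * (2 * δ * c ^ n)) := by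
    rw [← hvol1]
    exact (measure_mono hcov).trans hvol2
  rw [hvE, ← ENNReal.ofReal_natCast, ← ENNReal.ofReal_mul (Nat.cast_nonneg N),
    ENNReal.ofReal_le_ofReal_iff (by positivity)] at hmain
  rw [← hδ2]
  calc κ * (t - h) ≤ κ * ((N : ℝ) * h) := mul_le_mul_of_nonneg_left hNge hκ.le
    _ = (N : ℝ) * (κ * h) := by ring
    _ ≤ (N : ℝ) * volume.real (thin n h) :=
        mul_le_mul_of_nonneg_left hv2 (Nat.cast_nonneg N)
    _ ≤ _ := hmain

end Low

open Low in
theorem claimLow (hs : ClaimStd) (h1 : ClaimDisc) (h2 : ClaimThin) (h3 : ClaimSlab) :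
    ClaimLow := by
  intro n hn
  obtain ⟨κ, hκ, hthin⟩ := h2 n hn
  have hn0 : (0 : ℝ) ≤ n := Nat.cast_nonneg n
  have hk0 : 0 < (n : ℝ) + 1 := by positivity
  set A : ℝ := 2 ^ (n + 1) * (2 * (2 * ((n : ℝ) + 1) ^ 2)) * (2 * √n + 1) * (√n + 1) ^ n
    with hA
  have hA0 : 0 < A := by positivity
  refine ⟨min 1 (κ / A), lt_min one_pos (div_pos hκ hA0), ?_⟩
  intro t c ht hc hW
  have hstep : ∀ h : ℝ, 0 < h → h ≤ 1 → h < t → (n : ℝ) ≤ c ^ 2 ∧
      κ * (t - h) ≤ 2 ^ (n + 1) * (2 *
        (2 * ((n : ℝ) + 1) ^ 2 * (c ^ 2 - n) + ((n : ℝ) + 1) * h) * c ^ n) := by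
    intro h hh hh1 hht
    obtain ⟨hb, hd, hv, hv2⟩ := hthin h hh hh1
    exact step hs h1 h3 hn hκ ht hc hh hht hb hd hv hv2 hW
  have hcn : (n : ℝ) ≤ c ^ 2 := by
    have h0 : 0 < min 1 (t / 2) := lt_min one_pos (by linarith)
    exact (hstep (min 1 (t / 2)) h0 (min_le_left _ _)
      (lt_of_le_of_lt (min_le_right _ _) (by linarith))).1
  have hlim : κ * t ≤ 2 ^ (n + 1) * (2 * (2 * ((n : ℝ) + 1) ^ 2 * (c ^ 2 - n)) * c ^ n) := by
    refine le_of_forall_pos_le_add fun ε hε => ?_
    set D : ℝ := κ + 2 ^ (n + 1) * (2 * ((n : ℝ) + 1) * c ^ n) with hD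
    have hD0 : 0 < D := by positivity
    set h : ℝ := min (min 1 (t / 2)) (ε / D) with hhdef
    have hh : 0 < h := lt_min (lt_min one_pos (by linarith)) (div_pos hε hD0)
    have hh1 : h ≤ 1 := (min_le_left _ _).trans (min_le_left _ _)
    have hht : h < t := lt_of_le_of_lt ((min_le_left _ _).trans (min_le_right _ _)) (by linarith)
    have hhD : h * D ≤ ε := by
      have : h ≤ ε / D := min_le_right _ _
      rwa [le_div_iff₀ hD0] at this
    have h5 := (hstep h hh hh1 hht).2
    have h6 : 2 ^ (n + 1) * (2 *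
        (2 * ((n : ℝ) + 1) ^ 2 * (c ^ 2 - n) + ((n : ℝ) + 1) * h) * c ^ n) + κ * h =
        2 ^ (n + 1) * (2 * (2 * ((n : ℝ) + 1) ^ 2 * (c ^ 2 - n)) * c ^ n) + h * D := by
      rw [hD]; ring
    linarith
  have hsq : √(n : ℝ) ^ 2 = n := Real.sq_sqrt hn0
  have hs0 : 0 ≤ √(n : ℝ) := Real.sqrt_nonneg _
  have hcs : √(n : ℝ) ≤ c := by
    rw [Real.sqrt_le_left hc.le]
    exact hcn
  have hm0 : 0 < min t 1 := lt_min ht one_pos
  rcases le_total (√(n : ℝ) + 1) c with hcase | hcase
  · have h7 : min 1 (κ / A) * min t 1 ≤ 1 * 1 :=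
      mul_le_mul (min_le_left _ _) (min_le_right _ _) hm0.le zero_le_one
    linarith
  · have h8 : c ^ 2 - n = (c - √n) * (c + √n) := by linear_combination hsq
    have h9 : c ^ 2 - n ≤ (c - √n) * (2 * √n + 1) := by
      rw [h8]
      exact mul_le_mul_of_nonneg_left (by linarith) (by linarith)
    have h10 : c ^ n ≤ (√(n : ℝ) + 1) ^ n := pow_le_pow_left₀ hc.le hcase n
    have h11 : κ * t ≤ A * (c - √n) := by
      refine hlim.trans ?_
      have h12 : (c ^ 2 - n) * c ^ n ≤ ((c - √n) * (2 * √n + 1)) * (√(n : ℝ) + 1) ^ n := by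
        refine mul_le_mul h9 h10 (by positivity) ?_
        exact mul_nonneg (by linarith) (by positivity)
      calc 2 ^ (n + 1) * (2 * (2 * ((n : ℝ) + 1) ^ 2 * (c ^ 2 - n)) * c ^ n)
          = (2 ^ (n + 1) * (2 * (2 * ((n : ℝ) + 1) ^ 2))) * ((c ^ 2 - n) * c ^ n) := by ring
        _ ≤ (2 ^ (n + 1) * (2 * (2 * ((n : ℝ) + 1) ^ 2))) *
            (((c - √n) * (2 * √n + 1)) * (√(n : ℝ) + 1) ^ n) :=
            mul_le_mul_of_nonneg_left h12 (by positivity)
        _ = A * (c - √n) := by rw [hA]; ring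
    have h13 : κ / A * t ≤ c - √n := by
      rw [div_mul_eq_mul_div, div_le_iff₀ hA0]
      linarith
    have h14 : min 1 (κ / A) * min t 1 ≤ κ / A * t :=
      mul_le_mul (min_le_right _ _) (min_le_left _ _) hm0.le (div_pos hκ hA0).le
    linarith

end Pool.Agent.Potatoes

end
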