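import Pool.Agent.Work.MP_72041b_co.Bd.B01

/-! Bundle of small proof modules (one section per former module). -/

section

/-!
# MP_72041b_co, item E1: the arrangement of the rectangles in the plane
-/

namespace Pool.Agent.Potatoes

open MeasureTheory Set Metric

namespace Arrange2

/-- Stacking of the long items in the order of decreasing length. -/
theorem longStack (h1 : ClaimStack) {L : Type} [Countable L] (d w : L → ℝ) (η ρ T : ℝ)
    (hη : 0 < η) (hρ : 0 < ρ) (hd : ∀ i, η ≤ d i) (hw : ∀ i, 0 < w i)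
    (hs : Summable fun i => d i * w i) (hT : ∑' i, d i * w i ≤ T) :
    ∃ q : L → ℝ, (∀ i, 0 ≤ q i) ∧ (∀ i, q i + ρ * w i ≤ ρ * T / d i) ∧
      ∀ i i', i ≠ i' → q i + ρ * w i ≤ q i' ∨ q i' + ρ * w i' ≤ q i := by
  obtain ⟨e, he⟩ := exists_injective_nat L
  let lo : L → ℝᵒᵈ ×ₗ ℕ := fun i => toLex (OrderDual.toDual (d i), e i)
  have hlo : Function.Injective lo := by
    intro i j hij
    have : (OrderDual.toDual (d i), e i) = (OrderDual.toDual (d j), e j) := toLex.injective hij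
    exact he (Prod.ext_iff.1 this).2
  let _ : LinearOrder L := LinearOrder.lift' lo hlo
  have hmono : ∀ i j : L, i ≤ j → d j ≤ d i := by
    intro i j hij
    have h2 : lo i ≤ lo j := hij
    rw [Prod.Lex.le_iff] at h2
    rcases h2 with h2 | h2
    · exact le_of_lt (OrderDual.toDual_lt_toDual.1 h2)
    · exact le_of_eq (OrderDual.toDual_inj.1 h2.1).symm
  have hdpos : ∀ i, 0 < d i := fun i => hη.trans_le (hd i)
  have hhs : Summable fun i => ρ * w i := by
    refine Summable.of_nonneg_of_le (fun i => (mul_pos hρ (hw i)).le) (fun i => ?_)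
      (hs.mul_left (ρ / η))
    have : ρ / η * (d i * w i) = ρ * w i * (d i / η) := by ring
    rw [this]
    exact le_mul_of_one_le_right (mul_pos hρ (hw i)).le ((one_le_div hη).2 (hd i))
  obtain ⟨q, -, hq0, hq1, -, hq2⟩ := h1 L (fun i => ρ * w i) (fun i => mul_pos hρ (hw i)) hhs
  refine ⟨q, hq0, fun i => ?_, fun i i' hii => ?_⟩
  · rw [hq1 i]
    have hle : ∀ j : L, (if j ≤ i then ρ * w j else 0) ≤ ρ / d i * (d j * w j) := by
      intro j
      split_ifs with hj
      · have : ρ / d i * (d j * w j) = ρ * w j * (d j / d i) := by ring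
        rw [this]
        exact le_mul_of_one_le_right (mul_pos hρ (hw j)).le
          ((one_le_div (hdpos i)).2 (hmono j i hj))
      · have := hdpos i
        have := hdpos j
        have := hw j
        positivity
    have hnn : ∀ j : L, 0 ≤ (if j ≤ i then ρ * w j else 0) := by
      intro j
      split_ifs
      · exact (mul_pos hρ (hw j)).le
      · exact le_rfl
    have hs2 : Summable fun j => ρ / d i * (d j * w j) := hs.mul_left _
    have hs1 : Summable fun j : L => if j ≤ i then ρ * w j else 0 :=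
      Summable.of_nonneg_of_le hnn hle hs2
    refine (hs1.tsum_le_tsum hle hs2).trans ?_
    rw [tsum_mul_left]
    have : ρ * T / d i = ρ / d i * T := by ring
    rw [this]
    exact mul_le_mul_of_nonneg_left hT (div_pos hρ (hdpos i)).le
  · rcases lt_or_gt_of_ne hii with h | h
    · exact Or.inl (hq2 i i' h)
    · exact Or.inr (hq2 i' i h)

theorem sep (η a b x : ℝ) (hη : 0 < η) (hx : 0 < x) (h : a + x ≤ b) :
    2 * η * a + η * x < 2 * η * b := by
  have h1 : 2 * η * (a + x) ≤ 2 * η * b := mul_le_mul_of_nonneg_left h (by positivity)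
  have h2 : 0 < η * x := mul_pos hη hx
  linarith

theorem bound (η a b x : ℝ) (hη : 0 < η) (hx : 0 < x) (h : a + x ≤ b) :
    2 * η * a + η * x ≤ 2 * η * b := (sep η a b x hη hx h).le

end Arrange2

theorem claimArrange2 (h1 : ClaimStack) (h2 : ClaimBins) : ClaimArrange2 := by
  obtain ⟨C, hC, hbins⟩ := h2 2
  obtain ⟨M, hM⟩ := exists_nat_ge (2 * C)
  set η : ℝ := 1 / (100 * ((M : ℝ) + 2)) with hηd
  have hM0 : (0 : ℝ) ≤ M := Nat.cast_nonneg M
  have hη : 0 < η := by positivity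
  have hηM : 2 * η * ((M : ℝ) + 2) = 1 / 50 := by
    rw [hηd]
    field_simp
    norm_num
  have hη1 : η ≤ 1 / 200 := by nlinarith
  refine ⟨η ^ 2 / 64, by positivity, ?_⟩
  intro t c ht htβ hc ι _ d w hdw hs hT
  set ρ : ℝ := min 2 ((c - 1) / (2 * t)) with hρd
  have hρ1 : 1 < ρ := by
    refine lt_min (by norm_num) ?_
    rw [lt_div_iff₀ (by positivity)]
    linarith
  have hρ2 : ρ ≤ 2 := min_le_left _ _
  have hρ3 : ρ * t ≤ (c - 1) / 2 := by
    have : ρ ≤ (c - 1) / (2 * t) := min_le_right _ _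
    rw [le_div_iff₀ (by positivity)] at this
    linarith
  have hρ0 : 0 < ρ := by linarith
  -- the long items
  obtain ⟨q, hq0, hq1, hq2⟩ := Arrange2.longStack h1 (L := {i : ι // η ≤ d i})
    (fun i => d i) (fun i => w i) η ρ (2 * t) hη hρ0 (fun i => i.2) (fun i => (hdw i).1)
    (hs.subtype _) ((hs.tsum_subtype_le _ _ (fun i => by
      have := hdw i
      exact (mul_pos (by linarith) this.1).le)).trans hT)
  -- the short items
  obtain ⟨N, bin, pos, hN, hbin, hpos, hsep⟩ := hbins {i : ι // ¬ η ≤ d i}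
    (fun i => ![d i / η, w i / η]) 1 (by
      intro i l
      have h3 := hdw i
      have h4 := not_le.1 i.2
      fin_cases l
      · show 0 < d i / η ∧ d i / η ≤ 1
        refine ⟨div_pos (by linarith) hη, (div_le_one hη).2 h4.le⟩
      · show 0 < w i / η ∧ w i / η ≤ 1
        refine ⟨div_pos h3.1 hη, (div_le_one hη).2 (by linarith)⟩) (by
      have : (fun i : {i : ι // ¬ η ≤ d i} => ∏ l, (![d i / η, w i / η] : Fin 2 → ℝ) l) =
          fun i : {i : ι // ¬ η ≤ d i} => (1 / η ^ 2) * (d i * w i) := by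
        funext i
        rw [Fin.prod_univ_two]
        show d i / η * (w i / η) = _
        field_simp
      rw [this]
      exact (hs.subtype _).mul_left _) (by
      have : (fun i : {i : ι // ¬ η ≤ d i} => ∏ l, (![d i / η, w i / η] : Fin 2 → ℝ) l) =
          fun i : {i : ι // ¬ η ≤ d i} => (1 / η ^ 2) * (d i * w i) := by
        funext i
        rw [Fin.prod_univ_two]
        show d i / η * (w i / η) = _
        field_simp
      rw [this, tsum_mul_left]
      have h5 : ∑' i : {i : ι // ¬ η ≤ d i}, d i * w i ≤ 2 * t :=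
        (hs.tsum_subtype_le _ {i : ι | ¬ η ≤ d i} (fun i => by
          have := hdw i
          exact (mul_pos (by linarith) this.1).le)).trans hT
      have h6 : (1 / η ^ 2) * (∑' i : {i : ι // ¬ η ≤ d i}, d i * w i) ≤ (1 / η ^ 2) * (2 * t) :=
        mul_le_mul_of_nonneg_left h5 (by positivity)
      refine h6.trans ?_
      rw [one_div, inv_mul_le_iff₀ (by positivity)]
      nlinarith)
  have hNM : (N : ℝ) ≤ M := by linarith
  set t' : ℝ := ρ * t with ht'
  have ht'0 : 0 < t' := mul_pos hρ0 ht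
  have ht'2 : t' ≤ 2 * t := mul_le_mul_of_nonneg_right hρ2 ht.le
  have ht'η : 4 * t' ≤ η := by nlinarith
  have ht'η2 : 2 * t' / η < 1 / 8 := by
    rw [div_lt_iff₀ hη]
    nlinarith
  classical
  refine ⟨fun i => if hi : η ≤ d i then -(d i) / 2 else 2 * η * ((bin ⟨i, hi⟩ : ℝ) + pos ⟨i, hi⟩ 0),
    fun i => if hi : η ≤ d i then -t' + q ⟨i, hi⟩ else 1 / 8 + 2 * η * pos ⟨i, hi⟩ 1, ?_, ?_⟩
  · intro i y₀ hy₀ y₁ hy₁
    have h3 := hdw i
    by_cases hi : η ≤ d i
    · simp only [hi, dite_true] at hy₀ hy₁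
      have hd0 : 0 < d i := hη.trans_le hi
      have h4 := hq1 ⟨i, hi⟩
      have h5 := hq0 ⟨i, hi⟩
      simp only at h4 h5
      have h6 : q ⟨i, hi⟩ + w i ≤ 2 * t' / d i := by
        have h7 : ρ * (2 * t) / d i = 2 * t' / d i := by rw [ht']; ring
        rw [h7] at h4
        have : w i ≤ ρ * w i := le_mul_of_one_le_left h3.1.le hρ1.le
        linarith
      have h8 : |y₀| ≤ d i / 2 := abs_le.2 ⟨by linarith [hy₀.1], by linarith [hy₀.2]⟩
      have h9 : |y₁| ≤ 1 / 2 + t' - d i / 2 := by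
        rw [abs_le]
        constructor
        · linarith [hy₁.1]
        · have h10 : 2 * t' / d i ≤ 1 / 2 + t' - d i / 2 + t' := by
            rw [div_le_iff₀ hd0]
            nlinarith [mul_nonneg (sub_nonneg.2 h3.2.2) (by linarith : (0 : ℝ) ≤ d i / 2 - 2 * t')]
          linarith [hy₁.2]
      linarith
    · simp only [hi, dite_false] at hy₀ hy₁
      have h4 := hpos ⟨i, hi⟩ 0
      have h5 := hpos ⟨i, hi⟩ 1
      have h6 : (![d i / η, w i / η] : Fin 2 → ℝ) 0 = d i / η := rfl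
      have h7 : (![d i / η, w i / η] : Fin 2 → ℝ) 1 = w i / η := rfl
      simp only [h6, h7] at h4 h5
      have hd' : η * (d i / η) = d i := by field_simp
      have hw' : η * (w i / η) = w i := by field_simp
      have hdp : 0 < d i / η := div_pos (by linarith) hη
      have hwp : 0 < w i / η := div_pos h3.1 hη
      have hb : (bin ⟨i, hi⟩ : ℝ) + 1 ≤ M := by
        have : bin ⟨i, hi⟩ + 1 ≤ N := hbin ⟨i, hi⟩
        have : ((bin ⟨i, hi⟩ + 1 : ℕ) : ℝ) ≤ N := by exact_mod_cast this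
        push_cast at this
        linarith
      have hb0 : (0 : ℝ) ≤ bin ⟨i, hi⟩ := Nat.cast_nonneg _
      generalize (bin ⟨i, hi⟩ : ℝ) = b at *
      generalize pos ⟨i, hi⟩ 0 = p0 at *
      generalize pos ⟨i, hi⟩ 1 = p1 at *
      obtain ⟨a1, a2⟩ := hy₀
      obtain ⟨a3, a4⟩ := hy₁
      have h8 : |y₀| ≤ 2 * η * M := by
        rw [abs_le]
        have e1 : 0 ≤ 2 * η * (b + p0) := by
          have := h4.1
          positivity
        have e2 : 2 * η * (b + p0) + d i ≤ 2 * η * M := by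
          have := Arrange2.bound η (b + p0) M (d i / η) hη hdp (by linarith [h4.2])
          rw [hd'] at this
          exact this
        constructor
        · have : 0 ≤ 2 * η * M := by positivity
          linarith
        · linarith
      have h9 : |y₁| ≤ 1 / 8 + 2 * η := by
        rw [abs_le]
        have e1 : 0 ≤ 2 * η * p1 := by
          have := h5.1
          positivity
        have e2 : 2 * η * p1 + w i ≤ 2 * η := by
          have := Arrange2.bound η p1 1 (w i / η) hη hwp h5.2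
          rw [hw'] at this
          linarith
        constructor
        · linarith
        · linarith
      have h10 : 2 * η * M + 2 * η * 2 = 1 / 50 := by rw [← hηM]; ring
      linarith
  · have key : ∀ (i i' : ι), i ≠ i' → ∀ (hi : ¬ η ≤ d i) (hi' : ¬ η ≤ d i'),
        bin ⟨i, hi⟩ ≤ bin ⟨i', hi'⟩ →
        (2 * η * ((bin ⟨i, hi⟩ : ℝ) + pos ⟨i, hi⟩ 0) + d i <
          2 * η * ((bin ⟨i', hi'⟩ : ℝ) + pos ⟨i', hi'⟩ 0) ∨
        2 * η * ((bin ⟨i', hi'⟩ : ℝ) + pos ⟨i', hi'⟩ 0) + d i' <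
          2 * η * ((bin ⟨i, hi⟩ : ℝ) + pos ⟨i, hi⟩ 0)) ∨
        (1 / 8 + 2 * η * pos ⟨i, hi⟩ 1 + w i < 1 / 8 + 2 * η * pos ⟨i', hi'⟩ 1 ∨
          1 / 8 + 2 * η * pos ⟨i', hi'⟩ 1 + w i' < 1 / 8 + 2 * η * pos ⟨i, hi⟩ 1) := by
      intro i i' hne hi hi' hb
      have h3 := hdw i
      have h3' := hdw i'
      have hd' : η * (d i / η) = d i := by field_simp
      have hw' : η * (w i / η) = w i := by field_simp
      have hd'' : η * (d i' / η) = d i' := by field_simp
      have hw'' : η * (w i' / η) = w i' := by field_simp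
      have hdp : 0 < d i / η := div_pos (by linarith) hη
      have hwp : 0 < w i / η := div_pos h3.1 hη
      have hdp' : 0 < d i' / η := div_pos (by linarith) hη
      have hwp' : 0 < w i' / η := div_pos h3'.1 hη
      have e0 : (![d i / η, w i / η] : Fin 2 → ℝ) 0 = d i / η := rfl
      have e1 : (![d i / η, w i / η] : Fin 2 → ℝ) 1 = w i / η := rfl
      have e0' : (![d i' / η, w i' / η] : Fin 2 → ℝ) 0 = d i' / η := rfl
      have e1' : (![d i' / η, w i' / η] : Fin 2 → ℝ) 1 = w i' / η := rfl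
      rcases hb.eq_or_lt with hb | hb
      · obtain ⟨l, hl⟩ := hsep ⟨i, hi⟩ ⟨i', hi'⟩ (by simpa using hne) hb
        rw [hb]
        fin_cases l
        · left
          simp only [Fin.zero_eta, e0, e0'] at hl
          rcases hl with hl | hl
          · left
            have := Arrange2.sep η ((bin ⟨i', hi'⟩ : ℝ) + pos ⟨i, hi⟩ 0)
              ((bin ⟨i', hi'⟩ : ℝ) + pos ⟨i', hi'⟩ 0) (d i / η) hη hdp (by linarith)
            rw [hd'] at this
            exact this
          · right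
            have := Arrange2.sep η ((bin ⟨i', hi'⟩ : ℝ) + pos ⟨i', hi'⟩ 0)
              ((bin ⟨i', hi'⟩ : ℝ) + pos ⟨i, hi⟩ 0) (d i' / η) hη hdp' (by linarith)
            rw [hd''] at this
            exact this
        · right
          simp only [Fin.mk_one, e1, e1'] at hl
          rcases hl with hl | hl
          · left
            have := Arrange2.sep η (pos ⟨i, hi⟩ 1) (pos ⟨i', hi'⟩ 1) (w i / η) hη hwp hl
            rw [hw'] at this
            linarith
          · right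
            have := Arrange2.sep η (pos ⟨i', hi'⟩ 1) (pos ⟨i, hi⟩ 1) (w i' / η) hη hwp' hl
            rw [hw''] at this
            linarith
      · left; left
        have h4 := (hpos ⟨i, hi⟩ 0).2
        have h5 := (hpos ⟨i', hi'⟩ 0).1
        simp only [e0] at h4
        have h6 : (bin ⟨i, hi⟩ : ℝ) + 1 ≤ bin ⟨i', hi'⟩ := by exact_mod_cast hb
        have := Arrange2.sep η ((bin ⟨i, hi⟩ : ℝ) + pos ⟨i, hi⟩ 0)
              ((bin ⟨i', hi'⟩ : ℝ) + pos ⟨i', hi'⟩ 0) (d i / η) hη hdp (by linarith)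
        rw [hd'] at this
        exact this
    have key2 : ∀ (i i' : ι) (hi : η ≤ d i) (hi' : ¬ η ≤ d i'),
        -t' + q ⟨i, hi⟩ + w i < 1 / 8 + 2 * η * pos ⟨i', hi'⟩ 1 := by
      intro i i' hi hi'
      have h3 := hdw i
      have h4 := hq1 ⟨i, hi⟩
      simp only at h4
      have h5 := (hpos ⟨i', hi'⟩ 1).1
      have hd0 : 0 < d i := hη.trans_le hi
      have h7 : ρ * (2 * t) / d i ≤ 2 * t' / η := by
        have : ρ * (2 * t) = 2 * t' := by rw [ht']; ring
        rw [this]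
        exact div_le_div_of_nonneg_left (by positivity) hη hi
      have h8 : w i ≤ ρ * w i := le_mul_of_one_le_left h3.1.le hρ1.le
      have h9 : 0 ≤ 2 * η * pos ⟨i', hi'⟩ 1 := by positivity
      linarith
    intro i i' hne
    by_cases hi : η ≤ d i
    · by_cases hi' : η ≤ d i'
      · right
        simp only [hi, hi', dite_true]
        have h4 := hq2 ⟨i, hi⟩ ⟨i', hi'⟩ (by simpa using hne)
        simp only at h4
        have h8 : w i < ρ * w i := (lt_mul_iff_one_lt_left (hdw i).1).2 hρ1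
        have h8' : w i' < ρ * w i' := (lt_mul_iff_one_lt_left (hdw i').1).2 hρ1
        rcases h4 with h4 | h4
        · left; linarith
        · right; linarith
      · right; left
        simp only [hi, hi', dite_true, dite_false]
        exact key2 i i' hi hi'
    · by_cases hi' : η ≤ d i'
      · right; right
        simp only [hi, hi', dite_true, dite_false]
        exact key2 i' i hi' hi
      · simp only [hi, hi', dite_false]
        rcases le_total (bin ⟨i, hi⟩) (bin ⟨i', hi'⟩) with hb | hb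
        · exact key i i' hne hi hi' hb
        · rcases key i' i hne.symm hi' hi hb with h | h
          · exact Or.inl h.symm
          · exact Or.inr h.symm

end Pool.Agent.Potatoes

end

section

/-!
# Item A4: a plane convex body in a rectangle of at most twice its area
-/

set_option autoImplicit false

namespace Pool.Agent.Potatoes

open MeasureTheory Set Metric
open scoped RealInnerProductSpace

namespace Box2

/-- The standard triangle. -/
def tri : Set (E 2) := {x | 0 ≤ x 0 ∧ 0 ≤ x 1 ∧ x 0 + x 1 ≤ 1}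

theorem tri_closed : IsClosed tri := by
  have h0 : Continuous fun x : E 2 => x 0 := by fun_prop
  have h1 : Continuous fun x : E 2 => x 1 := by fun_prop
  exact (isClosed_le continuous_const h0).inter
    ((isClosed_le continuous_const h1).inter (isClosed_le (h0.add h1) continuous_const))

theorem vol_tri : ENNReal.ofReal (1 / 2) ≤ volume tri := by
  set c : E 2 := !₂[1, 1] with hc
  have hm : volume {x : E 2 | c - x ∈ tri} = volume tri := by
    have := (Measure.measurePreserving_sub_left (volume : Measure (E 2)) c).measure_preimage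
      tri_closed.measurableSet.nullMeasurableSet
    exact this
  have hQ : volume {x : E 2 | ∀ i, x i ∈ Icc (0 : ℝ) 1} = 1 := by
    have h1 := (PiLp.volume_preserving_ofLp (Fin 2)).measure_preimage
      (s := Icc (fun _ : Fin 2 => (0 : ℝ)) (fun _ => 1))
      measurableSet_Icc.nullMeasurableSet
    rw [Real.volume_Icc_pi] at h1
    simp only [sub_zero, ENNReal.ofReal_one, Finset.prod_const_one] at h1
    rw [← h1]
    congr 1
    ext x
    simp only [mem_ofPred_eq, mem_Icc, mem_preimage, Pi.le_def]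
    exact forall_and
  have hsub : {x : E 2 | ∀ i, x i ∈ Icc (0 : ℝ) 1} ⊆ tri ∪ {x : E 2 | c - x ∈ tri} := by
    intro x hx
    have h0 := hx 0
    have h1 := hx 1
    by_cases h : x 0 + x 1 ≤ 1
    · exact Or.inl ⟨h0.1, h1.1, h⟩
    · right
      push Not at h
      refine ⟨?_, ?_, ?_⟩
      · simp [hc]; exact h0.2
      · simp [hc]; exact h1.2
      · simp [hc]; linarith
  have h2 := (measure_mono hsub).trans (measure_union_le (μ := volume) _ _)
  rw [hQ, hm, ← two_mul] at h2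
  have h3 : ENNReal.ofReal (1 / 2) * 2 ≤ volume tri * 2 := by
    rw [mul_comm (volume tri)]
    refine le_trans ?_ h2
    rw [show (2 : ENNReal) = ENNReal.ofReal 2 by simp, ← ENNReal.ofReal_mul (by norm_num)]
    norm_num
  exact (ENNReal.mul_le_mul_iff_left (by norm_num) (by norm_num)).1 h3

/-- The linear map sending the standard basis to `P`, `R`. -/
noncomputable def lin (P R : E 2) : E 2 →ₗ[ℝ] E 2 where
  toFun x := x 0 • P + x 1 • R
  map_add' x y := by simp [add_smul]; abel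
  map_smul' c x := by simp [mul_smul]

theorem lin_apply (P R x : E 2) : lin P R x = x 0 • P + x 1 • R := rfl

theorem lin_det (P R : E 2) : LinearMap.det (lin P R) = P 0 * R 1 - R 0 * P 1 := by
  rw [← LinearMap.det_toMatrix (EuclideanSpace.basisFun (Fin 2) ℝ).toBasis, Matrix.det_fin_two]
  simp [LinearMap.toMatrix_apply, lin_apply]

theorem lin_tri_subset {K : Set (E 2)} (hK : Convex ℝ K) {P R : E 2} (h0 : (0 : E 2) ∈ K)
    (hP : P ∈ K) (hR : R ∈ K) : lin P R '' tri ⊆ K := by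
  rintro _ ⟨x, ⟨hx0, hx1, hx⟩, rfl⟩
  have h := hK.sum_mem (t := Finset.univ) (w := ![1 - x 0 - x 1, x 0, x 1]) (z := ![0, P, R])
    (by
      intro i _
      fin_cases i
      · change 0 ≤ 1 - x 0 - x 1
        linarith
      · exact hx0
      · exact hx1)
    (by simp [Fin.sum_univ_three]; ring)
    (by
      intro i _
      fin_cases i
      · exact h0
      · exact hP
      · exact hR)
  simpa [Fin.sum_univ_three, lin_apply] using h

theorem vol_image (P R : E 2) :
    ENNReal.ofReal (|P 0 * R 1 - R 0 * P 1| / 2) ≤ volume (lin P R '' tri) := by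
  rw [Measure.addHaar_image_linearMap, lin_det]
  refine le_trans (le_of_eq ?_) (mul_le_mul_right vol_tri _)
  rw [← ENNReal.ofReal_mul (abs_nonneg _)]
  congr 1
  ring

theorem null_axis : volume {x : E 2 | x 1 = 0} = 0 := by
  let S : Submodule ℝ (E 2) :=
    { carrier := {x | x 1 = 0}
      add_mem' := by
        intro a b ha hb
        simp only [mem_ofPred_eq] at ha hb ⊢
        simp [ha, hb]
      zero_mem' := by simp
      smul_mem' := by
        intro c x hx
        simp only [mem_ofPred_eq] at hx ⊢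
        simp [hx] }
  have hS : S ≠ ⊤ := by
    intro h
    have : (EuclideanSpace.single 1 1 : E 2) ∈ S := by rw [h]; trivial
    have h2 : (EuclideanSpace.single (1 : Fin 2) (1 : ℝ) : E 2) 1 = 0 := this
    simp at h2
  exact Measure.addHaar_submodule volume S hS

theorem area {K : Set (E 2)} (hK : Convex ℝ K) (h0 : (0 : E 2) ∈ K) {P R R' : E 2}
    (hP : P ∈ K) (hR : R ∈ K) (hR' : R' ∈ K) (hP0 : 0 ≤ P 0) (hP1 : P 1 = 0) (hR1 : 0 ≤ R 1)
    (hR1' : R' 1 ≤ 0) : ENNReal.ofReal (P 0 * (R 1 - R' 1) / 2) ≤ volume K := by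
  have hS : MeasurableSet {x : E 2 | 0 ≤ x 1} :=
    (isClosed_le continuous_const (by fun_prop : Continuous fun x : E 2 => x 1)).measurableSet
  have h1 : lin P R '' tri ⊆ K ∩ {x : E 2 | 0 ≤ x 1} := by
    refine subset_inter (lin_tri_subset hK h0 hP hR) ?_
    rintro _ ⟨x, ⟨hx0, hx1, hx⟩, rfl⟩
    simp only [mem_ofPred_eq, lin_apply, PiLp.add_apply, PiLp.smul_apply, smul_eq_mul, hP1]
    nlinarith [mul_nonneg hx1 hR1]
  have h2 : lin P R' '' tri \ {x : E 2 | x 1 = 0} ⊆ K \ {x : E 2 | 0 ≤ x 1} := by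
    rintro _ ⟨⟨x, ⟨hx0, hx1, hx⟩, rfl⟩, hne⟩
    refine ⟨lin_tri_subset hK h0 hP hR' ⟨x, ⟨hx0, hx1, hx⟩, rfl⟩, ?_⟩
    simp only [mem_ofPred_eq, lin_apply, PiLp.add_apply, PiLp.smul_apply, smul_eq_mul, hP1]
      at hne ⊢
    intro hle
    apply hne
    nlinarith [mul_nonneg hx1 (neg_nonneg.2 hR1')]
  have h3 := (vol_image P R).trans (measure_mono h1)
  have h4 : ENNReal.ofReal (|P 0 * R' 1 - R' 0 * P 1| / 2) ≤ volume (K \ {x : E 2 | 0 ≤ x 1}) := by
    refine (vol_image P R').trans ?_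
    rw [← measure_sdiff_null null_axis]
    exact measure_mono h2
  rw [← measure_inter_add_sdiff K hS]
  refine le_trans ?_ (add_le_add h3 h4)
  rw [← ENNReal.ofReal_add (by positivity) (by positivity)]
  apply ENNReal.ofReal_le_ofReal
  rw [hP1, mul_zero, mul_zero, sub_zero, sub_zero, abs_of_nonneg (mul_nonneg hP0 hR1),
    abs_of_nonpos (mul_nonpos_of_nonneg_of_nonpos hP0 hR1')]
  linarith

theorem exists_diam {K : Set (E 2)} (hc : IsCompact K) (hne : K.Nonempty) :
    ∃ P ∈ K, ∃ Q ∈ K, diam K = dist P Q ∧ ∀ x ∈ K, ∀ y ∈ K, dist x y ≤ dist P Q := by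
  obtain ⟨z, hz⟩ := hne
  have hcont : ContinuousOn (fun p : E 2 × E 2 => dist p.1 p.2) (K ×ˢ K) :=
    continuous_dist.continuousOn
  have hne2 : (K ×ˢ K).Nonempty := ⟨(z, z), hz, hz⟩
  obtain ⟨⟨P, Q⟩, hm, hmax⟩ := (hc.prod hc).exists_isMaxOn hne2 hcont
  have hPK : P ∈ K := (mem_prod.1 hm).1
  have hQK : Q ∈ K := (mem_prod.1 hm).2
  have hdist : ∀ x ∈ K, ∀ y ∈ K, dist x y ≤ dist P Q := by
    intro x hx y hy
    have hxy : (x, y) ∈ K ×ˢ K := mem_prod.2 ⟨hx, hy⟩
    exact isMaxOn_iff.1 hmax (x, y) hxy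
  refine ⟨P, hPK, Q, hQK, ?_, hdist⟩
  apply le_antisymm
  · exact diam_le_of_forall_dist_le dist_nonneg hdist
  · exact dist_le_diam_of_mem hc.isBounded hPK hQK

theorem exists_basis (e : E 2) (he : ‖e‖ = 1) :
    ∃ u : OrthonormalBasis (Fin 2) ℝ (E 2), u 0 = e := by
  have hv : Orthonormal ℝ (({0} : Set (Fin 2)).domRestrict fun _ => e) := by
    constructor
    · intro i
      exact he
    · intro i j hij
      exact absurd (Subsingleton.elim i j) hij
  obtain ⟨b, hb⟩ := hv.exists_orthonormalBasis_extension_of_card_eq (by simp)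
  exact ⟨b, hb 0 rfl⟩

theorem exists_ball {K : Set (E 2)} (hK : IsBody K) :
    ∃ z ∈ K, ∃ ε : ℝ, 0 < ε ∧ ∀ e : E 2, ‖e‖ = 1 → z + (ε / 2) • e ∈ K := by
  obtain ⟨z, hz⟩ := hK.inner
  obtain ⟨ε, hε, hball⟩ := Metric.isOpen_iff.1 isOpen_interior z hz
  refine ⟨z, interior_subset hz, ε, hε, ?_⟩
  intro e he
  apply interior_subset
  apply hball
  rw [mem_ball, dist_eq_norm, add_sub_cancel_left, norm_smul, he, mul_one, Real.norm_eq_abs,
    abs_of_pos (by linarith)]
  linarith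

/-- The area bound. -/
theorem area_bound {K : Set (E 2)} (hK : IsBody K) (u : OrthonormalBasis (Fin 2) ℝ (E 2))
    {d : ℝ} (hd : 0 < d) {P Q R R' : E 2} (hPK : P ∈ K) (hQK : Q ∈ K) (hRK : R ∈ K)
    (hRK' : R' ∈ K) (hQP : Q - P = d • u 0) (hR : ⟪u 1, P⟫ ≤ ⟪u 1, R⟫)
    (hR' : ⟪u 1, R'⟫ ≤ ⟪u 1, P⟫) :
    d * (⟪u 1, R⟫ - ⟪u 1, R'⟫) ≤ 2 * volume.real K := by
  set K' : Set (E 2) := {y | P + u.repr.symm y ∈ K} with hK'
  have hvol : volume K' = volume K :=
    ((measurePreserving_add_left (volume : Measure (E 2)) P).comp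
      u.repr.symm.measurePreserving).measure_preimage
      hK.compact.measurableSet.nullMeasurableSet
  have hconv : Convex ℝ K' := by
    intro x hx y hy a b ha hb hab
    have h := hK.convex hx hy ha hb hab
    have h2 : P + u.repr.symm (a • x + b • y) =
        a • (P + u.repr.symm x) + b • (P + u.repr.symm y) := by
      rw [map_add, map_smul, map_smul, smul_add, smul_add]
      have : a • P + b • P = P := by rw [← add_smul, hab, one_smul]
      nth_rewrite 1 [← this]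
      abel
    change P + u.repr.symm (a • x + b • y) ∈ K
    rw [h2]
    exact h
  have hmem : ∀ x ∈ K, u.repr (x - P) ∈ K' := by
    intro x hx
    change P + u.repr.symm (u.repr (x - P)) ∈ K
    rw [LinearIsometryEquiv.symm_apply_apply, add_sub_cancel]
    exact hx
  have h0 : (0 : E 2) ∈ K' := by
    have := hmem P hPK
    rwa [sub_self, map_zero] at this
  have hc : ∀ x : E 2, ∀ i, u.repr (x - P) i = ⟪u i, x⟫ - ⟪u i, P⟫ := by
    intro x i
    rw [u.repr_apply_apply, inner_sub_right]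
  have hQ0 : u.repr (Q - P) 0 = d := by
    rw [u.repr_apply_apply, hQP, inner_smul_right, real_inner_self_eq_norm_sq,
      u.orthonormal.1 0]
    ring
  have hQ1 : u.repr (Q - P) 1 = 0 := by
    rw [u.repr_apply_apply, hQP, inner_smul_right, u.orthonormal.2 (by decide), mul_zero]
  have h := area hconv h0 (hmem Q hQK) (hmem R hRK) (hmem R' hRK')
    (by rw [hQ0]; exact hd.le) hQ1 (by rw [hc]; linarith)
    (by rw [hc]; linarith)
  rw [hQ0, hc, hc, hvol] at h
  have h2 := ENNReal.toReal_mono hK.compact.measure_lt_top.ne h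
  rw [ENNReal.toReal_ofReal] at h2
  · rw [Measure.real]
    linarith
  · have : 0 ≤ ⟪u 1, R⟫ - ⟪u 1, P⟫ - (⟪u 1, R'⟫ - ⟪u 1, P⟫) := by linarith
    positivity

theorem inBox {K : Set (E 2)} (u : OrthonormalBasis (Fin 2) ℝ (E 2)) {d : ℝ} {P Q R R' : E 2}
    (hQP : Q - P = d • u 0) (hP : ∀ x ∈ K, dist x P ≤ d) (hQ : ∀ x ∈ K, dist Q x ≤ d)
    (hR : ∀ x ∈ K, ⟪u 1, x⟫ ≤ ⟪u 1, R⟫) (hR' : ∀ x ∈ K, ⟪u 1, R'⟫ ≤ ⟪u 1, x⟫) :
    InBox K u ![⟪u 0, P⟫, ⟪u 1, R'⟫] ![d, ⟪u 1, R⟫ - ⟪u 1, R'⟫] := by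
  have hu0 : ‖u 0‖ = 1 := u.orthonormal.1 0
  have hiQ : ⟪u 0, Q⟫ - ⟪u 0, P⟫ = d := by
    rw [← inner_sub_right, hQP, inner_smul_right, real_inner_self_eq_norm_sq, hu0]
    ring
  intro x hx i
  fin_cases i
  · change ⟪u 0, P⟫ ≤ ⟪u 0, x⟫ ∧ ⟪u 0, x⟫ ≤ ⟪u 0, P⟫ + d
    constructor
    · have h1 : ⟪u 0, Q - x⟫ ≤ d := by
        refine (real_inner_le_norm _ _).trans ?_
        rw [hu0, one_mul, ← dist_eq_norm]
        exact hQ x hx
      rw [inner_sub_right] at h1
      linarith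
    · have h1 : ⟪u 0, x - P⟫ ≤ d := by
        refine (real_inner_le_norm _ _).trans ?_
        rw [hu0, one_mul, ← dist_eq_norm]
        exact hP x hx
      rw [inner_sub_right] at h1
      linarith
  · change ⟪u 1, R'⟫ ≤ ⟪u 1, x⟫ ∧ ⟪u 1, x⟫ ≤ ⟪u 1, R'⟫ + (⟪u 1, R⟫ - ⟪u 1, R'⟫)
    exact ⟨hR' x hx, by linarith [hR x hx]⟩

end Box2

theorem claimBox2 : ClaimBox2 := by
  intro K hK
  obtain ⟨z, hzK, ε, hε, hunit⟩ := Box2.exists_ball hK
  obtain ⟨P, hPK, Q, hQK, hdiam, hdist⟩ := Box2.exists_diam hK.compact ⟨z, hzK⟩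
  have hdpos : 0 < dist P Q := by
    have h1 := hdist _ (hunit (EuclideanSpace.single 0 1) (by simp)) z hzK
    rw [dist_eq_norm, add_sub_cancel_left, norm_smul, Real.norm_eq_abs,
      abs_of_pos (by linarith), PiLp.norm_single, norm_one, mul_one] at h1
    linarith
  obtain ⟨u, hu⟩ := Box2.exists_basis ((dist P Q)⁻¹ • (Q - P)) (by
    rw [norm_smul, norm_inv, Real.norm_eq_abs, abs_of_pos hdpos, ← dist_eq_norm, dist_comm Q P]
    exact inv_mul_cancel₀ hdpos.ne')
  have hQP : Q - P = dist P Q • u 0 := by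
    rw [hu, smul_smul, mul_inv_cancel₀ hdpos.ne', one_smul]
  have hu1 : ‖u 1‖ = 1 := u.orthonormal.1 1
  have hfc : Continuous fun x : E 2 => ⟪u 1, x⟫ := by fun_prop
  obtain ⟨R, hRK, hR⟩ := hK.compact.exists_isMaxOn ⟨z, hzK⟩ hfc.continuousOn
  obtain ⟨R', hRK', hR'⟩ := hK.compact.exists_isMinOn ⟨z, hzK⟩ hfc.continuousOn
  have hRm : ∀ x ∈ K, ⟪u 1, x⟫ ≤ ⟪u 1, R⟫ := fun x hx => hR hx
  have hRm' : ∀ x ∈ K, ⟪u 1, R'⟫ ≤ ⟪u 1, x⟫ := fun x hx => hR' hx
  refine ⟨u, ![⟪u 0, P⟫, ⟪u 1, R'⟫], ![dist P Q, ⟪u 1, R⟫ - ⟪u 1, R'⟫], ?_, ?_, ?_, ?_, ?_⟩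
  · exact hdiam.symm
  · change 0 < ⟪u 1, R⟫ - ⟪u 1, R'⟫
    have h1 := hRm _ (hunit (u 1) hu1)
    have h2 := hRm' z hzK
    rw [inner_add_right, inner_smul_right, real_inner_self_eq_norm_sq, hu1] at h1
    linarith
  · change ⟪u 1, R⟫ - ⟪u 1, R'⟫ ≤ dist P Q
    rw [← inner_sub_right]
    refine (real_inner_le_norm _ _).trans ?_
    rw [hu1, one_mul, ← dist_eq_norm]
    exact hdist R hRK R' hRK'
  · exact Box2.inBox u hQP (fun x hx => hdist x hx P hPK) (fun x hx => hdist Q hQK x hx)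
      hRm hRm'
  · exact Box2.area_bound hK u hdpos hPK hQK hRK hRK' hQP (hRm P hPK) (hRm' P hPK)

end Pool.Agent.Potatoes

end

section

/-!
# [G3] the lower bound in the plane
-/

namespace Pool.Agent.Potatoes

open MeasureTheory Set Metric
open scoped RealInnerProductSpace

namespace Low2

/-- The point with coordinates `α`, `β`. -/
noncomputable def pt (α β : ℝ) : E 2 := !₂[α, β]

/-- Rotated coordinates. -/
noncomputable def y0 (x : E 2) : ℝ := (x 0 - x 1) / √2

/-- Rotated coordinates. -/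
noncomputable def y1 (x : E 2) : ℝ := (x 0 + x 1) / √2

lemma s2 : √(2 : ℝ) * √2 = 2 := Real.mul_self_sqrt (by norm_num)

lemma s2pos : (0 : ℝ) < √2 := Real.sqrt_pos.2 (by norm_num)

lemma y_inj {x y : E 2} (h0 : y0 x = y0 y) (h1 : y1 x = y1 y) : x = y := by
  unfold y0 at h0
  unfold y1 at h1
  rw [div_left_inj' s2pos.ne'] at h0 h1
  ext i
  fin_cases i
  · change x 0 = y 0
    linarith
  · change x 1 = y 1
    linarith

lemma thin_mem {w α β : ℝ} : pt α β ∈ thin 1 w ↔ |α| + |β| / w ≤ 1 / 2 := by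
  unfold thin pt
  simp only [Set.mem_ofPred_eq, Fin.sum_univ_one]
  have e0 : (![α, β] : Fin 2 → ℝ) (Fin.castSucc 0) = α := rfl
  have e1 : (![α, β] : Fin 2 → ℝ) (Fin.last 1) = β := rfl
  rw [e0, e1, Real.sqrt_sq_eq_abs]

lemma cube_mem {c : ℝ} {x : E 2} (hx : x ∈ stdCube 2 (c / √((2 : ℕ) : ℝ))) :
    |y0 x| + |y1 x| ≤ c / 2 := by
  have h0 := hx 0
  have h1 := hx 1
  have hs := s2
  have hp := s2pos
  rw [Nat.cast_ofNat] at h0 h1
  unfold y0 y1
  have hc : c / √2 / 2 = c * √2 / 4 := by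
    rw [div_div, div_eq_div_iff (by positivity) (by norm_num)]
    linear_combination (-(2 * c)) * hs
  rw [hc, abs_le] at h0 h1
  rw [abs_div, abs_div, abs_of_pos hp, ← add_div, div_le_iff₀ hp]
  rcases abs_cases (x 0 - x 1) with ⟨e, _⟩ | ⟨e, _⟩ <;>
  rcases abs_cases (x 0 + x 1) with ⟨e', _⟩ | ⟨e', _⟩ <;>
  rw [e, e'] <;> linarith [h0.1, h0.2, h1.1, h1.2]

/-- Isometries of the plane in the rotated coordinates. -/
lemma iso (g : E 2 ≃ᵢ E 2) : ∃ z0 z1 V0 V1 σ : ℝ, V0 ^ 2 + V1 ^ 2 = 1 ∧ σ ^ 2 = 1 ∧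
    ∀ α β : ℝ, y0 (g (pt α β)) = z0 + α * V0 - σ * β * V1 ∧
      y1 (g (pt α β)) = z1 + α * V1 + σ * β * V0 := by
  set L := g.toRealLinearIsometryEquiv with hL
  have hg : ∀ x, g x = L x + g 0 := by
    intro x
    rw [hL, IsometryEquiv.toRealLinearIsometryEquiv_apply]
    abel
  set a := L (pt 1 0) with ha
  set b := L (pt 0 1) with hb
  have hpt : ∀ α β : ℝ, L (pt α β) = α • a + β • b := by
    intro α β
    rw [ha, hb, ← map_smul, ← map_smul, ← map_add]
    congr 1
    ext i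
    fin_cases i <;> simp [pt]
  have haa : a 0 ^ 2 + a 1 ^ 2 = 1 := by
    have h : ⟪a, a⟫ = ⟪pt 1 0, pt 1 0⟫ := by rw [ha, LinearIsometryEquiv.inner_map_map]
    simp only [PiLp.inner_apply, Fin.sum_univ_two, pt] at h
    simp at h
    nlinarith [h]
  have hbb : b 0 ^ 2 + b 1 ^ 2 = 1 := by
    have h : ⟪b, b⟫ = ⟪pt 0 1, pt 0 1⟫ := by rw [hb, LinearIsometryEquiv.inner_map_map]
    simp only [PiLp.inner_apply, Fin.sum_univ_two, pt] at h
    simp at h
    nlinarith [h]
  have hab : a 0 * b 0 + a 1 * b 1 = 0 := by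
    have h : ⟪a, b⟫ = ⟪pt 1 0, pt 0 1⟫ := by rw [ha, hb, LinearIsometryEquiv.inner_map_map]
    simp only [PiLp.inner_apply, Fin.sum_univ_two, pt] at h
    simp at h
    linarith
  have hs := s2
  have hp := s2pos
  have hq : ∀ u v : ℝ, (u / √2) * (v / √2) = u * v / 2 := by
    intro u v
    rw [div_mul_div_comm, s2]
  refine ⟨y0 (g 0), y1 (g 0), y0 a, y1 a, y0 a * y1 b - y1 a * y0 b, ?_, ?_, ?_⟩
  · unfold y0 y1
    rw [sq, sq, hq, hq]
    linarith
  · have e1 : y0 a * y1 b - y1 a * y0 b = a 0 * b 1 - a 1 * b 0 := by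
      unfold y0 y1
      rw [hq, hq]
      ring
    rw [e1]
    have : (a 0 * b 1 - a 1 * b 0) ^ 2 = (a 0 ^ 2 + a 1 ^ 2) * (b 0 ^ 2 + b 1 ^ 2) -
      (a 0 * b 0 + a 1 * b 1) ^ 2 := by ring
    rw [this, haa, hbb, hab]
    norm_num
  · intro α β
    have hVV : y0 a ^ 2 + y1 a ^ 2 = 1 := by
      unfold y0 y1
      rw [sq, sq, hq, hq]
      linarith
    have hVW : y0 a * y0 b + y1 a * y1 b = 0 := by
      unfold y0 y1
      rw [hq, hq]
      linarith
    have k0 : y0 (g (pt α β)) = y0 (g 0) + α * y0 a + β * y0 b := by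
      rw [hg, hpt]
      unfold y0
      simp only [PiLp.add_apply, PiLp.smul_apply, smul_eq_mul]
      ring
    have k1 : y1 (g (pt α β)) = y1 (g 0) + α * y1 a + β * y1 b := by
      rw [hg, hpt]
      unfold y1
      simp only [PiLp.add_apply, PiLp.smul_apply, smul_eq_mul]
      ring
    rw [k0, k1]
    constructor
    · linear_combination (-(β * y0 b)) * hVV + β * y0 a * hVW
    · linear_combination (-(β * y1 b)) * hVV + β * y1 a * hVW

/-- Disjoint intervals of the same length. -/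
lemma intervals {N : ℕ} (m : Fin N → ℝ) (l A : ℝ) (hA : 0 ≤ A)
    (hm : ∀ i, -A ≤ m i ∧ m i + l ≤ A)
    (hd : ∀ i j, i ≠ j → Disjoint (Icc (m i) (m i + l)) (Icc (m j) (m j + l))) :
    (N : ℝ) * l ≤ 2 * A := by
  have h1 : volume (⋃ i, Icc (m i) (m i + l)) = ∑ i : Fin N, volume (Icc (m i) (m i + l)) := by
    rw [measure_iUnion (fun i j hij => hd i j hij) fun i => measurableSet_Icc, tsum_fintype]
  have h2 : volume (⋃ i, Icc (m i) (m i + l)) ≤ volume (Icc (-A) A) :=
    measure_mono (iUnion_subset fun i => Icc_subset_Icc (hm i).1 (hm i).2)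
  rw [h1] at h2
  simp only [Real.volume_Icc, add_sub_cancel_left, Finset.sum_const, Finset.card_univ,
    Fintype.card_fin, nsmul_eq_mul] at h2
  rw [← ENNReal.ofReal_natCast, ← ENNReal.ofReal_mul (by positivity),
    ENNReal.ofReal_le_ofReal_iff (by linarith)] at h2
  linarith

/-- The estimate for disjoint rhombi with axes nearly parallel to the `y₀`-axis. -/
lemma core (h3 : ClaimSection) {ε w : ℝ} (hε : 0 < ε) (hε1 : ε ≤ 1 / 50) (hw : 0 < w)
    (hw1 : w ≤ 1) {N : ℕ} (z0 z1 V0 V1 : Fin N → ℝ)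
    (hR : ∀ i, RhIn (1 + ε) w (z0 i) (z1 i) (V0 i) (V1 i)) (hV : ∀ i, |V1 i| ≤ |V0 i|)
    (hd : ∀ i j, i ≠ j → ∀ α β α' β' : ℝ, |α| + |β| / w ≤ 1 / 2 → |α'| + |β'| / w ≤ 1 / 2 →
      z0 i + α * V0 i - β * V1 i = z0 j + α' * V0 j - β' * V1 j →
      z1 i + α * V1 i + β * V0 i = z1 j + α' * V1 j + β' * V0 j → False) :
    (N : ℝ) * (w * (1 - 4 * ε)) ≤ 2 * (ε / 2 + 4 * ε ^ 2 + w / 2) := by
  choose m hm1 hm2 hm3 using fun i => h3 ε w (z0 i) (z1 i) (V0 i) (V1 i) hε hε1 hw hw1 (hR i)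
    (hV i)
  refine intervals m _ _ (by positivity) (fun i => ⟨hm2 i, hm3 i⟩) ?_
  intro i j hij
  rw [Set.disjoint_left]
  intro y hyi hyj
  obtain ⟨α, β, e1, e2, e3⟩ := hm1 i y hyi
  obtain ⟨α', β', e1', e2', e3'⟩ := hm1 j y hyj
  exact hd i j hij α β α' β' e1 e1' (by rw [e2, e2']) (by rw [e3, e3'])

/-- The estimate for disjoint rhombi. -/
lemma core' (h3 : ClaimSection) (h4 : ClaimCross) {ε w : ℝ} (hε : 0 < ε) (hε1 : ε ≤ 1 / 50)
    (hw : 0 < w) (hw1 : w ≤ 1) {N : ℕ} (z0 z1 V0 V1 : Fin N → ℝ)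
    (hR : ∀ i, RhIn (1 + ε) w (z0 i) (z1 i) (V0 i) (V1 i))
    (hd : ∀ i j, i ≠ j → ∀ α β α' β' : ℝ, |α| + |β| / w ≤ 1 / 2 → |α'| + |β'| / w ≤ 1 / 2 →
      z0 i + α * V0 i - β * V1 i = z0 j + α' * V0 j - β' * V1 j →
      z1 i + α * V1 i + β * V0 i = z1 j + α' * V1 j + β' * V0 j → False) :
    (N : ℝ) * (w * (1 - 4 * ε)) ≤ 2 * (ε / 2 + 4 * ε ^ 2 + w / 2) := by
  by_cases hV : ∀ i, |V1 i| ≤ |V0 i|
  · exact core h3 hε hε1 hw hw1 z0 z1 V0 V1 hR hV hd
  · push Not at hV
    obtain ⟨i0, hi0⟩ := hV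
    have hV' : ∀ j, |V0 j| ≤ |V1 j| := by
      intro j
      by_contra hj
      push Not at hj
      have hne : j ≠ i0 := by
        rintro rfl
        linarith
      obtain ⟨α, α', a1, a2, a3, a4⟩ := h4 ε w (z0 j) (z1 j) (V0 j) (V1 j) (z0 i0) (z1 i0)
        (V0 i0) (V1 i0) hε hε1 hw hw1 (hR j) (hR i0) hj.le hi0.le
      refine hd j i0 hne α 0 α' 0 ?_ ?_ ?_ ?_
      · simpa using a1
      · simpa using a2
      · simpa using a3
      · simpa using a4
    refine core h3 hε hε1 hw hw1 z1 z0 V1 V0 ?_ hV' ?_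
    · intro i
      obtain ⟨r1, r2⟩ := hR i
      refine ⟨by rw [add_comm]; exact r1, fun α β hab => ?_⟩
      have := r2 α (-β) (by rwa [abs_neg])
      have e1 : z0 i + α * V0 i - -β * V1 i = z0 i + α * V0 i + β * V1 i := by ring
      have e2 : z1 i + α * V1 i + -β * V0 i = z1 i + α * V1 i - β * V0 i := by ring
      rw [e1, e2] at this
      linarith
    · intro i j hij α β α' β' hab hab' e1 e2
      refine hd i j hij α (-β) α' (-β') (by rwa [abs_neg]) (by rwa [abs_neg]) ?_ ?_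
      · linarith
      · linarith

end Low2

open Low2 in
/-- [G3] the lower bound in the plane -/
theorem claimLow2 (hs : ClaimStd) (h0 : ClaimLow) (h1 : ClaimThin) (h2 : ClaimThin2)
    (h3 : ClaimSection) (h4 : ClaimCross) : ClaimLow2 := by
  refine ⟨1 / 100, by norm_num, fun t c ht htb hc hW => ?_⟩
  obtain ⟨c₀, hc₀, hlow⟩ := h0 1 le_rfl
  have hl := hlow t c ht hc hW
  rw [Nat.cast_one, Real.sqrt_one, min_eq_left (by linarith)] at hl
  have hpos := mul_pos hc₀ ht
  set ε := c - 1 with hεdef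
  have hε : 0 < ε := by linarith
  by_cases hbig : 2 * t ≤ ε
  · have := sq_nonneg t
    linarith
  push Not at hbig
  have hε1 : ε ≤ 1 / 50 := by linarith
  have hc1 : c = 1 + ε := by rw [hεdef]; ring
  obtain ⟨κ, -, hthin⟩ := h1 1 le_rfl
  -- the estimate for `N` bodies
  have key : ∀ N : ℕ, 0 < N → 2 * t * (1 - 4 * ε) ≤ ε + 8 * ε ^ 2 + 2 * t / N := by
    intro N hN
    have hNR : (0 : ℝ) < N := by exact_mod_cast hN
    have hN1 : (1 : ℝ) ≤ N := by exact_mod_cast hN
    set w : ℝ := 2 * t / N with hwdef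
    have hw : 0 < w := by positivity
    have hw1 : w ≤ 1 := by
      rw [hwdef, div_le_one hNR]
      linarith
    obtain ⟨hB, hdm, -, -⟩ := hthin w hw hw1
    have hfin : volume (thin 1 w) ≠ ⊤ := hB.compact.measure_lt_top.ne
    have hvol : volume (thin 1 w) ≤ ENNReal.ofReal (w / 2) := by
      rw [← ENNReal.ofReal_toReal hfin]
      exact ENNReal.ofReal_le_ofReal (h2 w hw hw1)
    have hsum : ∑' i : Fin N, volume ((fun _ => thin 1 w) i) ≤ ENNReal.ofReal t := by
      rw [tsum_fintype]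
      simp only [Finset.sum_const, Finset.card_univ, Fintype.card_fin, nsmul_eq_mul]
      calc (N : ENNReal) * volume (thin 1 w) ≤ (N : ENNReal) * ENNReal.ofReal (w / 2) :=
            mul_le_mul' le_rfl hvol
        _ = ENNReal.ofReal (N * (w / 2)) := by
            rw [← ENNReal.ofReal_natCast, ← ENNReal.ofReal_mul (by positivity)]
        _ = ENNReal.ofReal t := by
            congr 1
            rw [hwdef]
            field_simp
    obtain ⟨g, hg1, hg2⟩ := ((hs 2 1 t c (by norm_num) hc).1.1 hW) (Fin N)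
      (fun _ => thin 1 w) (fun _ => hB) (fun _ => hdm) hsum
    choose z0 z1 V0 V1 σ hVV hσ hgy using fun i => iso (g i)
    have hσa : ∀ i, |σ i| = 1 := by
      intro i
      have : |σ i| ^ 2 = 1 := by rw [sq_abs]; exact hσ i
      nlinarith [abs_nonneg (σ i)]
    have hmem : ∀ i (α β : ℝ), |α| + |β| / w ≤ 1 / 2 → pt α (σ i * β) ∈ thin 1 w := by
      intro i α β hab
      rw [thin_mem, abs_mul, hσa, one_mul]
      exact hab
    have hσσ : ∀ i (β : ℝ), σ i * (σ i * β) = β := by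
      intro i β
      have := hσ i
      linear_combination β * this
    have hgy' : ∀ i (α β : ℝ), y0 (g i (pt α (σ i * β))) = z0 i + α * V0 i - β * V1 i ∧
        y1 (g i (pt α (σ i * β))) = z1 i + α * V1 i + β * V0 i := by
      intro i α β
      have := hgy i α (σ i * β)
      rw [hσσ] at this
      exact this
    have hres := core' h3 h4 hε hε1 hw hw1 z0 z1 V0 V1 (fun i => ⟨hVV i, fun α β hab => ?_⟩) ?_
    · have e : (N : ℝ) * (w * (1 - 4 * ε)) = 2 * t * (1 - 4 * ε) := by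
        rw [hwdef]
        field_simp
      rw [e] at hres
      linarith
    · have hin := hg1 i (mem_image_of_mem _ (hmem i α β hab))
      have := cube_mem hin
      rw [(hgy' i α β).1, (hgy' i α β).2, hc1] at this
      exact this
    · intro i j hij α β α' β' hab hab' e1 e2
      have hi := mem_image_of_mem (g i) (hmem i α β hab)
      have hj := mem_image_of_mem (g j) (hmem j α' β' hab')
      have heq : g i (pt α (σ i * β)) = g j (pt α' (σ j * β')) := by
        refine y_inj ?_ ?_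
        · rw [(hgy' i α β).1, (hgy' j α' β').1]
          exact e1
        · rw [(hgy' i α β).2, (hgy' j α' β').2]
          exact e2
      rw [← heq] at hj
      exact Set.disjoint_left.1 (hg2 i j hij) hi hj
  have hlim : 2 * t * (1 - 4 * ε) ≤ ε + 8 * ε ^ 2 := by
    by_contra hne
    push Not at hne
    set δ := 2 * t * (1 - 4 * ε) - (ε + 8 * ε ^ 2) with hδdef
    have hδ : 0 < δ := by linarith
    obtain ⟨N, hN⟩ := exists_nat_gt (2 * t / δ)
    have hNpos : (0 : ℝ) < N := lt_trans (by positivity) hN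
    have hk := key N (by exact_mod_cast hNpos)
    have : 2 * t / N < δ := by
      rw [div_lt_iff₀ hNpos]
      rw [div_lt_iff₀ hδ] at hN
      linarith
    linarith
  nlinarith [mul_pos ht hε, mul_nonneg ht.le (sub_nonneg.2 hbig.le),
    mul_nonneg hε.le (sub_nonneg.2 hbig.le)]

end Pool.Agent.Potatoes

end

section

/-!
# The plane case
-/

namespace Pool.Agent.Potatoes

open MeasureTheory Set Metric

theorem mainB (hc : ClaimScale) (hs : ClaimStd) (h1 : ClaimUp2) (h2 : ClaimLow2) : MainB := by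
  obtain ⟨β1, hβ1, hup⟩ := h1
  obtain ⟨β2, hβ2, hlow⟩ := h2
  refine ⟨min β1 β2, lt_min hβ1 hβ2, ?_⟩
  intro a b ha hb hab
  obtain ⟨t, ht⟩ : ∃ t : ℝ, t = b / a ^ 2 := ⟨_, rfl⟩
  have ht0 : 0 < t := by rw [ht]; positivity
  have htb : t ≤ min β1 β2 := by
    rw [ht, div_le_iff₀ (by positivity)]
    exact hab
  have htb1 : t ≤ β1 := htb.trans (min_le_left _ _)
  have htb2 : t ≤ β2 := htb.trans (min_le_right _ _)
  have hmem : ∀ c, a + 2 * b / a < c → c ∈ {c : ℝ | 0 < c ∧ Works 2 a b c} := by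
    intro c hcc
    have hc0 : 0 < c := by
      have : 0 < a + 2 * b / a := by positivity
      linarith
    refine ⟨hc0, ?_⟩
    have e1 : 1 + 2 * t < c / a := by
      rw [ht, lt_div_iff₀ ha]
      have : (1 + 2 * (b / a ^ 2)) * a = a + 2 * b / a := by
        field_simp
      rw [this]
      exact hcc
    have e2 := hup t (c / a) ht0 htb1 e1
    have e3 := hc 2 1 t (c / a) a (by norm_num) one_pos ht0 (by positivity) ha e2
    have e4 : a * 1 = a := mul_one a
    have e5 : a ^ 2 * t = b := by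
      rw [ht]
      field_simp
    have e6 : a * (c / a) = c := by
      field_simp
    rwa [e4, e5, e6] at e3
  have hbdd : BddBelow {c : ℝ | 0 < c ∧ Works 2 a b c} := ⟨0, fun c hcc => hcc.1.le⟩
  constructor
  · refine le_csInf ⟨a + 2 * b / a + 1, hmem _ (by linarith)⟩ ?_
    rintro c ⟨hc0, hW⟩
    have e3 := hc 2 a b c (1 / a) (by norm_num) ha hb hc0 (by positivity) hW
    have e4 : 1 / a * a = 1 := by
      field_simp
    have e5 : (1 / a) ^ 2 * b = t := by
      rw [ht]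
      field_simp
    have e6 : 1 / a * c = c / a := by
      field_simp
    rw [e4, e5, e6] at e3
    have e7 := hlow t (c / a) ht0 htb2 (by positivity) e3
    rw [le_div_iff₀ ha] at e7
    have e8 : (1 + 2 * t - 48 * t ^ 2) * a = a + 2 * b / a - 48 * b ^ 2 / a ^ 3 := by
      rw [ht]
      field_simp
    rw [e8] at e7
    exact e7
  · refine le_of_forall_gt_imp_ge_of_dense fun c hcc => ?_
    exact csInf_le hbdd (hmem c hcc)

end Pool.Agent.Potatoes

end

section

/-!
# MP_72041b_co, item G1: the section of a thin rhombus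
-/

namespace Pool.Agent.Potatoes

open MeasureTheory Set Metric

namespace SectionAux

theorem basic {ε w z₀ z₁ V₀ V₁ : ℝ} (hε : 0 < ε) (hε' : ε ≤ 1 / 50)
    (h : RhIn (1 + ε) w z₀ z₁ V₀ V₁) (hV : |V₁| ≤ |V₀|) :
    |V₁| ≤ 3 / 2 * ε ∧ 1 - 9 / 4 * ε ^ 2 ≤ |V₀| ∧ |V₀| ≤ 1 ∧
      |z₀| ≤ (ε + 9 / 4 * ε ^ 2) / 2 ∧ |z₁| ≤ (ε + 9 / 4 * ε ^ 2) / 2 := by
  obtain ⟨h1, h2⟩ := h
  have e1 := h2 (1 / 2) 0 (by norm_num)
  have e2 := h2 (-(1 / 2)) 0 (by norm_num)
  have a0 : |V₀| ^ 2 = V₀ ^ 2 := sq_abs V₀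
  have a1 : |V₁| ^ 2 = V₁ ^ 2 := sq_abs V₁
  have n0 : 0 ≤ |V₀| := abs_nonneg _
  have n1 : 0 ≤ |V₁| := abs_nonneg _
  have t1 : |V₀| ≤ |z₀ + 1 / 2 * V₀ - 0 * V₁| + |z₀ + -(1 / 2) * V₀ - 0 * V₁| := by
    have := abs_sub (z₀ + 1 / 2 * V₀ - 0 * V₁) (z₀ + -(1 / 2) * V₀ - 0 * V₁)
    have e : z₀ + 1 / 2 * V₀ - 0 * V₁ - (z₀ + -(1 / 2) * V₀ - 0 * V₁) = V₀ := by ring
    rw [e] at this
    exact this
  have t2 : |V₁| ≤ |z₁ + 1 / 2 * V₁ + 0 * V₀| + |z₁ + -(1 / 2) * V₁ + 0 * V₀| := by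
    have := abs_sub (z₁ + 1 / 2 * V₁ + 0 * V₀) (z₁ + -(1 / 2) * V₁ + 0 * V₀)
    have e : z₁ + 1 / 2 * V₁ + 0 * V₀ - (z₁ + -(1 / 2) * V₁ + 0 * V₀) = V₁ := by ring
    rw [e] at this
    exact this
  have t3 : 2 * |z₁| ≤ |z₁ + 1 / 2 * V₁ + 0 * V₀| + |z₁ + -(1 / 2) * V₁ + 0 * V₀| := by
    have := abs_add_le (z₁ + 1 / 2 * V₁ + 0 * V₀) (z₁ + -(1 / 2) * V₁ + 0 * V₀)
    have e : z₁ + 1 / 2 * V₁ + 0 * V₀ + (z₁ + -(1 / 2) * V₁ + 0 * V₀) = 2 * z₁ := by ring
    rw [e, abs_mul, abs_two] at this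
    exact this
  have t4 : |z₀| + |V₀| / 2 ≤ (1 + ε) / 2 := by
    have f1 : |z₀ + 1 / 2 * V₀ - 0 * V₁| ≤ (1 + ε) / 2 := by
      have := abs_nonneg (z₁ + 1 / 2 * V₁ + 0 * V₀)
      linarith
    have f2 : |z₀ + -(1 / 2) * V₀ - 0 * V₁| ≤ (1 + ε) / 2 := by
      have := abs_nonneg (z₁ + -(1 / 2) * V₁ + 0 * V₀)
      linarith
    rw [abs_le] at f1 f2
    rcases abs_cases z₀ with ⟨c, -⟩ | ⟨c, -⟩ <;> rcases abs_cases V₀ with ⟨d, -⟩ | ⟨d, -⟩ <;>
      rw [c, d] <;> linarith [f1.1, f1.2, f2.1, f2.2]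
  have s1 : |V₀| + |V₁| ≤ 1 + ε := by linarith
  have hprod : 2 * (|V₀| * |V₁|) ≤ 2 * ε + ε ^ 2 := by
    have hsq := pow_le_pow_left₀ (by positivity) s1 2
    have e : (|V₀| + |V₁|) ^ 2 = |V₀| ^ 2 + |V₁| ^ 2 + 2 * (|V₀| * |V₁|) := by ring
    have e' : (1 + ε) ^ 2 = 1 + (2 * ε + ε ^ 2) := by ring
    rw [e, e', a0, a1, h1] at hsq
    linarith
  have hmono : |V₁| ^ 2 ≤ |V₀| ^ 2 := pow_le_pow_left₀ n1 hV 2
  have h07 : 7 / 10 ≤ |V₀| := by
    by_contra hc
    push Not at hc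
    have hsq : |V₀| ^ 2 ≤ (7 / 10) ^ 2 := pow_le_pow_left₀ n0 hc.le 2
    rw [a0] at hsq hmono
    rw [a1] at hmono
    norm_num at hsq
    linarith
  have hε2 : ε ^ 2 ≤ ε * (1 / 50) := by
    rw [pow_two]
    exact mul_le_mul_of_nonneg_left hε' hε.le
  have hb : |V₁| ≤ 3 / 2 * ε := by
    by_contra hc
    push Not at hc
    have : 7 / 10 * (3 / 2 * ε) < |V₀| * |V₁| := by
      calc 7 / 10 * (3 / 2 * ε) ≤ |V₀| * (3 / 2 * ε) :=
            mul_le_mul_of_nonneg_right h07 (by positivity)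
        _ < |V₀| * |V₁| := mul_lt_mul_of_pos_left hc (by linarith)
    linarith
  have hle1 : |V₀| ≤ 1 := by
    have : |V₀| ^ 2 ≤ 1 := by
      rw [a0]
      linarith [sq_nonneg V₁]
    exact (sq_le_one_iff₀ n0).mp this
  have ha : 1 - 9 / 4 * ε ^ 2 ≤ |V₀| := by
    have hb2 : |V₁| ^ 2 ≤ (3 / 2 * ε) ^ 2 := pow_le_pow_left₀ n1 hb 2
    have e : (3 / 2 * ε) ^ 2 = 9 / 4 * ε ^ 2 := by ring
    rw [e] at hb2
    have hV0 : |V₀| ^ 2 ≤ |V₀| := by
      rw [pow_two]
      exact mul_le_of_le_one_left n0 hle1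
    rw [a0] at hV0
    rw [a1] at hb2
    linarith
  refine ⟨hb, ha, hle1, by linarith, by linarith⟩

end SectionAux

theorem claimSection : ClaimSection := by
  intro ε w z₀ z₁ V₀ V₁ hε hε' hw hw1 hR hV
  obtain ⟨hb, ha, hle1, hz0, hz1⟩ := SectionAux.basic hε hε' hR hV
  obtain ⟨h1, -⟩ := hR
  have hε2 : ε ^ 2 ≤ ε * (1 / 50) := by
    rw [pow_two]
    exact mul_le_mul_of_nonneg_left hε' hε.le
  have ha99 : 99 / 100 ≤ |V₀| := by linarith
  have hV0 : V₀ ≠ 0 := by
    intro h0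
    rw [h0, abs_zero] at ha99
    norm_num at ha99
  have hVpos : 0 < |V₀| := by linarith
  have hq : |z₀ * V₁ / V₀| ≤ ε ^ 2 := by
    rw [abs_div, abs_mul, div_le_iff₀ hVpos]
    have : |z₀| * |V₁| ≤ (ε + 9 / 4 * ε ^ 2) / 2 * (3 / 2 * ε) :=
      mul_le_mul hz0 hb (abs_nonneg _) (by positivity)
    have h3 : (ε + 9 / 4 * ε ^ 2) / 2 * (3 / 2 * ε) ≤ 99 / 100 * ε ^ 2 := by
      have : ε ^ 2 * ε ≤ ε ^ 2 * (1 / 50) := mul_le_mul_of_nonneg_left hε' (by positivity)
      linarith [sq_nonneg ε]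
    have h4 : ε ^ 2 * (99 / 100) ≤ ε ^ 2 * |V₀| := mul_le_mul_of_nonneg_left ha99 (sq_nonneg ε)
    linarith
  have hyc : |z₁ - z₀ * V₁ / V₀| ≤ ε / 2 + 4 * ε ^ 2 := by
    have := abs_sub z₁ (z₀ * V₁ / V₀)
    have h5 := sq_nonneg ε
    linarith
  set yc := z₁ - z₀ * V₁ / V₀ with hycdef
  have hyc' := abs_le.mp hyc
  refine ⟨yc - w * (1 - 4 * ε) / 2, fun y hy => ?_, ?_, ?_⟩
  · have hyy : |y - yc| ≤ w * (1 - 4 * ε) / 2 := by
      rw [abs_le]
      constructor <;> linarith [hy.1, hy.2]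
    have hβ : |V₀ * (y - yc)| ≤ w * (1 - 4 * ε) / 2 := by
      rw [abs_mul]
      calc |V₀| * |y - yc| ≤ 1 * |y - yc| := mul_le_mul_of_nonneg_right hle1 (abs_nonneg _)
        _ ≤ _ := by linarith
    refine ⟨(V₀ * (y - yc) * V₁ - z₀) / V₀, V₀ * (y - yc), ?_, ?_, ?_⟩
    · have h6 : |V₀ * (y - yc)| / w ≤ (1 - 4 * ε) / 2 := by
        rw [div_le_iff₀ hw]
        linarith
      have h7 : |(V₀ * (y - yc) * V₁ - z₀) / V₀| ≤ 2 * ε := by
        rw [abs_div, div_le_iff₀ hVpos]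
        have h8 := abs_sub (V₀ * (y - yc) * V₁) z₀
        rw [abs_mul (V₀ * (y - yc)) V₁] at h8
        have h9 : |V₀ * (y - yc)| * |V₁| ≤ 1 / 2 * (3 / 2 * ε) := by
          refine mul_le_mul ?_ hb (abs_nonneg _) (by norm_num)
          have : 0 ≤ w * ε := by positivity
          linarith
        have h11 : ε * (99 / 100) ≤ ε * |V₀| := mul_le_mul_of_nonneg_left ha99 hε.le
        linarith
      linarith
    · field_simp
      ring
    · have h10 : z₁ + (V₀ * (y - yc) * V₁ - z₀) / V₀ * V₁ + V₀ * (y - yc) * V₀ =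
          z₁ - z₀ * V₁ / V₀ + (y - yc) * (V₀ ^ 2 + V₁ ^ 2) := by
        field_simp
        ring
      rw [h10, h1, ← hycdef]
      ring
  · have : 0 ≤ w * ε := by positivity
    linarith [hyc'.1]
  · have : 0 ≤ w * ε := by positivity
    linarith [hyc'.2]

end Pool.Agent.Potatoes

end

section

/-!
# F4: the area of a thin rhombus
-/

set_option autoImplicit false

namespace Pool.Agent.Potatoes

open MeasureTheory Set Metric

namespace Thin2

theorem integral_tent : ∫ u in (-(1 / 2) : ℝ)..(1 / 2), (1 / 2 - |u|) = 1 / 4 := by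
  have hi : ∀ a b : ℝ, IntervalIntegrable (fun u : ℝ => 1 / 2 - |u|) volume a b := fun a b =>
    (by fun_prop : Continuous fun u : ℝ => 1 / 2 - |u|).intervalIntegrable a b
  rw [← intervalIntegral.integral_add_adjacent_intervals (hi (-(1 / 2)) 0) (hi 0 (1 / 2))]
  have h1 : ∫ u in (-(1 / 2) : ℝ)..0, (1 / 2 - |u|) = ∫ u in (-(1 / 2) : ℝ)..0, (1 / 2 + u) := by
    refine intervalIntegral.integral_congr fun u hu => ?_
    rw [uIcc_of_le (by norm_num)] at hu
    simp only [abs_of_nonpos hu.2]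
    ring
  have h2 : ∫ u in (0 : ℝ)..(1 / 2), (1 / 2 - |u|) = ∫ u in (0 : ℝ)..(1 / 2), (1 / 2 - u) := by
    refine intervalIntegral.integral_congr fun u hu => ?_
    rw [uIcc_of_le (by norm_num)] at hu
    simp only [abs_of_nonneg hu.1]
  rw [h1, h2, intervalIntegral.integral_add (by simp) (by simp),
    intervalIntegral.integral_sub (by simp) (by simp)]
  simp only [intervalIntegral.integral_const, integral_id, smul_eq_mul]
  norm_num

theorem lintegral_tent {h : ℝ} (h0 : 0 < h) :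
    ∫⁻ u : ℝ, ENNReal.ofReal (2 * h * (1 / 2 - |u|)) = ENNReal.ofReal (h / 2) := by
  set g : ℝ → ℝ := (Icc (-(1 / 2) : ℝ) (1 / 2)).indicator fun u => 2 * h * (1 / 2 - |u|) with hg
  have h1 : (fun u : ℝ => ENNReal.ofReal (2 * h * (1 / 2 - |u|))) =
      fun u => ENNReal.ofReal (g u) := by
    funext u
    by_cases hu : u ∈ Icc (-(1 / 2) : ℝ) (1 / 2)
    · rw [hg, indicator_of_mem hu]
    · rw [hg, indicator_of_notMem hu, ENNReal.ofReal_zero, ENNReal.ofReal_eq_zero]
      have h2 : 1 / 2 < |u| := by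
        by_contra hcon
        exact hu (abs_le.1 (not_lt.1 hcon))
      have h3 : 1 / 2 - |u| < 0 := by linarith
      nlinarith
  have hint : IntegrableOn (fun u : ℝ => 2 * h * (1 / 2 - |u|)) (Icc (-(1 / 2) : ℝ) (1 / 2)) :=
    (by fun_prop : Continuous fun u : ℝ => 2 * h * (1 / 2 - |u|)).continuousOn.integrableOn_Icc
  have hint' : Integrable g := hint.integrable_indicator measurableSet_Icc
  have hnn : 0 ≤ᵐ[volume] g := by
    refine Filter.Eventually.of_forall fun u => ?_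
    refine indicator_nonneg (fun u hu => ?_) u
    have h3 : |u| ≤ 1 / 2 := abs_le.2 hu
    have h4 : 0 ≤ 1 / 2 - |u| := by linarith
    positivity
  rw [h1, ← ofReal_integral_eq_lintegral_ofReal hint' hnn, hg, integral_indicator measurableSet_Icc,
    integral_Icc_eq_integral_Ioc, ← intervalIntegral.integral_of_le (by norm_num),
    intervalIntegral.integral_const_mul, integral_tent]
  congr 1
  ring

end Thin2

open Thin2

theorem claimThin2 : ClaimThin2 := by
  intro h h0 h1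
  set R : Set (ℝ × ℝ) := {p | |p.1| + |p.2| / h ≤ 1 / 2} with hR
  have hRm : MeasurableSet R := by
    refine (isClosed_le (by fun_prop) continuous_const).measurableSet
  set e : E 2 → ℝ × ℝ := fun x => (x 0, x 1) with he
  have hep : MeasurePreserving e volume volume :=
    (volume_preserving_finTwoArrow ℝ).comp (PiLp.volume_preserving_ofLp (Fin 2))
  have hsub : thin 1 h = e ⁻¹' R := by
    ext x
    simp only [thin, hR, he, mem_preimage, mem_ofPred_eq, Fin.sum_univ_one]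
    rw [Real.sqrt_sq_eq_abs]
    rfl
  have hvol : volume (thin 1 h) = volume R := by
    rw [hsub]
    exact hep.measure_preimage hRm.nullMeasurableSet
  have hle : volume R ≤ ENNReal.ofReal (h / 2) := by
    rw [← lintegral_tent h0, Measure.volume_eq_prod, Measure.prod_apply hRm]
    refine lintegral_mono fun u => ?_
    have h2 : Prod.mk u ⁻¹' R ⊆ Icc (-(h * (1 / 2 - |u|))) (h * (1 / 2 - |u|)) := by
      intro y hy
      have h3 : |u| + |y| / h ≤ 1 / 2 := hy
      have h4 : |y| / h ≤ 1 / 2 - |u| := by linarith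
      rw [div_le_iff₀ h0] at h4
      rw [mem_Icc, ← abs_le]
      linarith
    refine (measure_mono h2).trans ?_
    rw [Real.volume_Icc]
    refine ENNReal.ofReal_le_ofReal ?_
    linarith
  unfold Measure.real
  rw [hvol]
  exact ENNReal.toReal_le_of_le_ofReal (by positivity) hle

end Pool.Agent.Potatoes

end

section

/-!
# MP_72041b_co, item E2: the upper bound in the plane
-/

set_option autoImplicit false

namespace Pool.Agent.Potatoes

open MeasureTheory Set Metric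
open scoped RealInnerProductSpace

namespace Up2

theorem inner2 (x y : E 2) : ⟪x, y⟫ = x 0 * y 0 + x 1 * y 1 := by
  rw [PiLp.inner_apply, Fin.sum_univ_two]
  simp only [RCLike.inner_apply, conj_trivial]
  ring

/-- The two diagonal unit vectors. -/
noncomputable def dv : Fin 2 → E 2 := ![!₂[1 / √2, -(1 / √2)], !₂[1 / √2, 1 / √2]]

theorem half : (√2 : ℝ)⁻¹ * (√2)⁻¹ = 1 / 2 := by
  rw [← mul_inv, Real.mul_self_sqrt (by norm_num)]
  norm_num

theorem dv_on : Orthonormal ℝ dv := by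
  have h := half
  constructor
  · intro i
    have h1 : ⟪dv i, dv i⟫ = (1 : ℝ) := by
      rw [inner2]
      fin_cases i
      · simp only [dv]
        simp
        nlinarith [h]
      · simp only [dv]
        simp
        nlinarith [h]
    rw [real_inner_self_eq_norm_sq] at h1
    have h2 : 0 ≤ ‖dv i‖ := norm_nonneg _
    nlinarith
  · intro i j hij
    have h1 : ⟪dv i, dv j⟫ = (0 : ℝ) := by
      rw [inner2]
      fin_cases i <;> fin_cases j
      · exact absurd rfl hij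
      · simp [dv]
      · simp [dv]
      · exact absurd rfl hij
    exact h1

theorem exists_basis : ∃ v : OrthonormalBasis (Fin 2) ℝ (E 2), ∀ x : E 2,
    ⟪v 0, x⟫ = (x 0 - x 1) / √2 ∧ ⟪v 1, x⟫ = (x 0 + x 1) / √2 := by
  have hspan : ⊤ ≤ Submodule.span ℝ (range dv) := by
    have h1 : LinearIndependent ℝ dv := dv_on.linearIndependent
    have h2 := h1.span_eq_top_of_card_eq_finrank' (by simp)
    exact h2.ge
  refine ⟨OrthonormalBasis.mk dv_on hspan, fun x => ?_⟩
  rw [OrthonormalBasis.coe_mk]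
  constructor
  · rw [inner2]
    simp only [dv]
    simp
    ring
  · rw [inner2]
    simp only [dv]
    simp
    ring

theorem exists_iso (u v : OrthonormalBasis (Fin 2) ℝ (E 2)) (q : Fin 2 → ℝ) :
    ∃ g : E 2 ≃ᵢ E 2, ∀ x l, ⟪v l, g x⟫ = ⟪u l, x⟫ + q l := by
  let L : E 2 ≃ₗᵢ[ℝ] E 2 := u.equiv v (Equiv.refl _)
  let τ : E 2 := ∑ l, q l • v l
  refine ⟨L.toIsometryEquiv.trans (IsometryEquiv.addRight τ), fun x l => ?_⟩
  show ⟪v l, L x + τ⟫ = ⟪u l, x⟫ + q l
  rw [inner_add_right]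
  congr 1
  · have h1 : v l = L (u l) := by
      simp [L]
    rw [h1, LinearIsometryEquiv.inner_map_map]
  · show ⟪v l, ∑ m, q m • v m⟫ = q l
    rw [inner_sum]
    rw [Finset.sum_eq_single l]
    · rw [inner_smul_right, real_inner_self_eq_norm_sq, v.orthonormal.1 l]
      simp
    · intro m _ hm
      rw [inner_smul_right, v.orthonormal.2 (Ne.symm hm), mul_zero]
    · intro h
      exact absurd (Finset.mem_univ l) h

end Up2

open Up2 in
theorem claimUp2 (hs : ClaimStd) (h1 : ClaimBox2) (h2 : ClaimArrange2) : ClaimUp2 := by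
  obtain ⟨β, hβ, h2⟩ := h2
  refine ⟨β, hβ, fun t c ht htβ htc => ?_⟩
  have hc : 0 < c := by linarith
  rw [(hs 2 1 t c (by norm_num) hc).1]
  intro ι _ K hK hd hvol
  choose u p w hw0 hw1 hw10 hbox harea using fun i => h1 (K i) (hK i)
  have hvol_ne : ∑' i, volume (K i) ≠ ⊤ := ne_top_of_le_ne_top ENNReal.ofReal_ne_top hvol
  have hsumvol : Summable fun i => volume.real (K i) := ENNReal.summable_toReal hvol_ne
  have htsvol : ∑' i, volume.real (K i) ≤ t := by
    have h3 : ∑' i, volume.real (K i) = (∑' i, volume (K i)).toReal := by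
      rw [ENNReal.tsum_toReal_eq (fun i => ENNReal.ne_top_of_tsum_ne_top hvol_ne i)]
      rfl
    rw [h3]
    exact ENNReal.toReal_le_of_le_ofReal ht.le hvol
  have hpos : ∀ i, 0 < w i 0 := fun i => lt_of_lt_of_le (hw1 i) (hw10 i)
  have hsum : Summable fun i => w i 0 * w i 1 :=
    Summable.of_nonneg_of_le (fun i => (mul_pos (hpos i) (hw1 i)).le) harea (hsumvol.mul_left 2)
  have hts : ∑' i, w i 0 * w i 1 ≤ 2 * t := by
    calc ∑' i, w i 0 * w i 1 ≤ ∑' i, 2 * volume.real (K i) :=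
          hsum.tsum_le_tsum harea (hsumvol.mul_left 2)
      _ = 2 * ∑' i, volume.real (K i) := tsum_mul_left
      _ ≤ 2 * t := by linarith
  obtain ⟨P₀, P₁, hin, hdisj⟩ := h2 t c ht htβ htc ι (fun i => w i 0) (fun i => w i 1)
    (fun i => ⟨hw1 i, hw10 i, by show w i 0 ≤ 1; rw [hw0 i]; exact hd i⟩) hsum hts
  obtain ⟨v, hv⟩ := exists_basis
  choose g hg using fun i => exists_iso (u i) v
    (fun l => if l = 0 then P₀ i - p i 0 else P₁ i - p i 1)
  have hcoord : ∀ i, ∀ x ∈ K i, ⟪v 0, g i x⟫ ∈ Icc (P₀ i) (P₀ i + w i 0) ∧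
      ⟪v 1, g i x⟫ ∈ Icc (P₁ i) (P₁ i + w i 1) := by
    intro i x hx
    have e0 := hbox i x hx 0
    have e1 := hbox i x hx 1
    rw [hg, hg]
    simp only [if_true, one_ne_zero, if_false]
    exact ⟨⟨by linarith [e0.1], by linarith [e0.2]⟩, ⟨by linarith [e1.1], by linarith [e1.2]⟩⟩
  refine ⟨g, ?_, ?_⟩
  · rintro i _ ⟨x, hx, rfl⟩
    obtain ⟨m0, m1⟩ := hcoord i x hx
    have hle := hin i _ m0 _ m1
    obtain ⟨q0, q1⟩ := hv (g i x)
    have hs2 : (0 : ℝ) < √2 := by positivity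
    have hss2 : (√2 : ℝ) ^ 2 = (2 : ℝ) := Real.sq_sqrt (by norm_num)
    set y0 := ⟪v 0, g i x⟫ with hy0
    set y1 := ⟪v 1, g i x⟫ with hy1
    have x0 : (g i x) 0 = (y0 + y1) / √2 := by
      rw [q0, q1]
      field_simp
      rw [hss2]
      ring
    have x1 : (g i x) 1 = (y1 - y0) / √2 := by
      rw [q0, q1]
      field_simp
      rw [hss2]
      ring
    have a0 := abs_add_le y0 y1
    have a1 : |y1 - y0| ≤ |y0| + |y1| := by
      have := abs_sub y1 y0
      linarith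
    intro l
    fin_cases l
    · show |(g i x) 0| ≤ c / √2 / 2
      rw [x0, abs_div, abs_of_pos hs2, div_div, mul_comm √2 2, ← div_div]
      exact div_le_div_of_nonneg_right (a0.trans hle) hs2.le
    · show |(g i x) 1| ≤ c / √2 / 2
      rw [x1, abs_div, abs_of_pos hs2, div_div, mul_comm √2 2, ← div_div]
      exact div_le_div_of_nonneg_right (a1.trans hle) hs2.le
  · intro i j hij
    rw [Set.disjoint_left]
    rintro _ ⟨x, hx, rfl⟩ ⟨x', hx', hxx⟩
    obtain ⟨m0, m1⟩ := hcoord i x hx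
    obtain ⟨n0, n1⟩ := hcoord j x' hx'
    rw [hxx] at n0 n1
    rcases hdisj i j hij with (h | h) | (h | h)
    · exact absurd (m0.2.trans_lt h) (not_lt.2 n0.1)
    · exact absurd (n0.2.trans_lt h) (not_lt.2 m0.1)
    · exact absurd (m1.2.trans_lt h) (not_lt.2 n1.1)
    · exact absurd (n1.2.trans_lt h) (not_lt.2 m1.1)

end Pool.Agent.Potatoes

end

section

/-!
# MP_72041b_co, item G2: two thin rhombi with axes near different diagonals meet
-/

namespace Pool.Agent.Potatoes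

open MeasureTheory Set Metric

theorem claimCross : ClaimCross := by
  intro ε w z₀ z₁ V₀ V₁ z₀' z₁' V₀' V₁' hε hε' hw hw1 hR hR' hV hV'
  obtain ⟨hb, ha, hle1, hz0, hz1⟩ := SectionAux.basic hε hε' hR hV
  have hswap : RhIn (1 + ε) w z₁' z₀' V₁' V₀' := by
    obtain ⟨h1, h2⟩ := hR'
    refine ⟨by linarith, fun α β hαβ => ?_⟩
    have := h2 α (-β) (by rwa [abs_neg])
    have e1 : z₀' + α * V₀' - -β * V₁' = z₀' + α * V₀' + β * V₁' := by ring
    have e2 : z₁' + α * V₁' + -β * V₀' = z₁' + α * V₁' - β * V₀' := by ring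
    rw [e1, e2] at this
    linarith
  obtain ⟨hb', ha', hle1', hz1', hz0'⟩ := SectionAux.basic hε hε' hswap hV'
  have hε2 : ε ^ 2 ≤ ε * (1 / 50) := by
    rw [pow_two]
    exact mul_le_mul_of_nonneg_left hε' hε.le
  have ha99 : 99 / 100 ≤ |V₀| := by linarith
  have ha99' : 99 / 100 ≤ |V₁'| := by linarith
  have hD : 9 / 10 ≤ |V₀ * V₁' - V₁ * V₀'| := by
    have h1 := abs_sub_abs_le_abs_sub (V₀ * V₁') (V₁ * V₀')
    rw [abs_mul, abs_mul] at h1
    have h2 : 99 / 100 * (99 / 100) ≤ |V₀| * |V₁'| :=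
      mul_le_mul ha99 ha99' (by norm_num) (abs_nonneg _)
    have h3 : |V₁| * |V₀'| ≤ 3 / 2 * ε * (3 / 2 * ε) :=
      mul_le_mul hb hb' (abs_nonneg _) (by positivity)
    linarith
  set D := V₀ * V₁' - V₁ * V₀' with hDdef
  have hD0 : D ≠ 0 := by
    intro h0
    rw [h0, abs_zero] at hD
    norm_num at hD
  have hDpos : 0 < |D| := by linarith
  have hp : |z₀' - z₀| ≤ 1 / 20 := by
    have := abs_sub z₀' z₀
    linarith
  have hq : |z₁' - z₁| ≤ 1 / 20 := by
    have := abs_sub z₁' z₁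
    linarith
  refine ⟨((z₀' - z₀) * V₁' - (z₁' - z₁) * V₀') / D, ((z₀' - z₀) * V₁ - (z₁' - z₁) * V₀) / D,
    ?_, ?_, ?_, ?_⟩
  · rw [abs_div, div_le_iff₀ hDpos]
    have h1 := abs_sub ((z₀' - z₀) * V₁') ((z₁' - z₁) * V₀')
    rw [abs_mul, abs_mul] at h1
    have h2 : |z₀' - z₀| * |V₁'| ≤ 1 / 20 * 1 :=
      mul_le_mul hp hle1' (abs_nonneg _) (by norm_num)
    have h3 : |z₁' - z₁| * |V₀'| ≤ 1 / 20 * 1 :=
      mul_le_mul hq (by linarith) (abs_nonneg _) (by norm_num)
    linarith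
  · rw [abs_div, div_le_iff₀ hDpos]
    have h1 := abs_sub ((z₀' - z₀) * V₁) ((z₁' - z₁) * V₀)
    rw [abs_mul, abs_mul] at h1
    have h2 : |z₀' - z₀| * |V₁| ≤ 1 / 20 * 1 :=
      mul_le_mul hp (by linarith) (abs_nonneg _) (by norm_num)
    have h3 : |z₁' - z₁| * |V₀| ≤ 1 / 20 * 1 :=
      mul_le_mul hq hle1 (abs_nonneg _) (by norm_num)
    linarith
  · field_simp
    rw [hDdef]
    ring
  · field_simp
    rw [hDdef]
    ring

end Pool.Agent.Potatoes

end
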