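import Pool.Agent.Work.MP_72041b_co.Defs

/-! Bundle of small proof modules (one section per former module). -/

section

/-!
# MP_72041b_co: the claims (as propositions) from which the theorem is assembled

Internal normalisation: `a = 1` (diameters at most `1`), dimension `n + 1` with `n ≥ 1`,
total volume at most `t`.
-/

namespace Pool.Agent.Potatoes

open MeasureTheory Set Metric
open scoped RealInnerProductSpace

/-! ## S: general reductions -/

/-- Scaling. -/
def ClaimScale : Prop := ∀ (k : ℕ) (a b c r : ℝ), 0 < k → 0 < a → 0 < b → 0 < c → 0 < r →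
  Works k a b c → Works k (r * a) (r ^ k * b) (r * c)

/-- The cube may be taken to be the standard one, and it may be enlarged. -/
def ClaimStd : Prop := ∀ (k : ℕ) (a b c : ℝ), 0 < k → 0 < c →
  ((Works k a b c ↔ ∀ (ι : Type) [Countable ι] (K : ι → Set (E k)), (∀ i, IsBody (K i)) →
    (∀ i, diam (K i) ≤ a) → ∑' i, volume (K i) ≤ ENNReal.ofReal b →
    PlacedIn K (stdCube k (c / √k))) ∧
   (∀ c', c ≤ c' → Works k a b c → Works k a b c'))

/-! ## A: a convex body in a small rectangular box -/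

/-- `u`, `x₀`, `y`, `h` are greedy data for `K`. -/
def IsFlag {k : ℕ} (K : Set (E k)) (u : OrthonormalBasis (Fin k) ℝ (E k)) (x₀ : E k)
    (y : Fin k → E k) (h : Fin k → ℝ) : Prop :=
  x₀ ∈ K ∧ (∀ i, x₀ + y i ∈ K) ∧ (∀ i, 0 < h i) ∧ (∀ i, ⟪u i, y i⟫ = h i) ∧
  (∀ i l, i < l → ⟪u l, y i⟫ = 0) ∧ ∀ x ∈ K, ∀ i, |⟪u i, x - x₀⟫| ≤ h i

/-- Greedy data exist. -/
def ClaimFlag : Prop := ∀ (k : ℕ) (K : Set (E k)), IsBody K → ∃ u x₀ y h, IsFlag K u x₀ y h

/-- Volume bound from greedy data. -/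
def ClaimFlagVol : Prop := ∀ (k : ℕ) (K : Set (E k)) (u : OrthonormalBasis (Fin k) ℝ (E k))
  (x₀ : E k) (y : Fin k → E k) (h : Fin k → ℝ), 0 < k → IsBody K → IsFlag K u x₀ y h →
  ∏ i, h i ≤ (k : ℝ) ^ k * volume.real K

/-- `K` lies in the rectangular box with edges `w i` parallel to the `u i`. -/
def InBox {k : ℕ} (K : Set (E k)) (u : OrthonormalBasis (Fin k) ℝ (E k)) (p w : Fin k → ℝ) :
    Prop := ∀ x ∈ K, ∀ i, p i ≤ ⟪u i, x⟫ ∧ ⟪u i, x⟫ ≤ p i + w i

/-- The box lemma: a body of diameter at most one lies in a box with sorted edges at most one and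
with product of edges at most a constant times the volume. -/
def ClaimBox : Prop := ∀ k : ℕ, 0 < k → ∃ B : ℝ, 0 < B ∧ ∀ K : Set (E k), IsBody K →
  diam K ≤ 1 → ∃ (u : OrthonormalBasis (Fin k) ℝ (E k)) (p w : Fin k → ℝ), Antitone w ∧
    (∀ i, 0 < w i ∧ w i ≤ 1) ∧ InBox K u p w ∧ ∏ i, w i ≤ B * volume.real K

/-- The plane case with the exact constant: a body of diameter `w 0` in a `w 0` by `w 1` box of
area at most twice the area of the body. -/
def ClaimBox2 : Prop := ∀ K : Set (E 2), IsBody K →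
  ∃ (u : OrthonormalBasis (Fin 2) ℝ (E 2)) (p w : Fin 2 → ℝ), w 0 = diam K ∧ 0 < w 1 ∧
    w 1 ≤ w 0 ∧ InBox K u p w ∧ w 0 * w 1 ≤ 2 * volume.real K

/-! ## B: boxes in bins -/

/-- One-dimensional bins. -/
def ClaimBin1 : Prop := ∀ (ι : Type) [Countable ι] (h : ι → ℝ) (H : ℝ),
  (∀ i, 0 < h i ∧ h i ≤ 1) → Summable h → ∑' i, h i ≤ H →
  ∃ (N : ℕ) (bin : ι → ℕ) (pos : ι → ℝ), (N : ℝ) ≤ 2 * H + 2 ∧ (∀ i, bin i < N) ∧
    (∀ i, 0 ≤ pos i ∧ pos i + h i ≤ 1) ∧
    ∀ i i', i ≠ i' → bin i = bin i' → pos i + h i ≤ pos i' ∨ pos i' + h i' ≤ pos i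

/-- Boxes of dimension `m` with edges at most one, of total volume at most `V`, are packed in at
most `C * (1 + V)` unit cubes. -/
def BinsAt (m : ℕ) (C : ℝ) : Prop := ∀ (ι : Type) [Countable ι] (w : ι → Fin m → ℝ) (V : ℝ),
  (∀ i l, 0 < w i l ∧ w i l ≤ 1) → (Summable fun i => ∏ l, w i l) → ∑' i, ∏ l, w i l ≤ V →
  ∃ (N : ℕ) (bin : ι → ℕ) (pos : ι → Fin m → ℝ), (N : ℝ) ≤ C * (1 + V) ∧ (∀ i, bin i < N) ∧
    (∀ i l, 0 ≤ pos i l ∧ pos i l + w i l ≤ 1) ∧
    ∀ i i', i ≠ i' → bin i = bin i' →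
      ∃ l, pos i l + w i l ≤ pos i' l ∨ pos i' l + w i' l ≤ pos i l

def ClaimBins : Prop := ∀ m : ℕ, ∃ C : ℝ, 0 < C ∧ BinsAt m C

/-- One-dimensional stacking in a prescribed order. -/
def ClaimStack : Prop := ∀ (ι : Type) [LinearOrder ι] [Countable ι] (h : ι → ℝ),
  (∀ i, 0 < h i) → Summable h → ∃ q : ι → ℝ,
    (∀ i, q i = ∑' j : ι, if j < i then h j else 0) ∧ (∀ i, 0 ≤ q i) ∧
    (∀ i, q i + h i = ∑' j : ι, if j ≤ i then h j else 0) ∧
    (∀ i, q i + h i ≤ ∑' j, h j) ∧ ∀ i i', i < i' → q i + h i ≤ q i'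

/-! ## C: the universal cover -/

/-- The Gram matrix of (a multiple of) the regular simplex with `j + 1` vertices. -/
def IsSimplex {N j : ℕ} (p : Fin (j + 1) → E N) : Prop :=
  ∀ l m, ⟪p l, p m⟫ = (if l = m then 1 else 0) - 1 / ((j : ℝ) + 1)

/-- Rotation through the angle `π t` in an even-dimensional subspace. -/
def ClaimRot : Prop := ∀ (N : ℕ) (F : Submodule ℝ (E N)), Even (Module.finrank ℝ F) →
  ∃ R : ℝ → (E N ≃ₗᵢ[ℝ] E N), (∀ x, Continuous fun t => R t x) ∧ (∀ x, R 0 x = x) ∧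
    (∀ x ∈ F, R 1 x = -x) ∧ ∀ t, ∀ x ∈ Fᗮ, R t x = x

/-- An odd continuous function has vanishing sum over the vertices of some rotated copy of the
regular simplex. -/
def ClaimZero : Prop := ∀ (N j : ℕ) (p : Fin (j + 1) → E N), IsSimplex p →
  ∀ g : E N → ℝ, Continuous g → (∀ x, g (-x) = -g x) →
  ∃ Q : E N ≃ₗᵢ[ℝ] E N, (∀ x, (∀ m, ⟪p m, x⟫ = 0) → Q x = x) ∧ ∑ m, g (Q (p m)) = 0

/-- The universal cover: a set of diameter at most one can be moved, by an isometry acting in the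
span of the `p m`, so that all the functionals `⟪p m, ·⟫` are at most `√(j/(j+1))/2` on it. -/
def ClaimCover : Prop := ∀ (N j : ℕ) (p : Fin (j + 1) → E N), IsSimplex p →
  ∀ S : Set (E N), IsCompact S → S.Nonempty → (∀ x ∈ S, ∀ y ∈ S, dist x y ≤ 1) →
  ∃ (Q : E N ≃ₗᵢ[ℝ] E N) (τ : E N), (∀ x, (∀ m, ⟪p m, x⟫ = 0) → Q x = x ∧ ⟪x, τ⟫ = 0) ∧
    ∀ x ∈ S, ∀ m, |⟪p m, Q x + τ⟫| ≤ √((j : ℝ) / (j + 1)) / 2

/-- The properties of the Helmert basis which are used. -/
structure IsHelmert {n : ℕ} (v : OrthonormalBasis (Fin (n + 1)) ℝ (E (n + 1))) : Prop where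
  last : ∀ l, v (Fin.last n) l = 1 / √((n : ℝ) + 1)
  gram : ∀ j : ℕ, j ≤ n → ∀ l m : Fin (n + 1), (l : ℕ) ≤ j → (m : ℕ) ≤ j →
    ∑ i : Fin (n + 1), (if (i : ℕ) < j then v i l * v i m else 0) =
      (if l = m then 1 else 0) - 1 / ((j : ℝ) + 1)
  supp : ∀ i l : Fin (n + 1), (i : ℕ) < n → (i : ℕ) + 1 < (l : ℕ) → v i l = 0

def ClaimHelmert : Prop := ∀ n : ℕ,
  ∃ v : OrthonormalBasis (Fin (n + 1)) ℝ (E (n + 1)), IsHelmert v

/-- Placement of one body: the last coordinates in the Helmert basis are prescribed, the first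
`j` ones are used by the universal cover. -/
def ClaimPlace : Prop := ∀ (n j : ℕ), j ≤ n →
  ∀ v : OrthonormalBasis (Fin (n + 1)) ℝ (E (n + 1)), IsHelmert v →
  ∀ K : Set (E (n + 1)), IsBody K → diam K ≤ 1 →
  ∀ (u : OrthonormalBasis (Fin (n + 1)) ℝ (E (n + 1))) (p w P : Fin (n + 1) → ℝ),
    InBox K u p w → ∃ g : E (n + 1) ≃ᵢ E (n + 1), ∀ x ∈ K,
      (∀ l : Fin (n + 1), j ≤ (l : ℕ) → P l ≤ ⟪v l, g x⟫ ∧ ⟪v l, g x⟫ ≤ P l + w l) ∧
      ∀ m : Fin (n + 1),
        |∑ l : Fin (n + 1), (if (l : ℕ) < j then ⟪v l, g x⟫ * v l m else 0)| ≤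
          √((j : ℝ) / (j + 1)) / 2

/-! ## D: the upper bounds in general dimension -/

/-- Arrangement of the boxes for small total volume. -/
def ClaimArrange : Prop := ∀ n : ℕ, 1 ≤ n → ∀ B δ : ℝ, 0 < B → 0 < δ →
  ∃ β C : ℝ, 0 < β ∧ 0 < C ∧ ∀ t : ℝ, 0 < t → t ≤ β →
  ∀ (ι : Type) [Countable ι] (w : ι → Fin (n + 1) → ℝ), (∀ i, Antitone (w i)) →
    (∀ i l, 0 < w i l ∧ w i l ≤ 1) → (Summable fun i => ∏ l, w i l) →
    ∑' i, ∏ l, w i l ≤ B * t →
    ∃ (cls : ι → ℕ) (P : ι → Fin (n + 1) → ℝ), (∀ i, cls i ≤ n) ∧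
      (∀ i, cls i = n → 0 ≤ P i (Fin.last n) ∧ P i (Fin.last n) + w i (Fin.last n) ≤ C * t) ∧
      (∀ i, cls i < n → ∀ l : Fin (n + 1), cls i ≤ (l : ℕ) → 0 ≤ P i l ∧ P i l + w i l ≤ δ) ∧
      ∀ i i', i ≠ i' → ∃ l : Fin (n + 1), cls i ≤ (l : ℕ) ∧ cls i' ≤ (l : ℕ) ∧
        (P i l + w i l < P i' l ∨ P i' l + w i' l < P i l)

def ClaimSmall : Prop := ∀ n : ℕ, 1 ≤ n → ∃ β C : ℝ, 0 < β ∧ 0 < C ∧
  ∀ t : ℝ, 0 < t → t ≤ β → Works (n + 1) 1 t (√n + C * t)

def ClaimLarge : Prop := ∀ n : ℕ, 1 ≤ n → ∃ C : ℝ, 0 < C ∧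
  ∀ t : ℝ, 0 < t → Works (n + 1) 1 t (C * (1 + t ^ (1 / ((n : ℝ) + 1))))

/-! ## E: the upper bound in the plane -/

/-- Rectangles `d i` by `w i` with `w i ≤ d i ≤ 1` and total area at most `2 t` in the square
`|y₀| + |y₁| ≤ c / 2` with `c > 1 + 2 t`. -/
def ClaimArrange2 : Prop := ∃ β : ℝ, 0 < β ∧ ∀ t c : ℝ, 0 < t → t ≤ β → 1 + 2 * t < c →
  ∀ (ι : Type) [Countable ι] (d w : ι → ℝ), (∀ i, 0 < w i ∧ w i ≤ d i ∧ d i ≤ 1) →
    (Summable fun i => d i * w i) → ∑' i, d i * w i ≤ 2 * t →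
    ∃ P₀ P₁ : ι → ℝ,
      (∀ i, ∀ y₀ ∈ Icc (P₀ i) (P₀ i + d i), ∀ y₁ ∈ Icc (P₁ i) (P₁ i + w i),
        |y₀| + |y₁| ≤ c / 2) ∧
      ∀ i i', i ≠ i' → (P₀ i + d i < P₀ i' ∨ P₀ i' + d i' < P₀ i) ∨
        (P₁ i + w i < P₁ i' ∨ P₁ i' + w i' < P₁ i)

def ClaimUp2 : Prop := ∃ β : ℝ, 0 < β ∧ ∀ t c : ℝ, 0 < t → t ≤ β → 1 + 2 * t < c →
  Works 2 1 t c

/-! ## F: the lower bounds -/

/-- The volume bound. -/
def ClaimVol : Prop := ∀ n : ℕ, 1 ≤ n → ∀ t c : ℝ, 0 < t → 0 < c → Works (n + 1) 1 t c →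
  √((n : ℝ) + 1) * t ^ (1 / ((n : ℝ) + 1)) ≤ c

/-- A flat disc of radius `1/2` with unit normal `ν` and centre `z` in the cube with side `s`. -/
def ClaimDisc : Prop := ∀ n : ℕ, 1 ≤ n → ∀ (s : ℝ) (ν z : E (n + 1)), ‖ν‖ = 1 →
  (∀ x, ⟪ν, x⟫ = 0 → ‖x‖ ≤ 1 / 2 → z + x ∈ stdCube (n + 1) s) →
  0 < s ∧ (n : ℝ) / (n + 1) ≤ s ^ 2 ∧
  ∃ σ : Fin (n + 1) → ℝ, (∀ i, σ i = 1 ∨ σ i = -1) ∧
    ∀ x, ⟪ν, x⟫ = 0 → ‖x‖ ≤ 1 / 2 →
      |∑ i, σ i * (z + x) i| ≤ 2 * ((n : ℝ) + 1) ^ 3 * (s ^ 2 - (n : ℝ) / (n + 1))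

/-- The double cone over a disc of radius `1/2` (a rhombus for `n = 1`). -/
def thin (n : ℕ) (h : ℝ) : Set (E (n + 1)) :=
  {x | √(∑ i : Fin n, x i.castSucc ^ 2) + |x (Fin.last n)| / h ≤ 1 / 2}

def ClaimThin : Prop := ∀ n : ℕ, 1 ≤ n → ∃ κ : ℝ, 0 < κ ∧ ∀ h : ℝ, 0 < h → h ≤ 1 →
  IsBody (thin n h) ∧ diam (thin n h) ≤ 1 ∧ volume.real (thin n h) ≤ h ∧
    κ * h ≤ volume.real (thin n h)

def ClaimThin2 : Prop := ∀ h : ℝ, 0 < h → h ≤ 1 → volume.real (thin 1 h) ≤ h / 2

/-- Volume of the part of the cube which is close to a diagonal hyperplane. -/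
def ClaimSlab : Prop := ∀ (n : ℕ) (s δ : ℝ) (σ : Fin (n + 1) → ℝ), 0 ≤ s → 0 ≤ δ →
  (∀ i, σ i = 1 ∨ σ i = -1) →
  volume {x : E (n + 1) | x ∈ stdCube (n + 1) s ∧ |∑ i, σ i * x i| ≤ δ} ≤
    ENNReal.ofReal (2 * δ * (√((n : ℝ) + 1) * s) ^ n)

def ClaimLow : Prop := ∀ n : ℕ, 1 ≤ n → ∃ c₀ : ℝ, 0 < c₀ ∧ ∀ t c : ℝ, 0 < t → 0 < c →
  Works (n + 1) 1 t c → √n + c₀ * min t 1 ≤ c

/-! ## G: the lower bound in the plane -/

/-- The rhombus with centre `z`, axis direction `V`, diagonals `1` and `w`, lies in the square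
`|y₀| + |y₁| ≤ c / 2`. -/
def RhIn (c w z₀ z₁ V₀ V₁ : ℝ) : Prop := V₀ ^ 2 + V₁ ^ 2 = 1 ∧
  ∀ α β : ℝ, |α| + |β| / w ≤ 1 / 2 → |z₀ + α * V₀ - β * V₁| + |z₁ + α * V₁ + β * V₀| ≤ c / 2

/-- The section of a thin rhombus with axis nearly parallel to the `y₀`-axis. -/
def ClaimSection : Prop := ∀ ε w z₀ z₁ V₀ V₁ : ℝ, 0 < ε → ε ≤ 1 / 50 → 0 < w → w ≤ 1 →
  RhIn (1 + ε) w z₀ z₁ V₀ V₁ → |V₁| ≤ |V₀| →
  ∃ m : ℝ, (∀ y ∈ Icc m (m + w * (1 - 4 * ε)), ∃ α β : ℝ, |α| + |β| / w ≤ 1 / 2 ∧
      z₀ + α * V₀ - β * V₁ = 0 ∧ z₁ + α * V₁ + β * V₀ = y) ∧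
    -(ε / 2 + 4 * ε ^ 2 + w / 2) ≤ m ∧
    m + w * (1 - 4 * ε) ≤ ε / 2 + 4 * ε ^ 2 + w / 2

/-- Two thin rhombi with axes nearly parallel to different diagonals meet. -/
def ClaimCross : Prop := ∀ ε w z₀ z₁ V₀ V₁ z₀' z₁' V₀' V₁' : ℝ, 0 < ε → ε ≤ 1 / 50 →
  0 < w → w ≤ 1 → RhIn (1 + ε) w z₀ z₁ V₀ V₁ → RhIn (1 + ε) w z₀' z₁' V₀' V₁' →
  |V₁| ≤ |V₀| → |V₀'| ≤ |V₁'| →
  ∃ α α' : ℝ, |α| ≤ 1 / 2 ∧ |α'| ≤ 1 / 2 ∧ z₀ + α * V₀ = z₀' + α' * V₀' ∧
    z₁ + α * V₁ = z₁' + α' * V₁'

def ClaimLow2 : Prop := ∃ β : ℝ, 0 < β ∧ ∀ t c : ℝ, 0 < t → t ≤ β → 0 < c →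
  Works 2 1 t c → 1 + 2 * t - 48 * t ^ 2 ≤ c

/-! ## The final statements -/

def MainA : Prop := ∀ k : ℕ, 2 ≤ k → ∃ c C : ℝ, 0 < c ∧ 0 < C ∧ ∀ a b : ℝ, 0 < a → 0 < b →
  √((k : ℝ) - 1) * a + c * min (b / a ^ (k - 1)) (b ^ (1 / (k : ℝ))) ≤ f k a b ∧
  f k a b ≤ √((k : ℝ) - 1) * a + C * min (b / a ^ (k - 1)) (b ^ (1 / (k : ℝ)))

def MainB : Prop := ∃ β : ℝ, 0 < β ∧ ∀ a b : ℝ, 0 < a → 0 < b → b ≤ β * a ^ 2 →
  a + 2 * b / a - 48 * b ^ 2 / a ^ 3 ≤ f 2 a b ∧ f 2 a b ≤ a + 2 * b / a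

end Pool.Agent.Potatoes

end

section

/-!
# MP_72041b_co: arrangement of the boxes for small total volume
-/

namespace Pool.Agent.Potatoes

open MeasureTheory Set Metric
open scoped RealInnerProductSpace

namespace Arrange

/-- The number of long edges. -/
theorem exists_cls {n : ℕ} (w : Fin (n + 1) → ℝ) (hw : Antitone w) (η : ℝ) :
    ∃ c : ℕ, c ≤ n + 1 ∧ (∀ l : Fin (n + 1), c ≤ (l : ℕ) → w l < η) ∧
      ∀ l : Fin (n + 1), (l : ℕ) < c → η ≤ w l := by
  classical
  have hex : ∃ c : ℕ, ∀ l : Fin (n + 1), c ≤ (l : ℕ) → w l < η :=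
    ⟨n + 1, fun l hl => absurd l.2 (by omega)⟩
  refine ⟨Nat.find hex, Nat.find_le (fun l hl => absurd l.2 (by omega)), Nat.find_spec hex, ?_⟩
  intro l hl
  have h := Nat.find_min hex hl
  push Not at h
  obtain ⟨l', h1, h2⟩ := h
  exact h2.trans (hw (by exact_mod_cast h1))

theorem prod_split {N j m : ℕ} (h : N = j + m) (w : Fin N → ℝ) (η : ℝ) (hη : 0 < η)
    (hw : ∀ l, 0 < w l) (hj : ∀ l : Fin N, (l : ℕ) < j → η ≤ w l) :
    η ^ N * ∏ l : Fin m, (w ⟨j + l, by omega⟩ / η) ≤ ∏ l, w l := by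
  subst h
  rw [Fin.prod_univ_add, Finset.prod_div_distrib, Finset.prod_const, Finset.card_univ,
    Fintype.card_fin, pow_add]
  have h1 : η ^ j ≤ ∏ l : Fin j, w (Fin.castAdd m l) := by
    calc η ^ j = ∏ _l : Fin j, η := by simp
      _ ≤ _ := Finset.prod_le_prod (fun _ _ => hη.le) (fun l _ => hj _ (by simp))
  have h2 : (∏ l : Fin m, w ⟨j + l, by omega⟩) = ∏ l : Fin m, w (Fin.natAdd j l) := rfl
  have h3 : 0 ≤ ∏ l : Fin m, w (Fin.natAdd j l) := Finset.prod_nonneg fun l _ => (hw _).le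
  have hm : 0 < η ^ m := pow_pos hη m
  calc η ^ j * η ^ m * ((∏ l : Fin m, w ⟨j + l, by omega⟩) / η ^ m)
      = η ^ j * (∏ l : Fin m, w (Fin.natAdd j l)) := by
        rw [h2]; field_simp
    _ ≤ _ := mul_le_mul_of_nonneg_right h1 h3

/-- Bins for one class. -/
theorem bins_class (hB : ClaimBins) (n : ℕ) : ∃ M : ℕ, 0 < M ∧
    ∀ j : ℕ, j ≤ n → ∀ η : ℝ, 0 < η →
    ∀ (ι : Type) [Countable ι] (w : ι → Fin (n + 1) → ℝ) (s : Set ι),
      (∀ i l, 0 < w i l) → (∀ i ∈ s, ∀ l : Fin (n + 1), j ≤ (l : ℕ) → w i l < η) →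
      (∀ i ∈ s, ∀ l : Fin (n + 1), (l : ℕ) < j → η ≤ w i l) →
      (Summable fun i => ∏ l, w i l) → ∑' i, ∏ l, w i l ≤ η ^ (n + 1) →
      ∃ (bin : ι → ℕ) (pos : ι → Fin (n + 1) → ℝ), (∀ i ∈ s, bin i < M) ∧
        (∀ i ∈ s, ∀ l : Fin (n + 1), j ≤ (l : ℕ) → 0 ≤ pos i l ∧ pos i l + w i l / η ≤ 1) ∧
        ∀ i ∈ s, ∀ i' ∈ s, i ≠ i' → bin i = bin i' → ∃ l : Fin (n + 1), j ≤ (l : ℕ) ∧
          (pos i l + w i l / η ≤ pos i' l ∨ pos i' l + w i' l / η ≤ pos i l) := by
  classical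
  choose C hC hCb using hB
  refine ⟨⌈∑ m ∈ Finset.range (n + 2), 2 * C m⌉₊ + 1, Nat.succ_pos _, ?_⟩
  intro j hj η hη ι _ w s hw hs1 hs2 hsum htsum
  obtain ⟨m, hm⟩ : ∃ m, n + 1 = j + m := ⟨n + 1 - j, by omega⟩
  have hηN : 0 < η ^ (n + 1) := pow_pos hη _
  have key : ∀ i ∈ s, ∏ l : Fin m, (w i ⟨j + l, by omega⟩ / η) ≤ (∏ l, w i l) / η ^ (n + 1) := by
    intro i hi
    rw [le_div_iff₀ hηN, mul_comm]
    exact prod_split hm (w i) η hη (hw i) (hs2 i hi)
  have hsum' : Summable fun i : s => (∏ l, w i l) / η ^ (n + 1) :=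
    (hsum.div_const _).subtype s
  have hnn : ∀ i : s, 0 ≤ ∏ l : Fin m, (w i ⟨j + l, by omega⟩ / η) := fun i =>
    Finset.prod_nonneg fun l _ => (div_pos (hw _ _) hη).le
  have hS : Summable fun i : s => ∏ l : Fin m, (w i ⟨j + l, by omega⟩ / η) :=
    Summable.of_nonneg_of_le hnn (fun i => key i i.2) hsum'
  have hT : ∑' i : s, ∏ l : Fin m, (w i ⟨j + l, by omega⟩ / η) ≤ 1 := by
    calc ∑' i : s, ∏ l : Fin m, (w i ⟨j + l, by omega⟩ / η)
        ≤ ∑' i : s, (∏ l, w i l) / η ^ (n + 1) := hS.tsum_le_tsum (fun i => key i i.2) hsum'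
      _ ≤ ∑' i, (∏ l, w i l) / η ^ (n + 1) :=
          Summable.tsum_subtype_le (fun i => (∏ l, w i l) / η ^ (n + 1)) s
            (fun i => div_nonneg (Finset.prod_nonneg fun l _ => (hw i l).le) hηN.le)
            (hsum.div_const _)
      _ = (∑' i, ∏ l, w i l) / η ^ (n + 1) := tsum_div_const
      _ ≤ 1 := by rw [div_le_one hηN]; exact htsum
  obtain ⟨N, bin, pos, hN, hbin, hpos, hsep⟩ := hCb m s
    (fun i l => w i ⟨j + l, by omega⟩ / η) 1
    (fun i l => ⟨div_pos (hw _ _) hη, by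
      rw [div_le_one hη]; exact (hs1 i i.2 ⟨j + l, by omega⟩ (by simp)).le⟩) hS hT
  refine ⟨fun i => if h : i ∈ s then bin ⟨i, h⟩ else 0,
    fun i l => if h : i ∈ s ∧ j ≤ (l : ℕ) then pos ⟨i, h.1⟩ ⟨l - j, by omega⟩ else 0, ?_, ?_, ?_⟩
  · intro i hi
    have h1 : bin ⟨i, hi⟩ < N := hbin _
    have h2 : (N : ℝ) ≤ ⌈∑ m ∈ Finset.range (n + 2), 2 * C m⌉₊ := by
      refine hN.trans (le_trans ?_ (Nat.le_ceil _))
      have : 2 * C m ≤ ∑ m ∈ Finset.range (n + 2), 2 * C m :=
        Finset.single_le_sum (f := fun m => 2 * C m) (fun m _ => by have := hC m; positivity)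
          (Finset.mem_range.2 (by omega))
      linarith
    have h3 : N ≤ ⌈∑ m ∈ Finset.range (n + 2), 2 * C m⌉₊ := by exact_mod_cast h2
    simp only [hi, dite_true]
    omega
  · intro i hi l hl
    have := hpos ⟨i, hi⟩ ⟨l - j, by omega⟩
    simp only [hi, hl, and_self, dite_true]
    have e : (⟨j + (↑l - j), by omega⟩ : Fin (n + 1)) = l := Fin.ext (by simp; omega)
    simpa [e] using this
  · intro i hi i' hi' hne hb
    simp only [hi, hi', dite_true] at hb
    obtain ⟨l, hl⟩ := hsep ⟨i, hi⟩ ⟨i', hi'⟩ (by simpa using hne) hb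
    refine ⟨⟨j + l, by omega⟩, by simp, ?_⟩
    have e : (⟨j + ↑l - j, by omega⟩ : Fin m) = l := Fin.ext (by simp)
    simpa [hi, hi', e] using hl

end Arrange

open Arrange in
theorem claimArrange (h1 : ClaimStack) (h2 : ClaimBins) : ClaimArrange := by
  classical
  intro n hn B δ hB hδ
  obtain ⟨M, hM, hbins⟩ := bins_class h2 n
  -- the threshold
  set η : ℝ := min 1 (δ / (4 * (n + 1) * (M + 1))) with hηdef
  have hden : (0 : ℝ) < 4 * (n + 1) * (M + 1) := by positivity
  have hη : 0 < η := lt_min one_pos (div_pos hδ hden)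
  have hη1 : η ≤ 1 := min_le_left _ _
  have hηδ : 4 * (n + 1) * (M + 1) * η ≤ δ := by
    have : η ≤ δ / (4 * (n + 1) * (M + 1)) := min_le_right _ _
    rw [le_div_iff₀ hden] at this
    linarith
  set C : ℝ := 2 * B / η ^ n with hCdef
  have hηn : 0 < η ^ n := pow_pos hη n
  have hηn1 : 0 < η ^ (n + 1) := pow_pos hη (n + 1)
  have hC : 0 < C := by positivity
  refine ⟨min (η ^ (n + 1) / (2 * B)) (δ / (2 * C)), C, ?_, hC, ?_⟩
  · exact lt_min (by positivity) (by positivity)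
  intro t ht htβ ι _ w hanti hw hsum htsum
  have hBt : B * t < η ^ (n + 1) := by
    have : t ≤ η ^ (n + 1) / (2 * B) := htβ.trans (min_le_left _ _)
    rw [le_div_iff₀ (by positivity)] at this
    nlinarith
  have hCt : C * t ≤ δ / 2 := by
    have : t ≤ δ / (2 * C) := htβ.trans (min_le_right _ _)
    rw [le_div_iff₀ (by positivity)] at this
    linarith
  have hCt0 : 0 < C * t := mul_pos hC ht
  choose cls hcls1 hcls2 hcls3 using fun i => exists_cls (w i) (hanti i) η
  have hpn : ∀ i, 0 ≤ ∏ l, w i l := fun i => Finset.prod_nonneg fun l _ => (hw i l).1.le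
  have hple : ∀ i, ∏ l, w i l ≤ B * t := fun i =>
    (hsum.le_tsum i (fun j _ => hpn j)).trans htsum
  have hcls : ∀ i, cls i ≤ n := by
    intro i
    by_contra hlt
    have hall : ∀ l, η ≤ w i l := fun l => hcls3 i l (by omega)
    have : η ^ (n + 1) ≤ ∏ l, w i l := by
      calc η ^ (n + 1) = ∏ _l : Fin (n + 1), η := by simp
        _ ≤ _ := Finset.prod_le_prod (fun _ _ => hη.le) (fun l _ => hall l)
    linarith [hple i]
  -- bins in every class
  have hch : ∀ j : ℕ, ∃ (bin : ι → ℕ) (pos : ι → Fin (n + 1) → ℝ), j ≤ n →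
      (∀ i, cls i = j → bin i < M) ∧
      (∀ i, cls i = j → ∀ l : Fin (n + 1), j ≤ (l : ℕ) → 0 ≤ pos i l ∧ pos i l + w i l / η ≤ 1) ∧
      ∀ i, cls i = j → ∀ i', cls i' = j → i ≠ i' → bin i = bin i' →
        ∃ l : Fin (n + 1), j ≤ (l : ℕ) ∧
          (pos i l + w i l / η ≤ pos i' l ∨ pos i' l + w i' l / η ≤ pos i l) := by
    intro j
    by_cases hj : j ≤ n
    · obtain ⟨bin, pos, hb, hp, hs⟩ := hbins j hj η hη ι w {i | cls i = j} (fun i l => (hw i l).1)
        (fun i hi l hl => hcls2 i l (by rw [show cls i = j from hi]; exact hl))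
        (fun i hi l hl => hcls3 i l (by rw [show cls i = j from hi]; exact hl)) hsum
        (by linarith)
      exact ⟨bin, pos, fun _ => ⟨hb, hp, hs⟩⟩
    · exact ⟨fun _ => 0, fun _ _ => 0, fun h => absurd h hj⟩
  choose bin pos hbp using hch
  -- the stack of the class n
  obtain ⟨e, he⟩ := exists_injective_nat ι
  let S : Type := {i : ι // cls i = n}
  let _ : LinearOrder S := LinearOrder.lift' (fun i : S => e i.1)
    (fun a b hab => Subtype.ext (he hab))
  have hlast : ∀ i, cls i = n → w i (Fin.last n) * η ^ n ≤ ∏ l, w i l := by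
    intro i hi
    rw [Fin.prod_univ_castSucc, mul_comm]
    refine mul_le_mul_of_nonneg_right ?_ (hw i _).1.le
    calc η ^ n = ∏ _l : Fin n, η := by simp
      _ ≤ _ := Finset.prod_le_prod (fun _ _ => hη.le)
        (fun l _ => hcls3 i _ (by rw [hi]; simp))
  have hlast' : ∀ i : S, 2 * w i.1 (Fin.last n) ≤ 2 * ((∏ l, w i.1 l) / η ^ n) := by
    intro i
    have := hlast i.1 i.2
    rw [← le_div_iff₀ hηn] at this
    linarith
  have hSs : Summable fun i : S => 2 * ((∏ l, w i.1 l) / η ^ n) :=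
    ((hsum.div_const _).mul_left 2).comp_injective (i := fun i : S => i.1)
      (fun a b hab => Subtype.ext hab)
  have hSw : Summable fun i : S => 2 * w i.1 (Fin.last n) :=
    Summable.of_nonneg_of_le (fun i => by have := (hw i.1 (Fin.last n)).1; positivity) hlast' hSs
  have hSt : ∑' i : S, 2 * w i.1 (Fin.last n) ≤ C * t := by
    calc ∑' i : S, 2 * w i.1 (Fin.last n) ≤ ∑' i : S, 2 * ((∏ l, w i.1 l) / η ^ n) :=
          hSw.tsum_le_tsum hlast' hSs
      _ ≤ ∑' i, 2 * ((∏ l, w i l) / η ^ n) :=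
          Summable.tsum_subtype_le (fun i => 2 * ((∏ l, w i l) / η ^ n)) {i | cls i = n}
            (fun i => by have := hpn i; positivity) ((hsum.div_const _).mul_left 2)
      _ = 2 * ((∑' i, ∏ l, w i l) / η ^ n) := by rw [tsum_mul_left, tsum_div_const]
      _ ≤ 2 * ((B * t) / η ^ n) := by gcongr
      _ = C * t := by rw [hCdef]; ring
  obtain ⟨q, -, hq0, -, hq1, hq2⟩ := h1 S (fun i => 2 * w i.1 (Fin.last n))
    (fun i => by have := (hw i.1 (Fin.last n)).1; positivity) hSw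
  -- the positions
  refine ⟨cls, fun i l => if h : cls i = n then q ⟨i, h⟩ else
    if l = Fin.last n then
      C * t + 2 * η * ((cls i : ℝ) * M + bin (cls i) i) + 2 * η * pos (cls i) i l
    else 2 * η * pos (cls i) i l, hcls, ?_, ?_, ?_⟩
  · intro i hi
    simp only [hi, dite_true]
    have h3 := hq1 ⟨i, hi⟩
    have h4 := (hw i (Fin.last n)).1
    refine ⟨hq0 _, ?_⟩
    simp only at h3
    linarith
  · intro i hi l hl
    have hne : ¬ cls i = n := by omega
    simp only [hne, dite_false]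
    obtain ⟨hb, hp, -⟩ := hbp (cls i) (hcls i)
    have hb := hb i rfl
    have hp := hp i rfl l hl
    have hwl := (hw i l).1
    have e1 : 2 * η * pos (cls i) i l + 2 * w i l ≤ 2 * η := by
      have h5 : η * (pos (cls i) i l + w i l / η) ≤ η * 1 :=
        mul_le_mul_of_nonneg_left hp.2 hη.le
      have h6 : η * (w i l / η) = w i l := by field_simp
      nlinarith
    have hM1 : (1 : ℝ) ≤ M := by exact_mod_cast hM
    have hn1 : (1 : ℝ) ≤ n := by exact_mod_cast hn
    have hηδ' : 2 * η * (n * M + M) + 2 * η ≤ δ / 2 := by nlinarith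
    split_ifs with hl2
    · have hci : ((cls i : ℕ) : ℝ) ≤ n := by exact_mod_cast hcls i
      have hbi : ((bin (cls i) i : ℕ) : ℝ) ≤ M := by exact_mod_cast hb.le
      have h7 : (cls i : ℝ) * M + bin (cls i) i ≤ n * M + M := by
        have : (cls i : ℝ) * M ≤ n * M := mul_le_mul_of_nonneg_right hci (by positivity)
        linarith
      have h8 : 2 * η * ((cls i : ℝ) * M + bin (cls i) i) ≤ 2 * η * (n * M + M) :=
        mul_le_mul_of_nonneg_left h7 (by positivity)
      constructor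
      · have := hp.1
        positivity
      · linarith
    · constructor
      · have := hp.1
        positivity
      · have : 0 ≤ 2 * η * (n * M + M) := by positivity
        linarith
  · -- separation
    -- the bound for a box of a lower class in its bin
    have hbox : ∀ i, cls i < n → ∀ l : Fin (n + 1), cls i ≤ (l : ℕ) →
        0 ≤ 2 * η * pos (cls i) i l ∧ 2 * η * pos (cls i) i l + w i l < 2 * η := by
      intro i hi l hl
      obtain ⟨-, hp, -⟩ := hbp (cls i) (hcls i)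
      have hp := hp i rfl l hl
      have hwl := (hw i l).1
      have h5 : η * (pos (cls i) i l + w i l / η) ≤ η * 1 := mul_le_mul_of_nonneg_left hp.2 hη.le
      have h6 : η * (w i l / η) = w i l := by field_simp
      exact ⟨by have := hp.1; positivity, by nlinarith⟩
    have hlt : ∀ i i', cls i < n → cls i' < n →
        (cls i : ℝ) * M + bin (cls i) i + 1 ≤ (cls i' : ℝ) * M + bin (cls i') i' →
        ∃ l : Fin (n + 1), cls i ≤ (l : ℕ) ∧ cls i' ≤ (l : ℕ) ∧
        ((if h : cls i = n then q ⟨i, h⟩ else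
          if l = Fin.last n then
            C * t + 2 * η * ((cls i : ℝ) * M + bin (cls i) i) + 2 * η * pos (cls i) i l
          else 2 * η * pos (cls i) i l) + w i l <
        (if h : cls i' = n then q ⟨i', h⟩ else
          if l = Fin.last n then
            C * t + 2 * η * ((cls i' : ℝ) * M + bin (cls i') i') + 2 * η * pos (cls i') i' l
          else 2 * η * pos (cls i') i' l)) := by
      intro i i' hi hi' h
      refine ⟨Fin.last n, by simpa using hi.le, by simpa using hi'.le, ?_⟩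
      have n1 : ¬ cls i = n := by omega
      have n2 : ¬ cls i' = n := by omega
      simp only [n1, n2, dite_false, if_true]
      have b1 := hbox i hi (Fin.last n) (by simpa using hi.le)
      have b2 := hbox i' hi' (Fin.last n) (by simpa using hi'.le)
      have : 2 * η * ((cls i : ℝ) * M + bin (cls i) i + 1) ≤
          2 * η * ((cls i' : ℝ) * M + bin (cls i') i') :=
        mul_le_mul_of_nonneg_left h (by positivity)
      nlinarith [b1.2, b2.1]
    have hstack : ∀ i i', cls i = n → cls i' < n →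
        ∃ l : Fin (n + 1), cls i ≤ (l : ℕ) ∧ cls i' ≤ (l : ℕ) ∧
        ((if h : cls i = n then q ⟨i, h⟩ else
          if l = Fin.last n then
            C * t + 2 * η * ((cls i : ℝ) * M + bin (cls i) i) + 2 * η * pos (cls i) i l
          else 2 * η * pos (cls i) i l) + w i l <
        (if h : cls i' = n then q ⟨i', h⟩ else
          if l = Fin.last n then
            C * t + 2 * η * ((cls i' : ℝ) * M + bin (cls i') i') + 2 * η * pos (cls i') i' l
          else 2 * η * pos (cls i') i' l)) := by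
      intro i i' hi hi'
      refine ⟨Fin.last n, by simp [hi], by simpa using hi'.le, ?_⟩
      have n2 : ¬ cls i' = n := by omega
      simp only [hi, n2, dite_false, if_true, dite_true]
      have b2 := hbox i' hi' (Fin.last n) (by simpa using hi'.le)
      have h3 := hq1 ⟨i, hi⟩
      have h4 := (hw i (Fin.last n)).1
      simp only at h3
      have h5 : 0 ≤ 2 * η * ((cls i' : ℝ) * M + bin (cls i') i') := by positivity
      linarith [b2.1]
    intro i i' hne
    rcases (hcls i).lt_or_eq with hi | hi <;> rcases (hcls i').lt_or_eq with hi' | hi'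
    · -- both of lower class
      obtain ⟨hb, -, -⟩ := hbp (cls i) (hcls i)
      have hbi := hb i rfl
      obtain ⟨hb', -, -⟩ := hbp (cls i') (hcls i')
      have hbi' := hb' i' rfl
      rcases lt_trichotomy (cls i) (cls i') with hc | hc | hc
      · obtain ⟨l, l1, l2, l3⟩ := hlt i i' hi hi' (by
          have h1 : cls i * M + bin (cls i) i + 1 ≤ cls i' * M + bin (cls i') i' := by
            have : (cls i + 1) * M ≤ cls i' * M := Nat.mul_le_mul_right _ hc
            nlinarith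
          exact_mod_cast h1)
        exact ⟨l, l1, l2, Or.inl l3⟩
      · -- same class
        rcases lt_trichotomy (bin (cls i) i) (bin (cls i') i') with hd | hd | hd
        · obtain ⟨l, l1, l2, l3⟩ := hlt i i' hi hi' (by
            have h1 : cls i * M + bin (cls i) i + 1 ≤ cls i' * M + bin (cls i') i' := by
              rw [hc] at hd ⊢; omega
            exact_mod_cast h1)
          exact ⟨l, l1, l2, Or.inl l3⟩
        · obtain ⟨-, -, hs⟩ := hbp (cls i) (hcls i)
          rw [← hc] at hd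
          obtain ⟨l, hl, hl'⟩ := hs i rfl i' hc.symm hne hd
          refine ⟨l, hl, by omega, ?_⟩
          have n1 : ¬ cls i = n := by omega
          have n2 : ¬ cls i' = n := by omega
          simp only [n1, n2, dite_false]
          have e6 : η * (w i l / η) = w i l := by field_simp
          have e6' : η * (w i' l / η) = w i' l := by field_simp
          have hwl := (hw i l).1
          have hwl' := (hw i' l).1
          rw [← hc, ← hd]
          rcases hl' with hl' | hl'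
          · left
            have h5 := mul_le_mul_of_nonneg_left hl' hη.le
            split_ifs <;> nlinarith
          · right
            have h5 := mul_le_mul_of_nonneg_left hl' hη.le
            split_ifs <;> nlinarith
        · obtain ⟨l, l1, l2, l3⟩ := hlt i' i hi' hi (by
            have h1 : cls i' * M + bin (cls i') i' + 1 ≤ cls i * M + bin (cls i) i := by
              rw [hc] at hd ⊢; omega
            exact_mod_cast h1)
          exact ⟨l, l2, l1, Or.inr l3⟩
      · obtain ⟨l, l1, l2, l3⟩ := hlt i' i hi' hi (by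
          have h1 : cls i' * M + bin (cls i') i' + 1 ≤ cls i * M + bin (cls i) i := by
            have : (cls i' + 1) * M ≤ cls i * M := Nat.mul_le_mul_right _ hc
            nlinarith
          exact_mod_cast h1)
        exact ⟨l, l2, l1, Or.inr l3⟩
    · obtain ⟨l, l1, l2, l3⟩ := hstack i' i hi' hi
      exact ⟨l, l2, l1, Or.inr l3⟩
    · obtain ⟨l, l1, l2, l3⟩ := hstack i i' hi hi'
      exact ⟨l, l1, l2, Or.inl l3⟩
    · -- both in the stack
      refine ⟨Fin.last n, by simp [hi], by simp [hi'], ?_⟩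
      simp only [hi, hi', dite_true]
      have h4 := (hw i (Fin.last n)).1
      have h4' := (hw i' (Fin.last n)).1
      have hne' : (⟨i, hi⟩ : S) ≠ ⟨i', hi'⟩ := fun h => hne (congrArg Subtype.val h)
      rcases lt_or_gt_of_ne hne' with hlt' | hlt'
      · left
        have := hq2 _ _ hlt'
        simp only at this
        linarith
      · right
        have := hq2 _ _ hlt'
        simp only at this
        linarith

end Pool.Agent.Potatoes

end

section

/-!
# MP_72041b_co, item B2: one-dimensional bins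
-/

set_option autoImplicit false

namespace Pool.Agent.Potatoes

open MeasureTheory Set Metric

theorem claimBin1 (h : ClaimStack) : ClaimBin1 := by
  intro ι _ w H hw hs hH
  obtain ⟨e, he⟩ := Countable.exists_injective_nat ι
  let _ : LinearOrder ι := LinearOrder.lift' e he
  obtain ⟨q, -, hq0, -, hqle, hqlt⟩ := h ι w (fun i => (hw i).1) hs
  have hH0 : 0 ≤ H := (tsum_nonneg fun i => (hw i).1.le).trans hH
  classical
  let bin : ι → ℕ := fun i => if q i + w i ≤ (⌊q i⌋₊ : ℝ) + 1 then 2 * ⌊q i⌋₊ else 2 * ⌊q i⌋₊ + 1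
  let pos : ι → ℝ := fun i => if q i + w i ≤ (⌊q i⌋₊ : ℝ) + 1 then q i - ⌊q i⌋₊ else 0
  have hfl : ∀ i, (⌊q i⌋₊ : ℝ) ≤ q i := fun i => Nat.floor_le (hq0 i)
  have hfl2 : ∀ i, q i < (⌊q i⌋₊ : ℝ) + 1 := fun i => Nat.lt_floor_add_one _
  have hord : ∀ i i', i < i' → bin i = bin i' → pos i + w i ≤ pos i' := by
    intro i i' hlt hb
    have h1 := hqlt i i' hlt
    simp only [bin] at hb
    by_cases c1 : q i + w i ≤ (⌊q i⌋₊ : ℝ) + 1
    · by_cases c2 : q i' + w i' ≤ (⌊q i'⌋₊ : ℝ) + 1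
      · rw [if_pos c1, if_pos c2] at hb
        have hn : ⌊q i⌋₊ = ⌊q i'⌋₊ := by omega
        simp only [pos]
        rw [if_pos c1, if_pos c2, hn]
        linarith
      · rw [if_pos c1, if_neg c2] at hb
        omega
    · by_cases c2 : q i' + w i' ≤ (⌊q i'⌋₊ : ℝ) + 1
      · rw [if_neg c1, if_pos c2] at hb
        omega
      · rw [if_neg c1, if_neg c2] at hb
        have hn : ⌊q i⌋₊ = ⌊q i'⌋₊ := by omega
        have h2 := hfl2 i'
        rw [← hn] at h2
        push Not at c1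
        exfalso
        linarith
  refine ⟨2 * ⌊H⌋₊ + 2, bin, pos, ?_, ?_, ?_, ?_⟩
  · have := Nat.floor_le hH0
    push_cast
    linarith
  · intro i
    have h1 : q i ≤ H := by
      have h2 := hqle i
      have h3 := (hw i).1
      linarith
    have h4 : ⌊q i⌋₊ ≤ ⌊H⌋₊ := Nat.floor_le_floor h1
    simp only [bin]
    split_ifs <;> omega
  · intro i
    simp only [pos]
    split_ifs with c
    · exact ⟨by linarith [hfl i], by linarith⟩
    · exact ⟨le_refl _, by linarith [(hw i).2]⟩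
  · intro i i' hne hb
    rcases lt_or_gt_of_ne hne with hlt | hlt
    · exact Or.inl (hord i i' hlt hb)
    · exact Or.inr (hord i' i hlt hb.symm)

end Pool.Agent.Potatoes

end

section

/-!
# Packing boxes in unit cubes
-/

namespace Pool.Agent.Potatoes

open MeasureTheory Set Metric

namespace Bins

lemma base : BinsAt 0 1 := by
  intro ι _ w V hw hsum htsum
  have h1 : ∀ i, ∏ l : Fin 0, w i l = 1 := fun i => by simp
  simp only [h1] at hsum htsum
  have hfin : Finite ι := by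
    by_contra hinf
    rw [not_finite_iff_infinite] at hinf
    exact one_ne_zero ((summable_const_iff (β := ι) (1 : ℝ)).mp hsum)
  have := Fintype.ofFinite ι
  rw [tsum_fintype, Finset.sum_const, nsmul_eq_mul, mul_one, Finset.card_univ] at htsum
  refine ⟨Fintype.card ι, fun i => Fintype.equivFin ι i, fun _ => Fin.elim0, by linarith,
    fun i => (Fintype.equivFin ι i).isLt, fun i l => l.elim0, ?_⟩
  intro i i' hne hbin
  exact absurd ((Fintype.equivFin ι).injective (Fin.ext hbin)) hne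

/-- The dyadic class of a height. -/
lemma dyadic {h : ℝ} (h0 : 0 < h) (h1 : h ≤ 1) :
    ∃ s : ℕ, (1 / 2 : ℝ) ^ (s + 1) < h ∧ h ≤ (1 / 2 : ℝ) ^ s :=
  exists_nat_pow_near_of_lt_one h0 h1 (by norm_num) (by norm_num)

lemma step (hbin : ClaimBin1) (m : ℕ) (C : ℝ) (hC : 0 < C) (hm : BinsAt m C) :
    BinsAt (m + 1) (4 * C + 2) := by
  intro ι _ w V hw hsum htsum
  -- heights, bases, classes
  choose s hs1 hs2 using fun i => dyadic (hw i (Fin.last m)).1 (hw i (Fin.last m)).2
  have hprod : ∀ i, ∏ l, w i l = (∏ l : Fin m, w i l.castSucc) * w i (Fin.last m) := fun i =>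
    Fin.prod_univ_castSucc _
  have hvol0 : ∀ i, 0 ≤ ∏ l, w i l := fun i => Finset.prod_nonneg fun l _ => (hw i l).1.le
  have hbase0 : ∀ i, 0 < ∏ l : Fin m, w i l.castSucc := fun i =>
    Finset.prod_pos fun l _ => (hw i _).1
  have hV0 : 0 ≤ V := le_trans (tsum_nonneg hvol0) htsum
  have hle : ∀ i, ∏ l : Fin m, w i l.castSucc ≤ 2 ^ (s i + 1) * ∏ l, w i l := by
    intro i
    rw [hprod]
    have e1 : (1 : ℝ) ≤ 2 ^ (s i + 1) * w i (Fin.last m) := by
      have e2 : (2 : ℝ) ^ (s i + 1) * (1 / 2 : ℝ) ^ (s i + 1) = 1 := by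
        rw [← mul_pow]
        norm_num
      rw [← e2]
      exact mul_le_mul_of_nonneg_left (hs1 i).le (by positivity)
    calc ∏ l : Fin m, w i l.castSucc = (∏ l : Fin m, w i l.castSucc) * 1 := (mul_one _).symm
      _ ≤ (∏ l : Fin m, w i l.castSucc) * (2 ^ (s i + 1) * w i (Fin.last m)) :=
          mul_le_mul_of_nonneg_left e1 (hbase0 i).le
      _ = _ := by ring
  -- volumes of the classes
  obtain ⟨vol, hvol⟩ : ∃ vol : ℕ → ℝ, vol = fun s0 => ∑' i : {i // s i = s0}, ∏ l, w i.1 l :=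
    ⟨_, rfl⟩
  have hvolnn : ∀ s0, 0 ≤ vol s0 := fun s0 => by
    rw [hvol]
    exact tsum_nonneg fun i => hvol0 _
  have hsumσ : Summable fun x : (Σ s0 : ℕ, {i // s i = s0}) => ∏ l, w x.2.1 l := by
    have e0 := ((Equiv.sigmaFiberEquiv s).summable_iff (f := fun i => ∏ l, w i l)).mpr hsum
    exact e0
  have hvolsum : Summable vol := by
    rw [hvol]
    exact hsumσ.sigma
  have hvoltsum : ∑' s0, vol s0 ≤ V := by
    have e1 : ∑' x : (Σ s0 : ℕ, {i // s i = s0}), ∏ l, w x.2.1 l = ∑' i, ∏ l, w i l :=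
      (Equiv.sigmaFiberEquiv s).tsum_eq (fun i => ∏ l, w i l)
    have e2 : ∑' x : (Σ s0 : ℕ, {i // s i = s0}), ∏ l, w x.2.1 l =
        ∑' s0 : ℕ, ∑' i : {i // s i = s0}, ∏ l, w i.1 l := hsumσ.tsum_sigma
    rw [hvol]
    calc ∑' s0 : ℕ, ∑' i : {i // s i = s0}, ∏ l, w i.1 l = ∑' i, ∏ l, w i l := by
          rw [← e2, e1]
      _ ≤ V := htsum
  -- the packing of the bases of a class
  have hclass : ∀ s0 : ℕ, ∃ (N : ℕ) (bin : {i // s i = s0} → ℕ)
      (pos : {i // s i = s0} → Fin m → ℝ), (N : ℝ) ≤ C * (1 + 2 ^ (s0 + 1) * vol s0) ∧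
      (∀ i, bin i < N) ∧ (∀ i l, 0 ≤ pos i l ∧ pos i l + w i.1 l.castSucc ≤ 1) ∧
      ∀ i i', i ≠ i' → bin i = bin i' →
        ∃ l, pos i l + w i.1 l.castSucc ≤ pos i' l ∨ pos i' l + w i'.1 l.castSucc ≤ pos i l := by
    intro s0
    have hs0 : Summable fun i : {i // s i = s0} => ∏ l, w i.1 l := hsum.subtype _
    have e1 : ∀ i : {i // s i = s0}, ∏ l : Fin m, w i.1 l.castSucc ≤
        2 ^ (s0 + 1) * ∏ l, w i.1 l := by
      rintro ⟨i, hi⟩
      have := hle i
      rw [hi] at this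
      exact this
    have e2 : Summable fun i : {i // s i = s0} => ∏ l : Fin m, w i.1 l.castSucc :=
      Summable.of_nonneg_of_le (fun i => (hbase0 _).le) e1 (hs0.mul_left _)
    refine hm {i // s i = s0} (fun i l => w i.1 l.castSucc) (2 ^ (s0 + 1) * vol s0)
      (fun i l => hw _ _) e2 ?_
    rw [hvol]
    simp only
    rw [← tsum_mul_left]
    exact e2.tsum_le_tsum e1 (hs0.mul_left _)
  choose N bin pos hN hbinlt hpos hsep using hclass
  -- the slabs
  have hht : ∀ x : (Σ s0 : ℕ, Fin (N s0)), 0 < (1 / 2 : ℝ) ^ x.1 ∧ (1 / 2 : ℝ) ^ x.1 ≤ 1 :=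
    fun x => ⟨by positivity, pow_le_one₀ (by norm_num) (by norm_num)⟩
  have hinner : ∀ s0 : ℕ, ∑' _ : Fin (N s0), (1 / 2 : ℝ) ^ s0 = N s0 * (1 / 2 : ℝ) ^ s0 := by
    intro s0
    rw [tsum_fintype, Finset.sum_const, nsmul_eq_mul, Finset.card_univ, Fintype.card_fin]
  have hbd : ∀ s0 : ℕ, N s0 * (1 / 2 : ℝ) ^ s0 ≤ C * (1 / 2 : ℝ) ^ s0 + 2 * C * vol s0 := by
    intro s0
    calc N s0 * (1 / 2 : ℝ) ^ s0 ≤ C * (1 + 2 ^ (s0 + 1) * vol s0) * (1 / 2 : ℝ) ^ s0 := by
          gcongr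
          exact hN s0
      _ = C * (1 / 2 : ℝ) ^ s0 + 2 * C * vol s0 * (2 ^ s0 * (1 / 2 : ℝ) ^ s0) := by ring
      _ = _ := by
          rw [← mul_pow]
          norm_num
  have hgeo : Summable fun s0 : ℕ => C * (1 / 2 : ℝ) ^ s0 :=
    (summable_geometric_of_lt_one (by norm_num) (by norm_num)).mul_left _
  have hrhs : Summable fun s0 : ℕ => C * (1 / 2 : ℝ) ^ s0 + 2 * C * vol s0 :=
    hgeo.add (hvolsum.mul_left _)
  have hlhs : Summable fun s0 : ℕ => N s0 * (1 / 2 : ℝ) ^ s0 :=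
    Summable.of_nonneg_of_le (fun s0 => by positivity) hbd hrhs
  have hslab : Summable fun x : (Σ s0 : ℕ, Fin (N s0)) => (1 / 2 : ℝ) ^ x.1 := by
    rw [summable_sigma_of_nonneg (fun x => (hht x).1.le)]
    refine ⟨fun s0 => (hasSum_fintype _).summable, ?_⟩
    simp only [hinner]
    exact hlhs
  have hslabt : ∑' x : (Σ s0 : ℕ, Fin (N s0)), (1 / 2 : ℝ) ^ x.1 ≤ C * (2 + 2 * V) := by
    rw [hslab.tsum_sigma]
    simp only [hinner]
    calc ∑' s0 : ℕ, N s0 * (1 / 2 : ℝ) ^ s0
        ≤ ∑' s0 : ℕ, (C * (1 / 2 : ℝ) ^ s0 + 2 * C * vol s0) := hlhs.tsum_le_tsum hbd hrhs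
      _ = C * 2 + 2 * C * ∑' s0, vol s0 := by
          rw [hgeo.tsum_add (hvolsum.mul_left _), tsum_mul_left, tsum_mul_left,
            tsum_geometric_two]
      _ ≤ C * 2 + 2 * C * V := by gcongr
      _ = _ := by ring
  obtain ⟨M, binS, posS, hM, hbinS, hposS, hsepS⟩ := hbin (Σ s0 : ℕ, Fin (N s0))
    (fun x => (1 / 2 : ℝ) ^ x.1) (C * (2 + 2 * V)) hht hslab hslabt
  -- the slab of an item
  obtain ⟨slab, hslabdef⟩ : ∃ slab : ι → (Σ s0 : ℕ, Fin (N s0)),
      slab = fun i => ⟨s i, ⟨bin (s i) ⟨i, rfl⟩, hbinlt (s i) ⟨i, rfl⟩⟩⟩ := ⟨_, rfl⟩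
  have hslab1 : ∀ i, (slab i).1 = s i := fun i => by rw [hslabdef]
  obtain ⟨posF, hF1, hF2⟩ : ∃ posF : ι → Fin (m + 1) → ℝ,
      (∀ i (l : Fin m), posF i l.castSucc = pos (s i) ⟨i, rfl⟩ l) ∧
      ∀ i, posF i (Fin.last m) = posS (slab i) := by
    refine ⟨fun i => Fin.snoc (α := fun _ => ℝ) (fun l : Fin m => pos (s i) ⟨i, rfl⟩ l)
      (posS (slab i)), fun i l => ?_, fun i => ?_⟩
    · exact Fin.snoc_castSucc (α := fun _ => ℝ) _ _ _
    · exact Fin.snoc_last (α := fun _ => ℝ) _ _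
  refine ⟨M, fun i => binS (slab i), posF, ?_, fun i => hbinS _, ?_, ?_⟩
  · calc (M : ℝ) ≤ 2 * (C * (2 + 2 * V)) + 2 := hM
      _ ≤ (4 * C + 2) * (1 + V) := by nlinarith
  · intro i l
    induction l using Fin.lastCases with
    | last =>
      rw [hF2]
      have e1 := hposS (slab i)
      have e2 := hs2 i
      rw [hslab1 i] at e1
      exact ⟨e1.1, by linarith [e1.2]⟩
    | cast l =>
      rw [hF1]
      exact hpos (s i) ⟨i, rfl⟩ l
  · intro i i' hne hbb
    by_cases hsl : slab i = slab i'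
    · have hs : s i' = s i := by rw [← hslab1, ← hslab1, hsl]
      have hgen : ∀ (s0 : ℕ) (hi : s i' = s0),
          bin (s i') ⟨i', rfl⟩ = bin s0 ⟨i', hi⟩ ∧ pos (s i') ⟨i', rfl⟩ = pos s0 ⟨i', hi⟩ := by
        rintro _ rfl
        exact ⟨rfl, rfl⟩
      have hb : bin (s i) ⟨i, rfl⟩ = bin (s i) ⟨i', hs⟩ := by
        rw [← (hgen (s i) hs).1]
        have : ((slab i).2 : ℕ) = ((slab i').2 : ℕ) := by rw [hsl]
        rw [hslabdef] at this
        exact this
      obtain ⟨l, hl⟩ := hsep (s i) ⟨i, rfl⟩ ⟨i', hs⟩ (fun h => hne (congrArg Subtype.val h)) hb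
      refine ⟨l.castSucc, ?_⟩
      rw [hF1, hF1, (hgen (s i) hs).2]
      exact hl
    · refine ⟨Fin.last m, ?_⟩
      rw [hF2, hF2]
      have e1 := hsepS (slab i) (slab i') hsl hbb
      have e2 := hs2 i
      have e2' := hs2 i'
      rw [hslab1 i, hslab1 i'] at e1
      rcases e1 with e1 | e1
      · left; linarith
      · right; linarith

end Bins

theorem claimBins (h : ClaimBin1) : ClaimBins := by
  intro m
  induction m with
  | zero => exact ⟨1, one_pos, Bins.base⟩
  | succ m ih =>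
    obtain ⟨C, hC, hm⟩ := ih
    exact ⟨4 * C + 2, by positivity, Bins.step h m C hC hm⟩

end Pool.Agent.Potatoes

end

section

/-!
# The box lemma
-/

namespace Pool.Agent.Potatoes

open MeasureTheory Set Metric
open scoped RealInnerProductSpace

theorem claimBox (h1 : ClaimFlag) (h2 : ClaimFlagVol) : ClaimBox := by
  intro k hk
  refine ⟨2 ^ k * (k : ℝ) ^ k, by positivity, ?_⟩
  intro K hK hdiam
  obtain ⟨u, x₀, y, h, hfl⟩ := h1 k K hK
  have hvol := h2 k K u x₀ y h hk hK hfl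
  obtain ⟨hx0, hy, hpos, hyy, -, hbd⟩ := hfl
  have hne : K.Nonempty := ⟨x₀, hx0⟩
  have hcont : ∀ i, ContinuousOn (fun x : E k => ⟪u i, x⟫) K := fun i =>
    (continuous_const.inner continuous_id).continuousOn
  choose a ha hamin using fun i => hK.compact.exists_isMinOn hne (hcont i)
  choose b hb hbmax using fun i => hK.compact.exists_isMaxOn hne (hcont i)
  have hmin : ∀ i, ∀ x ∈ K, ⟪u i, a i⟫ ≤ ⟪u i, x⟫ := fun i x hx => hamin i hx
  have hmax : ∀ i, ∀ x ∈ K, ⟪u i, x⟫ ≤ ⟪u i, b i⟫ := fun i x hx => hbmax i hx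
  obtain ⟨w, hw⟩ : ∃ w : Fin k → ℝ, w = fun i => ⟪u i, b i⟫ - ⟪u i, a i⟫ := ⟨_, rfl⟩
  have hwi : ∀ i, w i = ⟪u i, b i⟫ - ⟪u i, a i⟫ := fun i => by rw [hw]
  have hwh : ∀ i, h i ≤ w i := by
    intro i
    rw [hwi]
    have e1 := hmax i _ (hy i)
    have e2 := hmin i _ hx0
    rw [inner_add_right, hyy i] at e1
    linarith
  have hw0 : ∀ i, 0 < w i := fun i => (hpos i).trans_le (hwh i)
  have hw1 : ∀ i, w i ≤ 1 := by
    intro i
    rw [hwi, ← inner_sub_right]
    calc ⟪u i, b i - a i⟫ ≤ ‖u i‖ * ‖b i - a i‖ := real_inner_le_norm _ _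
      _ = dist (b i) (a i) := by rw [u.orthonormal.1 i, one_mul, dist_eq_norm]
      _ ≤ diam K := dist_le_diam_of_mem hK.compact.isBounded (hb i) (ha i)
      _ ≤ 1 := hdiam
  have hw2 : ∀ i, w i ≤ 2 * h i := by
    intro i
    have e1 := hbd (b i) (hb i) i
    have e2 := hbd (a i) (ha i) i
    rw [abs_le, inner_sub_right] at e1 e2
    rw [hwi]
    linarith [e1.2, e2.1]
  have hprod : ∏ i, w i ≤ 2 ^ k * (k : ℝ) ^ k * volume.real K := by
    calc ∏ i, w i ≤ ∏ i, 2 * h i :=
          Finset.prod_le_prod (fun i _ => (hw0 i).le) (fun i _ => hw2 i)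
      _ = 2 ^ k * ∏ i, h i := by
          rw [Finset.prod_mul_distrib]
          simp
      _ ≤ 2 ^ k * ((k : ℝ) ^ k * volume.real K) := by
          gcongr
      _ = _ := by ring
  obtain ⟨σ, hσ⟩ : ∃ σ : Equiv.Perm (Fin k), Antitone (w ∘ σ) := by
    refine ⟨Tuple.sort (fun i => -w i), fun i j hij => ?_⟩
    have := Tuple.monotone_sort (fun i => -w i) hij
    simp only [Function.comp_apply] at this ⊢
    linarith
  refine ⟨u.reindex σ.symm, fun i => ⟪u (σ i), a (σ i)⟫, w ∘ σ, hσ,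
    fun i => ⟨hw0 _, hw1 _⟩, ?_, ?_⟩
  · intro x hx i
    rw [OrthonormalBasis.reindex_apply]
    simp only [Equiv.symm_symm, Function.comp_apply]
    refine ⟨hmin _ x hx, ?_⟩
    rw [hwi]
    have := hmax (σ i) x hx
    linarith
  · have : ∏ i, (w ∘ σ) i = ∏ i, w i := Equiv.prod_comp σ w
    rw [this]
    exact hprod

end Pool.Agent.Potatoes

end

section

/-!
# MP_72041b_co, item C3: the universal cover from the zero of an odd function
-/

namespace Pool.Agent.Potatoes

open MeasureTheory Set Metric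
open scoped RealInnerProductSpace

namespace Cover

variable {N : ℕ}

/-- The support function. -/
noncomputable def M (S : Set (E N)) (u : E N) : ℝ := sSup ((fun x : E N => ⟪u, x⟫) '' S)

theorem M_cont {S : Set (E N)} (hS : IsCompact S) : Continuous (M S) := by
  have h1 : Continuous (fun u : E N => sSup ((fun x : E N => ⟪u, x⟫) '' S)) :=
    hS.continuous_sSup (f := fun u x : E N => ⟪u, x⟫) continuous_inner
  exact h1

theorem le_M {S : Set (E N)} (hS : IsCompact S) (u : E N) {x : E N} (hx : x ∈ S) :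
    ⟪u, x⟫ ≤ M S u := by
  refine le_csSup ?_ (mem_image_of_mem _ hx)
  exact (hS.image (by fun_prop)).bddAbove

theorem M_att {S : Set (E N)} (hS : IsCompact S) (hne : S.Nonempty) (u : E N) :
    ∃ x ∈ S, M S u = ⟪u, x⟫ :=
  hS.exists_sSup_image_eq hne (by fun_prop)

theorem M_add {S : Set (E N)} (hS : IsCompact S) (hne : S.Nonempty)
    (hd : ∀ x ∈ S, ∀ y ∈ S, dist x y ≤ 1) (u : E N) : M S u + M S (-u) ≤ ‖u‖ := by
  obtain ⟨x, hx, h1⟩ := M_att hS hne u
  obtain ⟨y, hy, h2⟩ := M_att hS hne (-u)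
  rw [h1, h2, inner_neg_left, ← sub_eq_add_neg, ← inner_sub_right]
  calc ⟪u, x - y⟫ ≤ ‖u‖ * ‖x - y‖ := real_inner_le_norm _ _
    _ ≤ ‖u‖ * 1 := by
        refine mul_le_mul_of_nonneg_left ?_ (norm_nonneg _)
        rw [← dist_eq_norm]
        exact hd x hx y hy
    _ = ‖u‖ := mul_one _

theorem mid {S : Set (E N)} (hS : IsCompact S) (hne : S.Nonempty)
    (hd : ∀ x ∈ S, ∀ y ∈ S, dist x y ≤ 1) (u : E N) {x : E N} (hx : x ∈ S) :
    |⟪u, x⟫ - (M S u - M S (-u)) / 2| ≤ ‖u‖ / 2 := by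
  have h1 := le_M hS u hx
  have h2 := le_M hS (-u) hx
  have h3 := M_add hS hne hd u
  rw [inner_neg_left] at h2
  rw [abs_le]
  constructor <;> linarith

end Cover

theorem claimCover (h : ClaimZero) : ClaimCover := by
  intro N j p hp S hS hne hd
  obtain ⟨Q', hQ1, hQ2⟩ := h N j p hp (fun u => Cover.M S u - Cover.M S (-u))
    ((Cover.M_cont hS).sub ((Cover.M_cont hS).comp continuous_neg))
    (fun x => by simp only [neg_neg]; ring)
  have hinner : ∀ m : Fin (j + 1), ∀ c : Fin (j + 1) → ℝ, ∑ l, c l = 0 →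
      ⟪p m, ∑ l, c l • p l⟫ = c m := by
    intro m c hc
    rw [inner_sum]
    have h1 : ∀ l, ⟪p m, c l • p l⟫ = (if m = l then c l else 0) - c l * (1 / ((j : ℝ) + 1)) := by
      intro l
      rw [real_inner_smul_right, hp m l]
      split_ifs <;> ring
    simp only [h1]
    rw [Finset.sum_sub_distrib, ← Finset.sum_mul, hc]
    simp
  set c : Fin (j + 1) → ℝ := fun l =>
    -((Cover.M S (Q' (p l)) - Cover.M S (-(Q' (p l)))) / 2) with hc
  have hc0 : ∑ l, c l = 0 := by
    have h1 : ∑ l, c l = -((∑ l, (Cover.M S (Q' (p l)) - Cover.M S (-(Q' (p l))))) / 2) := by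
      rw [Finset.sum_div, ← Finset.sum_neg_distrib]
    rw [h1, hQ2]
    simp
  refine ⟨Q'.symm, ∑ l, c l • p l, ?_, ?_⟩
  · intro x hx
    refine ⟨?_, ?_⟩
    · have h1 := hQ1 x hx
      conv_lhs => rw [← h1]
      exact Q'.symm_apply_apply x
    · rw [inner_sum]
      refine Finset.sum_eq_zero fun l _ => ?_
      rw [real_inner_smul_right, real_inner_comm, hx l, mul_zero]
  · intro x hx m
    have h1 : ⟪p m, Q'.symm x⟫ = ⟪Q' (p m), x⟫ := by
      rw [← Q'.inner_map_map (p m) (Q'.symm x), Q'.apply_symm_apply]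
    have h2 : ‖Q' (p m)‖ = √((j : ℝ) / (j + 1)) := by
      rw [Q'.norm_map, ← Real.sqrt_sq (norm_nonneg (p m)), ← real_inner_self_eq_norm_sq, hp m m]
      congr 1
      have h3 : (0 : ℝ) < (j : ℝ) + 1 := by positivity
      simp only [if_true]
      field_simp
      ring
    rw [inner_add_right, hinner m c hc0, h1, ← h2]
    exact Cover.mid hS hne hd (Q' (p m)) hx

end Pool.Agent.Potatoes

end

section

/-!
# MP_72041b_co: a flat disc in the cube
-/

namespace Pool.Agent.Potatoes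

open MeasureTheory Set Metric
open scoped RealInnerProductSpace

namespace Disc

theorem norm_sq_eq {n : ℕ} (x : E (n + 1)) : ‖x‖ ^ 2 = ∑ i, x i ^ 2 := by
  rw [EuclideanSpace.norm_sq_eq]
  exact Finset.sum_congr rfl fun i _ => by rw [Real.norm_eq_abs, sq_abs]

theorem abs_coord_le {n : ℕ} (x : E (n + 1)) (i : Fin (n + 1)) : |x i| ≤ ‖x‖ := by
  have h1 : x i ^ 2 ≤ ‖x‖ ^ 2 := by
    rw [norm_sq_eq]
    exact Finset.single_le_sum (f := fun i => x i ^ 2) (fun j _ => sq_nonneg (x j))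
      (Finset.mem_univ i)
  exact abs_le_of_sq_le_sq h1 (norm_nonneg x)

theorem inner_eq {n : ℕ} (x y : E (n + 1)) : ⟪x, y⟫ = ∑ i, x i * y i := by
  rw [PiLp.inner_apply]
  exact Finset.sum_congr rfl fun i _ => by
    simp [mul_comm]

/-- The centre and the direction. -/
theorem coord {n : ℕ} {s : ℝ} {ν z : E (n + 1)} (hν : ‖ν‖ = 1)
    (H : ∀ x, ⟪ν, x⟫ = 0 → ‖x‖ ≤ 1 / 2 → z + x ∈ stdCube (n + 1) s) (i : Fin (n + 1)) :
    |z i| + √(1 - ν i ^ 2) / 2 ≤ s / 2 := by
  have hνi : ν i ^ 2 ≤ 1 := by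
    have := abs_coord_le ν i
    rw [hν] at this
    nlinarith [abs_nonneg (ν i), sq_abs (ν i)]
  have hr0 : 0 ≤ √(1 - ν i ^ 2) := Real.sqrt_nonneg _
  have hr2 : √(1 - ν i ^ 2) ^ 2 = 1 - ν i ^ 2 := Real.sq_sqrt (by linarith)
  rcases hr0.eq_or_lt with h0 | hpos
  · rw [← h0, zero_div, add_zero]
    have := H 0 (inner_zero_right _) (by simp) i
    simpa using this
  · set r := √(1 - ν i ^ 2) with hr
    have hνν : ⟪ν, ν⟫ = 1 := by
      rw [real_inner_self_eq_norm_sq, hν]; norm_num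
    have hνe : ⟪ν, EuclideanSpace.single i (1 : ℝ)⟫ = ν i := by
      rw [inner_eq]
      rw [Finset.sum_eq_single i]
      · simp
      · intro j _ hj
        simp [hj]
      · simp
    have hee : ⟪(EuclideanSpace.single i (1 : ℝ) : E (n + 1)), EuclideanSpace.single i (1 : ℝ)⟫
        = 1 := by
      rw [inner_eq]
      rw [Finset.sum_eq_single i]
      · simp
      · intro j _ hj
        simp [hj]
      · simp
    set w : E (n + 1) := EuclideanSpace.single i (1 : ℝ) - ν i • ν with hw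
    have hw1 : ⟪ν, w⟫ = 0 := by
      rw [hw, inner_sub_right, inner_smul_right, hνν, hνe]
      ring
    have hw2 : ‖w‖ ^ 2 = r ^ 2 := by
      rw [← real_inner_self_eq_norm_sq, hr2, hw, inner_sub_left, inner_sub_right, inner_sub_right,
        inner_smul_left, inner_smul_left, inner_smul_right, inner_smul_right, hνν, hee, hνe,
        real_inner_comm, hνe]
      simp
      ring
    have hw3 : ‖w‖ = r := (pow_left_inj₀ (norm_nonneg w) hpos.le two_ne_zero).mp hw2
    have hwi : w i = r ^ 2 := by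
      rw [hr2, hw]
      simp
      ring
    have hx : ∀ ε : ℝ, |ε| = 1 → |z i + ε * (r / 2)| ≤ s / 2 := by
      intro ε hε
      have h1 := H ((ε / (2 * r)) • w) (by rw [inner_smul_right, hw1, mul_zero]) (by
        rw [norm_smul, hw3, Real.norm_eq_abs, abs_div, hε, abs_of_pos (by positivity)]
        field_simp
        norm_num) i
      have h2 : (z + (ε / (2 * r)) • w) i = z i + ε * (r / 2) := by
        simp only [PiLp.add_apply, PiLp.smul_apply, smul_eq_mul, hwi]
        field_simp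
      rw [h2] at h1
      exact h1
    have h1 := abs_le.mp (hx 1 (by norm_num))
    have h2 := abs_le.mp (hx (-1) (by norm_num))
    rcases abs_cases (z i) with ⟨h3, -⟩ | ⟨h3, -⟩
    · rw [h3]; linarith [h1.2]
    · rw [h3]; linarith [h2.1]

end Disc

open Disc in
theorem claimDisc : ClaimDisc := by
  intro n hn s ν z hν H
  set k : ℝ := (n : ℝ) + 1 with hk
  have hn1 : (1 : ℝ) ≤ n := by exact_mod_cast hn
  have hk2 : 2 ≤ k := by rw [hk]; linarith
  have hc := coord hν H
  have hνsum : ∑ i, ν i ^ 2 = 1 := by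
    rw [← norm_sq_eq, hν]; norm_num
  have hν1 : ∀ i, ν i ^ 2 ≤ 1 := fun i => by
    rw [← hνsum]
    exact Finset.single_le_sum (f := fun i => ν i ^ 2) (fun j _ => sq_nonneg (ν j))
      (Finset.mem_univ i)
  have hr0 : ∀ i, 0 ≤ √(1 - ν i ^ 2) := fun i => Real.sqrt_nonneg _
  have hr2 : ∀ i, √(1 - ν i ^ 2) ^ 2 = 1 - ν i ^ 2 := fun i =>
    Real.sq_sqrt (by linarith [hν1 i])
  have hrs : ∀ i, √(1 - ν i ^ 2) ≤ s := fun i => by
    have := hc i
    have h2 := abs_nonneg (z i)
    linarith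
  have hs0 : 0 ≤ s := (hr0 0).trans (hrs 0)
  have hle : ∀ i, 1 - ν i ^ 2 ≤ s ^ 2 := fun i => by
    rw [← hr2 i]
    exact pow_le_pow_left₀ (hr0 i) (hrs i) 2
  have hcard : ((Finset.univ : Finset (Fin (n + 1))).card : ℝ) = k := by
    rw [Finset.card_univ, Fintype.card_fin, hk]
    push_cast
    ring
  have hns : (n : ℝ) ≤ k * s ^ 2 := by
    have h1 : ∑ i : Fin (n + 1), (1 - ν i ^ 2) ≤ ∑ _i : Fin (n + 1), s ^ 2 :=
      Finset.sum_le_sum fun i _ => hle i
    rw [Finset.sum_sub_distrib, hνsum, Finset.sum_const, Finset.sum_const, nsmul_eq_mul,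
      nsmul_eq_mul, hcard] at h1
    rw [hk] at h1 ⊢
    linarith
  have hk0 : 0 < k := by linarith
  have hθ0 : (n : ℝ) / k ≤ s ^ 2 := by
    rw [div_le_iff₀ hk0]
    linarith
  have hs2 : (1 : ℝ) / 2 ≤ s ^ 2 := by
    refine le_trans ?_ hθ0
    rw [div_le_div_iff₀ (by norm_num) hk0, hk]
    linarith
  have hs : 1 / 2 ≤ s := by nlinarith
  refine ⟨by linarith, hθ0, ?_⟩
  set θ : ℝ := s ^ 2 - (n : ℝ) / k with hθ
  have hθn : 0 ≤ θ := by rw [hθ]; linarith
  have hnk : (n : ℝ) / k = 1 - 1 / k := by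
    rw [hk]
    field_simp
    ring
  have hlow : ∀ i, 1 / k - θ ≤ ν i ^ 2 := fun i => by
    have := hle i
    rw [hθ, hnk]
    linarith
  have hup : ∀ i, ν i ^ 2 ≤ 1 / k + (k - 1) * θ := by
    intro i
    have h1 : ∑ j ∈ Finset.univ.erase i, ν j ^ 2 + ν i ^ 2 = 1 := by
      rw [Finset.sum_erase_add _ _ (Finset.mem_univ i), hνsum]
    have h2 : ∑ _j ∈ Finset.univ.erase i, (1 / k - θ) ≤ ∑ j ∈ Finset.univ.erase i, ν j ^ 2 :=
      Finset.sum_le_sum fun j _ => hlow j
    rw [Finset.sum_const, nsmul_eq_mul, Finset.card_erase_of_mem (Finset.mem_univ i),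
      Finset.card_univ, Fintype.card_fin, Nat.add_sub_cancel] at h2
    have h3 : (n : ℝ) * (1 / k - θ) = 1 - 1 / k - (k - 1) * θ := by
      have : (n : ℝ) * (1 / k) = 1 - 1 / k := by rw [← hnk]; ring
      rw [mul_sub, this, hk]
      ring
    rw [h3] at h2
    linarith
  have habs : ∀ i, |√k * |ν i| - 1| ≤ k * (k - 1) * θ := by
    intro i
    have h1 : |k * ν i ^ 2 - 1| ≤ k * (k - 1) * θ := by
      have h3 := mul_le_mul_of_nonneg_left (hup i) hk0.le
      have h4 := mul_le_mul_of_nonneg_left (hlow i) hk0.le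
      have h5 : k * (1 / k) = 1 := by field_simp
      have h6 : k * θ ≤ k * (k - 1) * θ := by
        have : k * (k - 1) * θ - k * θ = k * θ * (k - 2) := by ring
        have h7 : 0 ≤ k * θ * (k - 2) := mul_nonneg (mul_nonneg hk0.le hθn) (by linarith)
        linarith
      rw [abs_le]
      constructor
      · rw [mul_sub, h5] at h4
        linarith
      · rw [mul_add, h5] at h3
        have h8 : k * ((k - 1) * θ) = k * (k - 1) * θ := by ring
        linarith
    have h2 : k * ν i ^ 2 - 1 = (√k * |ν i| - 1) * (√k * |ν i| + 1) := by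
      have : √k ^ 2 = k := Real.sq_sqrt hk0.le
      have h3 : |ν i| ^ 2 = ν i ^ 2 := sq_abs _
      linear_combination (-(|ν i| ^ 2)) * this - k * h3
    rw [h2, abs_mul] at h1
    have h3 : 1 ≤ |√k * |ν i| + 1| := by
      rw [abs_of_nonneg (by positivity)]
      have : 0 ≤ √k * |ν i| := by positivity
      linarith
    refine le_trans ?_ h1
    exact le_mul_of_one_le_right (abs_nonneg _) h3
  have hz : ∀ i, |z i| ≤ k * θ := by
    intro i
    have h1 := hc i
    have h2 := hr0 i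
    have h3 : (s - √(1 - ν i ^ 2)) * (s + √(1 - ν i ^ 2)) ≤ k * θ := by
      have h4 : (s - √(1 - ν i ^ 2)) * (s + √(1 - ν i ^ 2)) = s ^ 2 - (1 - ν i ^ 2) := by
        linear_combination -(hr2 i)
      rw [h4]
      have h5 := hup i
      have h6 : s ^ 2 = θ + (1 - 1 / k) := by rw [hθ, hnk]; ring
      rw [h6]
      linarith
    have h7 : (s - √(1 - ν i ^ 2)) * (1 / 2) ≤ (s - √(1 - ν i ^ 2)) * (s + √(1 - ν i ^ 2)) :=
      mul_le_mul_of_nonneg_left (by linarith) (by linarith [hrs i])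
    linarith
  -- the signs
  refine ⟨fun i => if 0 ≤ ν i then 1 else -1, fun i => ?_, fun x hx hx2 => ?_⟩
  · simp only
    split_ifs
    · exact Or.inl rfl
    · exact Or.inr rfl
  have hσν : ∀ i, (if 0 ≤ ν i then (1 : ℝ) else -1) * ν i = |ν i| := fun i => by
    split_ifs with h
    · rw [abs_of_nonneg h, one_mul]
    · rw [abs_of_neg (not_le.mp h)]; ring
  have hσ1 : ∀ i, |(if 0 ≤ ν i then (1 : ℝ) else -1)| = 1 := fun i => by
    split_ifs <;> norm_num
  have hσd : ∀ i, |(if 0 ≤ ν i then (1 : ℝ) else -1) - √k * ν i| ≤ k * (k - 1) * θ := by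
    intro i
    refine le_trans (le_of_eq ?_) (habs i)
    rw [← abs_neg (√k * |ν i| - 1), ← hσν i]
    split_ifs with h
    · congr 1; ring
    · rw [← abs_neg]
      congr 1; ring
  have e1 : ∑ i, (if 0 ≤ ν i then (1 : ℝ) else -1) * (z + x) i =
      ∑ i, (if 0 ≤ ν i then (1 : ℝ) else -1) * z i +
        ∑ i, ((if 0 ≤ ν i then (1 : ℝ) else -1) - √k * ν i) * x i := by
    have h1 : ∑ i, ν i * x i = 0 := by rw [← inner_eq, hx]
    have h2 : ∑ i, ((if 0 ≤ ν i then (1 : ℝ) else -1) - √k * ν i) * x i =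
        ∑ i, (if 0 ≤ ν i then (1 : ℝ) else -1) * x i - √k * ∑ i, ν i * x i := by
      rw [Finset.mul_sum, ← Finset.sum_sub_distrib]
      exact Finset.sum_congr rfl fun i _ => by ring
    rw [h2, h1, mul_zero, sub_zero, ← Finset.sum_add_distrib]
    refine Finset.sum_congr rfl fun i _ => ?_
    rw [PiLp.add_apply]
    ring
  simp only
  rw [e1]
  have b1 : |∑ i, (if 0 ≤ ν i then (1 : ℝ) else -1) * z i| ≤ k * (k * θ) := by
    refine (Finset.abs_sum_le_sum_abs _ _).trans ?_
    have : ∀ i ∈ (Finset.univ : Finset (Fin (n + 1))),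
        |(if 0 ≤ ν i then (1 : ℝ) else -1) * z i| ≤ k * θ := fun i _ => by
      rw [abs_mul, hσ1, one_mul]
      exact hz i
    refine (Finset.sum_le_sum this).trans (le_of_eq ?_)
    rw [Finset.sum_const, nsmul_eq_mul, hcard]
  have b2 : |∑ i, ((if 0 ≤ ν i then (1 : ℝ) else -1) - √k * ν i) * x i| ≤
      k * (k * (k - 1) * θ * (1 / 2)) := by
    refine (Finset.abs_sum_le_sum_abs _ _).trans ?_
    have : ∀ i ∈ (Finset.univ : Finset (Fin (n + 1))),
        |((if 0 ≤ ν i then (1 : ℝ) else -1) - √k * ν i) * x i| ≤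
          k * (k - 1) * θ * (1 / 2) := fun i _ => by
      rw [abs_mul]
      refine mul_le_mul (hσd i) ((abs_coord_le x i).trans hx2) (abs_nonneg _) ?_
      exact (abs_nonneg _).trans (hσd i)
    refine (Finset.sum_le_sum this).trans (le_of_eq ?_)
    rw [Finset.sum_const, nsmul_eq_mul, hcard]
  refine (abs_add_le _ _).trans ((add_le_add b1 b2).trans ?_)
  have h9 : 2 * k ^ 3 * θ - (k * (k * θ) + k * (k * (k - 1) * θ * (1 / 2))) =
      k ^ 2 * θ * (3 / 2 * k - 1 / 2) := by ring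
  have h10 : 0 ≤ k ^ 2 * θ * (3 / 2 * k - 1 / 2) :=
    mul_nonneg (mul_nonneg (by positivity) hθn) (by linarith)
  linarith

end Pool.Agent.Potatoes

end

section

/-!
# MP_72041b_co, item A1: greedy data of a convex body
-/

namespace Pool.Agent.Potatoes

open MeasureTheory Set Metric
open scoped RealInnerProductSpace

namespace Flag

/-- Partial greedy data with `m` vectors. -/
structure Part {k : ℕ} (K : Set (E k)) (x₀ : E k) (m : ℕ) (v : Fin m → E k)
    (y : Fin m → E k) (h : Fin m → ℝ) : Prop where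
  orth : ∀ i j, ⟪v i, v j⟫ = if i = j then 1 else 0
  mem : ∀ i, x₀ + y i ∈ K
  pos : ∀ i, 0 < h i
  diag : ∀ i, ⟪v i, y i⟫ = h i
  upper : ∀ i l, i < l → ⟪v l, y i⟫ = 0
  bound : ∀ x ∈ K, ∀ i, |⟪v i, x - x₀⟫| ≤ h i
  span : ∀ i, y i ∈ Submodule.span ℝ (range v)

theorem step {k : ℕ} (K : Set (E k)) (hK : IsBody K) (x₀ : E k) (hx₀ : x₀ ∈ K) (m : ℕ)
    (hm : m < k) (v y : Fin m → E k) (h : Fin m → ℝ) (hP : Part K x₀ m v y h) :
    ∃ v' y' h', Part K x₀ (m + 1) v' y' h' := by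
  set S : Submodule ℝ (E k) := Submodule.span ℝ (range v) with hS
  have hon : Orthonormal ℝ v := by
    rw [orthonormal_iff_ite]
    exact hP.orth
  -- the residual
  set R : E k → E k := fun z => z - S.starProjection z with hR
  have hRc : Continuous R := continuous_id.sub S.starProjection.continuous
  have hRo : ∀ z, R z ∈ Sᗮ := fun z => Submodule.sub_starProjection_mem_orthogonal z
  have hin : ∀ w ∈ Sᗮ, ∀ z, ⟪w, z⟫ = ⟪w, R z⟫ := by
    intro w hw z
    have h1 : ⟪w, S.starProjection z⟫ = 0 :=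
      Submodule.inner_left_of_mem_orthogonal (S.starProjection_apply_mem z) hw
    rw [hR]
    simp only [inner_sub_right, h1, sub_zero]
  obtain ⟨xs, hxs, hmax⟩ := hK.compact.exists_isMaxOn ⟨x₀, hx₀⟩
    (f := fun x => ‖R (x - x₀)‖)
    ((hRc.comp (continuous_id.sub continuous_const)).norm.continuousOn)
  set hh : ℝ := ‖R (xs - x₀)‖ with hhh
  have hle : ∀ x ∈ K, ‖R (x - x₀)‖ ≤ hh := fun x hx => hmax hx
  have hpos : 0 < hh := by
    rcases eq_or_lt_of_le (norm_nonneg (R (xs - x₀))) with h0 | h0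
    · exfalso
      have hsub : ∀ x ∈ K, x - x₀ ∈ S := by
        intro x hx
        have h1 := hle x hx
        rw [hhh, ← h0] at h1
        have h2 : R (x - x₀) = 0 := norm_le_zero_iff.mp h1
        have h3 : x - x₀ = S.starProjection (x - x₀) := sub_eq_zero.mp h2
        rw [h3]
        exact S.starProjection_apply_mem _
      have hint : (interior (S : Set (E k))).Nonempty := by
        obtain ⟨z, hz⟩ := hK.inner
        refine ⟨z - x₀, ?_⟩
        rw [mem_interior_iff_mem_nhds] at hz ⊢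
        have hcont : Filter.Tendsto (fun w : E k => w + x₀) (nhds (z - x₀)) (nhds z) := by
          have hc : Continuous (fun w : E k => w + x₀) := by fun_prop
          have := hc.tendsto (z - x₀)
          rwa [sub_add_cancel] at this
        filter_upwards [hcont hz] with w hw
        have := hsub _ hw
        simpa using this
      have htop := Submodule.eq_top_of_nonempty_interior' S hint
      have h4 : Module.finrank ℝ S = m := by
        rw [hS, finrank_span_eq_card hon.linearIndependent, Fintype.card_fin]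
      rw [htop, finrank_top, finrank_euclideanSpace, Fintype.card_fin] at h4
      omega
    · exact h0
  set e : E k := hh⁻¹ • R (xs - x₀) with he
  have heo : e ∈ Sᗮ := Sᗮ.smul_mem _ (hRo _)
  have hen : ‖e‖ = 1 := by
    rw [he, norm_smul, norm_inv, Real.norm_eq_abs, abs_of_pos hpos, ← hhh]
    exact inv_mul_cancel₀ hpos.ne'
  have hev : ∀ i, ⟪e, v i⟫ = 0 := fun i =>
    Submodule.inner_left_of_mem_orthogonal (Submodule.subset_span (mem_range_self i)) heo
  have hve : ∀ i, ⟪v i, e⟫ = 0 := fun i =>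
    Submodule.inner_right_of_mem_orthogonal (Submodule.subset_span (mem_range_self i)) heo
  have hspan : Submodule.span ℝ (range (Fin.snoc v e : Fin (m + 1) → E k)) = S ⊔ Submodule.span ℝ {e} := by
    rw [hS, ← Submodule.span_union]
    congr 1
    ext z
    simp only [mem_range, mem_union, mem_singleton_iff]
    constructor
    · rintro ⟨i, rfl⟩
      refine Fin.lastCases ?_ (fun j => ?_) i
      · right
        simp
      · left
        exact ⟨j, by simp⟩
    · rintro (⟨j, rfl⟩ | rfl)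
      · exact ⟨j.castSucc, by simp⟩
      · exact ⟨Fin.last m, by simp⟩
  refine ⟨Fin.snoc v e, Fin.snoc y (xs - x₀), Fin.snoc h hh, ?_⟩
  constructor
  · intro i j
    refine Fin.lastCases ?_ (fun i' => ?_) i <;> refine Fin.lastCases ?_ (fun j' => ?_) j
    · simp only [Fin.snoc_last, if_true]
      rw [real_inner_self_eq_norm_sq, hen]
      norm_num
    · simp only [Fin.snoc_last, Fin.snoc_castSucc]
      rw [hev, if_neg (Fin.castSucc_lt_last j').ne']
    · simp only [Fin.snoc_last, Fin.snoc_castSucc]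
      rw [hve, if_neg (Fin.castSucc_lt_last i').ne]
    · simp only [Fin.snoc_castSucc, Fin.castSucc_inj]
      exact hP.orth i' j'
  · intro i
    refine Fin.lastCases ?_ (fun i' => ?_) i
    · simp only [Fin.snoc_last, add_sub_cancel]
      exact hxs
    · simp only [Fin.snoc_castSucc]
      exact hP.mem i'
  · intro i
    refine Fin.lastCases ?_ (fun i' => ?_) i
    · simp only [Fin.snoc_last]
      exact hpos
    · simp only [Fin.snoc_castSucc]
      exact hP.pos i'
  · intro i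
    refine Fin.lastCases ?_ (fun i' => ?_) i
    · simp only [Fin.snoc_last]
      rw [hin e heo, he, inner_smul_left, real_inner_self_eq_norm_sq, ← hhh]
      simp only [conj_trivial]
      field_simp
    · simp only [Fin.snoc_castSucc]
      exact hP.diag i'
  · intro i l hil
    revert hil
    refine Fin.lastCases ?_ (fun i' => ?_) i <;> refine Fin.lastCases ?_ (fun l' => ?_) l
    · intro hc
      exact absurd hc (lt_irrefl _)
    · intro hc
      exact absurd hc (Fin.castSucc_lt_last l').not_gt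
    · intro _
      simp only [Fin.snoc_last, Fin.snoc_castSucc]
      exact Submodule.inner_left_of_mem_orthogonal (hP.span i') heo
    · intro hc
      simp only [Fin.snoc_castSucc]
      exact hP.upper i' l' (Fin.castSucc_lt_castSucc_iff.mp hc)
  · intro x hx i
    refine Fin.lastCases ?_ (fun i' => ?_) i
    · simp only [Fin.snoc_last]
      rw [hin e heo]
      calc |⟪e, R (x - x₀)⟫| ≤ ‖e‖ * ‖R (x - x₀)‖ := abs_real_inner_le_norm _ _
        _ ≤ hh := by
            rw [hen, one_mul]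
            exact hle x hx
    · simp only [Fin.snoc_castSucc]
      exact hP.bound x hx i'
  · intro i
    rw [hspan]
    refine Fin.lastCases ?_ (fun i' => ?_) i
    · simp only [Fin.snoc_last]
      have h1 : xs - x₀ = S.starProjection (xs - x₀) + hh • e := by
        rw [he, smul_smul, mul_inv_cancel₀ hpos.ne', one_smul, hR]
        simp
      rw [h1]
      refine Submodule.add_mem_sup (S.starProjection_apply_mem _) ?_
      exact Submodule.smul_mem _ _ (Submodule.mem_span_singleton_self e)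
    · simp only [Fin.snoc_castSucc]
      exact Submodule.mem_sup_left (hP.span i')

theorem exists_part {k : ℕ} (K : Set (E k)) (hK : IsBody K) (x₀ : E k) (hx₀ : x₀ ∈ K) (m : ℕ)
    (hm : m ≤ k) : ∃ v y h, Part K x₀ m v y h := by
  induction m with
  | zero =>
    refine ⟨fun i => i.elim0, fun i => i.elim0, fun i => i.elim0, ?_⟩
    constructor
    · exact fun i => i.elim0
    · exact fun i => i.elim0
    · exact fun i => i.elim0
    · exact fun i => i.elim0
    · exact fun i => i.elim0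
    · exact fun _ _ i => i.elim0
    · exact fun i => i.elim0
  | succ m ih =>
    obtain ⟨v, y, h, hP⟩ := ih (by omega)
    exact step K hK x₀ hx₀ m (by omega) v y h hP

end Flag

theorem claimFlag : ClaimFlag := by
  intro k K hK
  obtain ⟨x₀, hx₀⟩ := hK.inner.mono interior_subset
  obtain ⟨v, y, h, hP⟩ := Flag.exists_part K hK x₀ hx₀ k le_rfl
  have hon : Orthonormal ℝ v := by
    rw [orthonormal_iff_ite]
    exact hP.orth
  have hsp : ⊤ ≤ Submodule.span ℝ (range v) := by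
    rw [hon.linearIndependent.span_eq_top_of_card_eq_finrank' (by simp)]
  refine ⟨OrthonormalBasis.mk hon hsp, x₀, y, h, ?_⟩
  refine ⟨hx₀, hP.mem, hP.pos, ?_, ?_, ?_⟩
  · simp only [OrthonormalBasis.coe_mk]
    exact hP.diag
  · simp only [OrthonormalBasis.coe_mk]
    exact hP.upper
  · simp only [OrthonormalBasis.coe_mk]
    exact hP.bound

end Pool.Agent.Potatoes

end

section

/-!
# MP_72041b_co: volume bound from greedy data
-/

namespace Pool.Agent.Potatoes

open MeasureTheory Set Metric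
open scoped RealInnerProductSpace

namespace FlagVol

/-- The average of the points of the segments lies in the body. -/
theorem mem_conv {k : ℕ} (hk : 0 < k) {K : Set (E k)} (hK : Convex ℝ K) {x₀ : E k}
    {y : Fin k → E k} (h0 : x₀ ∈ K) (hy : ∀ i, x₀ + y i ∈ K) {t : Fin k → ℝ}
    (ht : t ∈ Icc (fun _ => (0 : ℝ)) (fun _ : Fin k => 1 / (k : ℝ))) :
    x₀ + ∑ i, t i • y i ∈ K := by
  have hk' : (0 : ℝ) < k := by exact_mod_cast hk
  have h1 : ∀ i, x₀ + ((k : ℝ) * t i) • y i ∈ K := by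
    intro i
    have ha : 0 ≤ (k : ℝ) * t i := mul_nonneg hk'.le (ht.1 i)
    have hb : (k : ℝ) * t i ≤ 1 := by
      have := mul_le_mul_of_nonneg_left (ht.2 i) hk'.le
      simpa [hk'.ne'] using this
    have h2 := hK h0 (hy i) (sub_nonneg.2 hb) ha (by ring)
    have h3 : (1 - (k : ℝ) * t i) • x₀ + ((k : ℝ) * t i) • (x₀ + y i) =
        x₀ + ((k : ℝ) * t i) • y i := by
      module
    rwa [h3] at h2
  have h2 : ∑ i : Fin k, (1 / (k : ℝ)) • (x₀ + ((k : ℝ) * t i) • y i) ∈ K := by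
    refine hK.sum_mem (fun _ _ => by positivity) ?_ fun i _ => h1 i
    simp [hk'.ne']
  have h3 : ∑ i : Fin k, (1 / (k : ℝ)) • (x₀ + ((k : ℝ) * t i) • y i) =
      x₀ + ∑ i, t i • y i := by
    have h4 : ∀ i, (1 / (k : ℝ)) • (x₀ + ((k : ℝ) * t i) • y i) =
        (1 / (k : ℝ)) • x₀ + t i • y i := by
      intro i
      rw [smul_add, smul_smul]
      congr 2
      field_simp
    rw [Finset.sum_congr rfl fun i _ => h4 i, Finset.sum_add_distrib]
    congr 1
    rw [Finset.sum_const, Finset.card_univ, Fintype.card_fin, ← Nat.cast_smul_eq_nsmul ℝ,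
      smul_smul]
    rw [mul_one_div_cancel hk'.ne', one_smul]
  rwa [h3] at h2

/-- Coordinates centred at `x₀`. -/
noncomputable def psi {k : ℕ} (u : OrthonormalBasis (Fin k) ℝ (E k)) (x₀ : E k)
    (t : Fin k → ℝ) : E k :=
  x₀ + u.repr.symm (WithLp.toLp 2 t)

theorem psi_mp {k : ℕ} (u : OrthonormalBasis (Fin k) ℝ (E k)) (x₀ : E k) :
    MeasurePreserving (psi u x₀) volume volume :=
  (measurePreserving_add_left volume x₀).comp
    ((u.repr.symm.measurePreserving).comp (PiLp.volume_preserving_toLp (Fin k)))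

end FlagVol

open FlagVol in
/-- Volume bound from greedy data. -/
theorem claimFlagVol : ClaimFlagVol := by
  intro k K u x₀ y h hk hK hF
  obtain ⟨h0, hy, hh, hd, ht, -⟩ := hF
  have hk' : (0 : ℝ) < k := by exact_mod_cast hk
  set M : Matrix (Fin k) (Fin k) ℝ := Matrix.of fun l i => ⟪u l, y i⟫ with hM
  have hdet : M.det = ∏ i, h i := by
    rw [Matrix.det_of_isUpperTriangular]
    · exact Finset.prod_congr rfl fun i _ => hd i
    · intro l i hil
      exact ht i l hil
  have hsub : (Matrix.toLin' M) '' (Icc (fun _ => (0 : ℝ)) (fun _ : Fin k => 1 / (k : ℝ))) ⊆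
      psi u x₀ ⁻¹' K := by
    rintro _ ⟨t, htt, rfl⟩
    have h1 := mem_conv hk hK.convex h0 hy htt
    have h2 : psi u x₀ (Matrix.toLin' M t) = x₀ + ∑ i, t i • y i := by
      unfold psi
      congr 1
      rw [LinearIsometryEquiv.symm_apply_eq]
      ext l
      rw [OrthonormalBasis.repr_apply_apply, inner_sum]
      simp only [Matrix.toLin'_apply, Matrix.mulVec, dotProduct, hM, Matrix.of_apply, inner_smul_right]
      exact Finset.sum_congr rfl fun i _ => mul_comm _ _
    rw [mem_preimage, h2]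
    exact h1
  have hv := measure_mono (μ := volume) hsub
  rw [Measure.addHaar_image_linearMap, LinearMap.det_toLin', hdet,
    (psi_mp u x₀).measure_preimage hK.compact.measurableSet.nullMeasurableSet,
    Real.volume_Icc_pi] at hv
  have hfin : volume K ≠ ⊤ := hK.compact.measure_lt_top.ne
  have hv' := ENNReal.toReal_mono hfin hv
  have hp : 0 ≤ ∏ i, h i := Finset.prod_nonneg fun i _ => (hh i).le
  rw [ENNReal.toReal_mul, ENNReal.toReal_ofReal (abs_nonneg _), abs_of_nonneg hp,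
    ENNReal.toReal_prod] at hv'
  simp only [sub_zero, Finset.prod_const, Finset.card_univ, Fintype.card_fin] at hv'
  rw [ENNReal.toReal_ofReal (by positivity)] at hv'
  have h3 : ∏ i, h i = (k : ℝ) ^ k * ((∏ i, h i) * (1 / (k : ℝ)) ^ k) := by
    rw [mul_left_comm, ← mul_pow, mul_one_div_cancel hk'.ne', one_pow, mul_one]
  rw [h3]
  exact mul_le_mul_of_nonneg_left hv' (by positivity)

end Pool.Agent.Potatoes

end

section

/-!
# MP_72041b_co, item C4: the Helmert basis
-/

namespace Pool.Agent.Potatoes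

open MeasureTheory Set Metric
open scoped RealInnerProductSpace

namespace HelmertAux

/-- Entries of the Helmert vectors. -/
noncomputable def H (i l : ℕ) : ℝ :=
  if l ≤ i then 1 / √(((i : ℝ) + 1) * (i + 2))
  else if l = i + 1 then -((i : ℝ) + 1) / √(((i : ℝ) + 1) * (i + 2)) else 0

theorem H_le {i l : ℕ} (h : l ≤ i) : H i l = 1 / √(((i : ℝ) + 1) * (i + 2)) := by
  simp [H, h]

theorem H_succ (i : ℕ) : H i (i + 1) = -((i : ℝ) + 1) / √(((i : ℝ) + 1) * (i + 2)) := by
  simp [H]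

theorem H_zero {i l : ℕ} (h : i + 1 < l) : H i l = 0 := by
  have h1 : ¬ l ≤ i := by omega
  have h2 : ¬ l = i + 1 := by omega
  simp [H, h1, h2]

theorem gram (j : ℕ) : ∀ l m : ℕ, l ≤ j → m ≤ j →
    ∑ i ∈ Finset.range j, H i l * H i m = (if l = m then 1 else 0) - 1 / ((j : ℝ) + 1) := by
  induction j with
  | zero =>
    intro l m hl hm
    have h1 : l = 0 := by omega
    have h2 : m = 0 := by omega
    subst h1 h2
    simp
  | succ j ih =>
    intro l m hl hm
    have hj1 : (0 : ℝ) < (j : ℝ) + 1 := by positivity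
    have hj2 : (0 : ℝ) < (j : ℝ) + 2 := by positivity
    have hsq : √(((j : ℝ) + 1) * (j + 2)) * √(((j : ℝ) + 1) * (j + 2)) =
        ((j : ℝ) + 1) * (j + 2) := Real.mul_self_sqrt (by positivity)
    rw [Finset.sum_range_succ]
    have hz : ∀ m' : ℕ, ∑ i ∈ Finset.range j, H i m' * H i (j + 1) = 0 := by
      intro m'
      refine Finset.sum_eq_zero (fun i hi => ?_)
      rw [Finset.mem_range] at hi
      rw [H_zero (show i + 1 < j + 1 by omega), mul_zero]
    have hz' : ∀ m' : ℕ, ∑ i ∈ Finset.range j, H i (j + 1) * H i m' = 0 := by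
      intro m'
      refine Finset.sum_eq_zero (fun i hi => ?_)
      rw [Finset.mem_range] at hi
      rw [H_zero (show i + 1 < j + 1 by omega), zero_mul]
    push_cast
    rcases Nat.lt_or_ge j l with hl' | hl'
    · have el : l = j + 1 := by omega
      subst el
      rw [hz']
      rcases Nat.lt_or_ge j m with hm' | hm'
      · have em : m = j + 1 := by omega
        subst em
        rw [H_succ, if_pos rfl, div_mul_div_comm, hsq]
        field_simp
        ring
      · rw [H_succ, H_le hm', if_neg (by omega), div_mul_div_comm, hsq]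
        field_simp
        ring
    · rcases Nat.lt_or_ge j m with hm' | hm'
      · have em : m = j + 1 := by omega
        subst em
        rw [hz, H_succ, H_le hl', if_neg (by omega), div_mul_div_comm, hsq]
        field_simp
        ring
      · rw [ih l m hl' hm', H_le hl', H_le hm', div_mul_div_comm, hsq]
        field_simp
        ring

theorem finSum (n j : ℕ) (hj : j ≤ n + 1) (F : ℕ → ℝ) :
    ∑ i : Fin (n + 1), (if (i : ℕ) < j then F i else 0) = ∑ i ∈ Finset.range j, F i := by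
  rw [Fin.sum_univ_eq_sum_range (fun i => if i < j then F i else 0) (n + 1),
    ← Finset.sum_filter]
  congr 1
  ext i
  simp only [Finset.mem_filter, Finset.mem_range]
  omega

/-- The full matrix. -/
noncomputable def G (n i l : ℕ) : ℝ := if i < n then H i l else 1 / √((n : ℝ) + 1)

/-- The vectors. -/
noncomputable def vec (n : ℕ) (i : Fin (n + 1)) : E (n + 1) :=
  WithLp.toLp 2 (fun l => G n i l)

theorem vec_apply (n : ℕ) (i l : Fin (n + 1)) : vec n i l = G n i l := rfl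

theorem cols (n : ℕ) (l m : Fin (n + 1)) :
    ∑ i : Fin (n + 1), G n i l * G n i m = if l = m then 1 else 0 := by
  rw [Fin.sum_univ_eq_sum_range (fun i => G n i l * G n i m) (n + 1), Finset.sum_range_succ]
  have h1 : ∑ i ∈ Finset.range n, G n i l * G n i m = ∑ i ∈ Finset.range n, H i l * H i m := by
    refine Finset.sum_congr rfl (fun i hi => ?_)
    rw [Finset.mem_range] at hi
    simp [G, hi]
  rw [h1, gram n l m (by omega) (by omega)]
  have h2 : G n n l * G n n m = 1 / ((n : ℝ) + 1) := by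
    simp only [G, lt_irrefl, if_false]
    rw [div_mul_div_comm, Real.mul_self_sqrt (by positivity), one_mul]
  rw [h2]
  have h3 : ((l : ℕ) = (m : ℕ)) ↔ l = m := Fin.val_inj
  simp only [h3]
  ring

theorem rows (n : ℕ) (i j : Fin (n + 1)) :
    ∑ l : Fin (n + 1), G n i l * G n j l = if i = j then 1 else 0 := by
  set A : Matrix (Fin (n + 1)) (Fin (n + 1)) ℝ := fun i l => G n i l with hA
  have h1 : A.transpose * A = 1 := by
    ext l m
    rw [Matrix.mul_apply, Matrix.one_apply]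
    exact cols n l m
  have h2 : A * A.transpose = 1 := mul_eq_one_comm.mp h1
  have h3 := congrFun (congrFun h2 i) j
  rw [Matrix.mul_apply, Matrix.one_apply] at h3
  exact h3

theorem orthonormal_vec (n : ℕ) : Orthonormal ℝ (vec n) := by
  rw [orthonormal_iff_ite]
  intro i j
  rw [PiLp.inner_apply, ← rows n i j]
  refine Finset.sum_congr rfl (fun l _ => ?_)
  rw [vec_apply, vec_apply]
  simp [mul_comm]

end HelmertAux

open HelmertAux in
theorem claimHelmert : ClaimHelmert := by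
  intro n
  have hcard : Fintype.card (Fin (n + 1)) = Module.finrank ℝ (E (n + 1)) := by simp
  let b := basisOfOrthonormalOfCardEqFinrank (orthonormal_vec n) hcard
  have hb : ∀ i, b i = vec n i := fun i => by
    simp [b]
  let v : OrthonormalBasis (Fin (n + 1)) ℝ (E (n + 1)) := b.toOrthonormalBasis (by
    have : (b : Fin (n + 1) → E (n + 1)) = vec n := funext hb
    rw [this]
    exact orthonormal_vec n)
  have hv : ∀ i, v i = vec n i := fun i => by
    simp [v, hb]
  refine ⟨v, ?_, ?_, ?_⟩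
  · intro l
    rw [hv, vec_apply]
    simp [G]
  · intro j hj l m hl hm
    have h1 : ∀ i : Fin (n + 1), (if (i : ℕ) < j then v i l * v i m else 0) =
        if (i : ℕ) < j then H i l * H i m else 0 := by
      intro i
      by_cases hi : (i : ℕ) < j
      · rw [if_pos hi, if_pos hi, hv, vec_apply, vec_apply]
        have : (i : ℕ) < n := by omega
        simp [G, this]
      · rw [if_neg hi, if_neg hi]
    rw [Finset.sum_congr rfl (fun i _ => h1 i),
      finSum n j (by omega) (fun i => H i l * H i m), gram j l m hl hm]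
    have h3 : ((l : ℕ) = (m : ℕ)) ↔ l = m := Fin.val_inj
    simp only [h3]
  · intro i l hi hl
    rw [hv, vec_apply]
    simp [G, hi, H_zero hl]

end Pool.Agent.Potatoes

end

section

/-!
# MP_72041b_co, item D3: large total volume
-/

namespace Pool.Agent.Potatoes

open MeasureTheory Set Metric
open scoped RealInnerProductSpace

namespace Large

/-- The isometry which sends `x` to the point with coordinates `⟪u l, x⟫ + τ l`. -/
noncomputable def place {k : ℕ} (u : OrthonormalBasis (Fin k) ℝ (E k)) (τ : E k) : E k ≃ᵢ E k :=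
  u.repr.toIsometryEquiv.trans (IsometryEquiv.addRight τ)

lemma place_apply {k : ℕ} (u : OrthonormalBasis (Fin k) ℝ (E k)) (τ x : E k) (l : Fin k) :
    place u τ x l = ⟪u l, x⟫ + τ l := by
  show (u.repr x + τ) l = _
  rw [PiLp.add_apply, OrthonormalBasis.repr_apply_apply]

lemma sums {k : ℕ} {ι : Type} (K : ι → Set (E k)) (hK : ∀ i, IsBody (K i)) {t B : ℝ} (ht : 0 < t)
    (hB : 0 < B) (hv : ∑' i, volume (K i) ≤ ENNReal.ofReal t) (f : ι → ℝ) (hf0 : ∀ i, 0 ≤ f i)
    (hf : ∀ i, f i ≤ B * volume.real (K i)) : Summable f ∧ ∑' i, f i ≤ B * t := by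
  have h1 : ∑' i, volume (K i) ≠ ⊤ := ne_top_of_le_ne_top ENNReal.ofReal_ne_top hv
  have h2 : Summable fun i => volume.real (K i) := ENNReal.summable_toReal h1
  have h3 : ∑' i, volume.real (K i) ≤ t := by
    have h4 : (∑' i, volume (K i)).toReal = ∑' i, volume.real (K i) :=
      ENNReal.tsum_toReal_eq fun i => (hK i).compact.measure_lt_top.ne
    rw [← h4]
    have h5 := ENNReal.toReal_mono ENNReal.ofReal_ne_top hv
    rwa [ENNReal.toReal_ofReal ht.le] at h5
  have h4 : Summable f := Summable.of_nonneg_of_le hf0 hf (h2.mul_left B)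
  refine ⟨h4, ?_⟩
  calc ∑' i, f i ≤ ∑' i, B * volume.real (K i) := h4.tsum_le_tsum hf (h2.mul_left B)
    _ = B * ∑' i, volume.real (K i) := tsum_mul_left
    _ ≤ B * t := by gcongr

end Large

open Large in
theorem claimLarge (hs : ClaimStd) (h1 : ClaimBox) (h2 : ClaimBins) : ClaimLarge := by
  intro n hn
  obtain ⟨B, hB, hbox⟩ := h1 (n + 1) (by omega)
  obtain ⟨C₁, hC₁, hbin⟩ := h2 (n + 1)
  set D : ℝ := 1 + C₁ * (1 + B) with hD
  have hD1 : 1 ≤ D := by
    have : 0 ≤ C₁ * (1 + B) := by positivity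
    linarith
  have hk : (0 : ℝ) < √((n + 1 : ℕ) : ℝ) := Real.sqrt_pos.mpr (by positivity)
  refine ⟨2 * (D + 1) * √((n + 1 : ℕ) : ℝ), by positivity, ?_⟩
  intro t ht
  set s : ℝ := t ^ (1 / ((n : ℝ) + 1)) with hs'
  have hs0 : 0 < s := Real.rpow_pos_of_pos ht _
  have hst : s ^ (n + 1) = t := by
    rw [hs', ← Real.rpow_natCast, ← Real.rpow_mul ht.le]
    push_cast
    rw [one_div, inv_mul_cancel₀ (by positivity), Real.rpow_one]
  rw [(hs (n + 1) 1 t _ (by omega) (by positivity)).1]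
  intro ι _ K hK hd hv
  choose u p w hw hw1 hin hprod using fun i => hbox (K i) (hK i) (hd i)
  obtain ⟨hsum, hle⟩ := sums K hK ht hB hv (fun i => ∏ l, w i l)
    (fun i => Finset.prod_nonneg fun l _ => (hw1 i l).1.le) hprod
  obtain ⟨N, bin, pos, hN, hbN, hpos, hdis⟩ := hbin ι w (B * t) hw1 hsum hle
  set M : ℕ := ⌈D * (1 + s)⌉₊ with hM
  have hM1 : D * (1 + s) ≤ M := Nat.le_ceil _
  have hM2 : (M : ℝ) ≤ (D + 1) * (1 + s) := by
    have := (Nat.ceil_lt_add_one (show 0 ≤ D * (1 + s) by positivity)).le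
    nlinarith
  have hNM : N ≤ M ^ (n + 1) := by
    have h3 : (N : ℝ) ≤ (M : ℝ) ^ (n + 1) := by
      calc (N : ℝ) ≤ C₁ * (1 + B * t) := hN
        _ ≤ D * (1 + t) := by
          rw [hD]
          nlinarith [mul_pos hC₁ hB, mul_pos hC₁ ht]
        _ ≤ D ^ (n + 1) * (1 + s) ^ (n + 1) := by
          have h4 : D ≤ D ^ (n + 1) := le_self_pow₀ hD1 (by omega)
          have h5 : 1 + t ≤ (1 + s) ^ (n + 1) := by
            have := pow_add_pow_le (zero_le_one (α := ℝ)) hs0.le (show n + 1 ≠ 0 by omega)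
            rwa [one_pow, hst] at this
          gcongr
        _ = (D * (1 + s)) ^ (n + 1) := by rw [mul_pow]
        _ ≤ (M : ℝ) ^ (n + 1) := by gcongr
    exact_mod_cast h3
  have hb2 : ∀ i, bin i < M ^ (n + 1) := fun i => lt_of_lt_of_le (hbN i) hNM
  set cell : ι → Fin (n + 1) → Fin M := fun i => finFunctionFinEquiv.symm ⟨bin i, hb2 i⟩ with hcell
  set P : ι → Fin (n + 1) → ℝ := fun i l => -(M : ℝ) + 2 * (cell i l : ℝ) + 2 * pos i l with hP
  set g : ι → (E (n + 1) ≃ᵢ E (n + 1)) := fun i =>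
    place (u i) (WithLp.toLp 2 fun l => P i l - p i l) with hg
  have hgl : ∀ i, ∀ x ∈ K i, ∀ l, P i l ≤ g i x l ∧ g i x l ≤ P i l + w i l := by
    intro i x hx l
    rw [hg]
    simp only []
    rw [place_apply]
    have h3 := hin i x hx l
    show P i l ≤ ⟪u i l, x⟫ + (P i l - p i l) ∧ ⟪u i l, x⟫ + (P i l - p i l) ≤ P i l + w i l
    constructor <;> linarith [h3.1, h3.2]
  have hcM : ∀ i l, ((cell i l : ℕ) : ℝ) + 1 ≤ M := by
    intro i l
    have := (cell i l).2
    exact_mod_cast this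
  refine ⟨g, ?_, ?_⟩
  · rintro i _ ⟨x, hx, rfl⟩ l
    have h3 := hgl i x hx l
    have h4 := hpos i l
    have h5 := hcM i l
    have h6 := (hw1 i l).1
    have h7 : (0 : ℝ) ≤ (cell i l : ℕ) := Nat.cast_nonneg _
    have h8 : 2 * (D + 1) * √((n + 1 : ℕ) : ℝ) * (1 + s) / √((n + 1 : ℕ) : ℝ) / 2 =
        (D + 1) * (1 + s) := by
      field_simp
    rw [h8]
    refine le_trans ?_ hM2
    rw [abs_le]
    simp only [hP] at h3
    constructor
    · linarith [h3.1, h4.1]
    · linarith [h3.2, h4.2]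
  · intro i i' hii'
    rw [Set.disjoint_left]
    rintro _ ⟨x, hx, rfl⟩ ⟨y, hy, hxy⟩
    by_cases hb : bin i = bin i'
    · obtain ⟨l, hl⟩ := hdis i i' hii' hb
      have h3 := hgl i x hx l
      have h4 := hgl i' y hy l
      rw [hxy] at h4
      have h5 : cell i = cell i' := by
        simp only [hcell, hb]
      simp only [hP, h5] at h3 h4
      have h6 := (hw1 i l).1
      have h7 := (hw1 i' l).1
      rcases hl with hl | hl
      · linarith [h3.2, h4.1]
      · linarith [h3.1, h4.2]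
    · have h5 : cell i ≠ cell i' := by
        intro h
        apply hb
        have h6 := finFunctionFinEquiv.symm.injective h
        simpa using h6
      obtain ⟨l, hl⟩ := Function.ne_iff.mp h5
      have h3 := hgl i x hx l
      have h4 := hgl i' y hy l
      rw [hxy] at h4
      simp only [hP] at h3 h4
      have h6 := (hw1 i l).1
      have h7 := (hw1 i' l).1
      have h8 := hpos i l
      have h9 := hpos i' l
      have h10 : (cell i l : ℕ) ≠ (cell i' l : ℕ) := fun h => hl (Fin.ext h)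
      rcases lt_or_gt_of_ne h10 with h | h
      · have h11 : ((cell i l : ℕ) : ℝ) + 1 ≤ (cell i' l : ℕ) := by exact_mod_cast h
        linarith [h3.2, h4.1, h8.2, h9.1]
      · have h11 : ((cell i' l : ℕ) : ℝ) + 1 ≤ (cell i l : ℕ) := by exact_mod_cast h
        linarith [h3.1, h4.2, h8.1, h9.2]

end Pool.Agent.Potatoes

end

section

/-!
# MP_72041b_co, item M1: the final statement in general dimension
-/

set_option autoImplicit false

namespace Pool.Agent.Potatoes

open MeasureTheory Set Metric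

namespace MainAAux

/-- Scaling to diameter one. -/
theorem works_iff (hc : ClaimScale) (k : ℕ) (a b c : ℝ) (hk : 0 < k) (ha : 0 < a) (hb : 0 < b)
    (hcc : 0 < c) : Works k a b c ↔ Works k 1 (b / a ^ k) (c / a) := by
  constructor
  · intro h
    have h1 := hc k a b c a⁻¹ hk ha hb hcc (inv_pos.2 ha) h
    have e1 : a⁻¹ * a = 1 := inv_mul_cancel₀ ha.ne'
    have e2 : a⁻¹ ^ k * b = b / a ^ k := by rw [inv_pow]; ring
    have e3 : a⁻¹ * c = c / a := by ring
    rwa [e1, e2, e3] at h1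
  · intro h
    have h1 := hc k 1 (b / a ^ k) (c / a) a hk one_pos (by positivity) (by positivity) ha h
    have e1 : a * 1 = a := mul_one a
    have e2 : a ^ k * (b / a ^ k) = b := by field_simp
    have e3 : a * (c / a) = c := by field_simp
    rwa [e1, e2, e3] at h1

/-- `m t = min t (t ^ (1/k))`. -/
noncomputable def mt (n : ℕ) (t : ℝ) : ℝ := min t (t ^ (1 / ((n : ℝ) + 1)))

theorem root_le_one {n : ℕ} {t : ℝ} (ht : 0 < t) (h1 : t ≤ 1) : t ≤ t ^ (1 / ((n : ℝ) + 1)) := by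
  have h2 : (1 / ((n : ℝ) + 1)) ≤ 1 := by
    rw [div_le_one (by positivity)]
    have : (0 : ℝ) ≤ n := Nat.cast_nonneg n
    linarith
  calc t = t ^ (1 : ℝ) := (Real.rpow_one t).symm
    _ ≤ t ^ (1 / ((n : ℝ) + 1)) := Real.rpow_le_rpow_of_exponent_ge ht h1 h2

theorem root_ge_one {n : ℕ} {t : ℝ} (h1 : 1 ≤ t) : t ^ (1 / ((n : ℝ) + 1)) ≤ t := by
  have h2 : (1 / ((n : ℝ) + 1)) ≤ 1 := by
    rw [div_le_one (by positivity)]
    have : (0 : ℝ) ≤ n := Nat.cast_nonneg n
    linarith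
  calc t ^ (1 / ((n : ℝ) + 1)) ≤ t ^ (1 : ℝ) := Real.rpow_le_rpow_of_exponent_le h1 h2
    _ = t := Real.rpow_one t

/-- The lower bound for diameter one. -/
theorem lower (n : ℕ) (hn : 1 ≤ n) (h3 : ClaimLow) (h4 : ClaimVol) : ∃ c : ℝ, 0 < c ∧
    ∀ t x : ℝ, 0 < t → 0 < x → Works (n + 1) 1 t x → √n + c * mt n t ≤ x := by
  obtain ⟨c₀, hc₀, h3⟩ := h3 n hn
  refine ⟨min (c₀ / 4) (1 / 10), by positivity, fun t x ht hx hW => ?_⟩
  have l1 := h3 t x ht hx hW
  have l2 := h4 n hn t x ht hx hW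
  have hm0 : 0 < mt n t := lt_min ht (Real.rpow_pos_of_pos ht _)
  rcases le_total t 1 with h1 | h1
  · have hm : mt n t = t := min_eq_left (root_le_one ht h1)
    rw [hm]
    rw [min_eq_left h1] at l1
    have : min (c₀ / 4) (1 / 10) * t ≤ c₀ * t := by
      apply mul_le_mul_of_nonneg_right _ ht.le
      exact (min_le_left _ _).trans (by linarith)
    linarith
  · set r := t ^ (1 / ((n : ℝ) + 1)) with hr
    have hr1 : 1 ≤ r := Real.one_le_rpow h1 (by positivity)
    have hm : mt n t = r := min_eq_right (root_ge_one h1)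
    rw [hm]
    rw [min_eq_right h1, mul_one] at l1
    rcases le_total r 4 with h5 | h5
    · have : min (c₀ / 4) (1 / 10) * r ≤ c₀ := by
        calc min (c₀ / 4) (1 / 10) * r ≤ (c₀ / 4) * 4 := by
              apply mul_le_mul (min_le_left _ _) h5 (by linarith) (by positivity)
          _ = c₀ := by ring
      linarith
    · have hs1 : √(n : ℝ) ≤ √((n : ℝ) + 1) := Real.sqrt_le_sqrt (by linarith)
      have hs2 : 1 ≤ √((n : ℝ) + 1) := by
        rw [Real.one_le_sqrt]
        have : (0 : ℝ) ≤ n := Nat.cast_nonneg n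
        linarith
      have h6 : min (c₀ / 4) (1 / 10) * r ≤ (1 / 10) * r :=
        mul_le_mul_of_nonneg_right (min_le_right _ _) (by linarith)
      have h7 : √((n : ℝ) + 1) * (r - 1) ≥ 1 * (r - 1) :=
        mul_le_mul_of_nonneg_right hs2 (by linarith)
      nlinarith

/-- The upper bound for diameter one. -/
theorem upper (n : ℕ) (hn : 1 ≤ n) (h1 : ClaimSmall) (h2 : ClaimLarge) : ∃ C : ℝ, 0 < C ∧
    ∀ t : ℝ, 0 < t → ∃ x : ℝ, 0 < x ∧ Works (n + 1) 1 t x ∧ x ≤ √n + C * mt n t := by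
  obtain ⟨β, C1, hβ, hC1, h1⟩ := h1 n hn
  obtain ⟨C2, hC2, h2⟩ := h2 n hn
  set b₀ := min β 1 with hb₀
  have hb0 : 0 < b₀ := lt_min hβ one_pos
  have hb1 : b₀ ≤ 1 := min_le_right _ _
  have hsn : 0 ≤ √(n : ℝ) := Real.sqrt_nonneg _
  have hsn1 : 0 < √(n : ℝ) := Real.sqrt_pos.2 (by exact_mod_cast hn)
  refine ⟨max C1 (C2 * (2 / b₀ ^ 2)), lt_max_of_lt_left hC1, fun t ht => ?_⟩
  rcases le_total t b₀ with h3 | h3
  · refine ⟨√n + C1 * t, by positivity, h1 t ht (h3.trans (min_le_left _ _)), ?_⟩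
    have hm : mt n t = t := min_eq_left (root_le_one ht (h3.trans hb1))
    rw [hm]
    have : C1 * t ≤ max C1 (C2 * (2 / b₀ ^ 2)) * t :=
      mul_le_mul_of_nonneg_right (le_max_left _ _) ht.le
    linarith
  · set r := t ^ (1 / ((n : ℝ) + 1)) with hr
    have hr0 : 0 < r := Real.rpow_pos_of_pos ht _
    have hrb : b₀ ≤ r := by
      rcases le_total t 1 with h4 | h4
      · exact h3.trans (root_le_one ht h4)
      · exact hb1.trans (Real.one_le_rpow h4 (by positivity))
    have hmb : b₀ * r ≤ mt n t := by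
      refine le_min ?_ ?_
      · rcases le_total t 1 with h4 | h4
        · have hr1 : r ≤ 1 := Real.rpow_le_one ht.le h4 (by positivity)
          calc b₀ * r ≤ b₀ * 1 := mul_le_mul_of_nonneg_left hr1 hb0.le
            _ ≤ t := by rw [mul_one]; exact h3
        · calc b₀ * r ≤ 1 * r := mul_le_mul_of_nonneg_right hb1 hr0.le
            _ ≤ t := by rw [one_mul]; exact root_ge_one h4
      · calc b₀ * r ≤ 1 * r := mul_le_mul_of_nonneg_right hb1 hr0.le
          _ = r := one_mul r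
    refine ⟨C2 * (1 + r), by positivity, h2 t ht, ?_⟩
    have h5 : 1 + r ≤ (2 / b₀ ^ 2) * mt n t := by
      have h6 : 1 + r ≤ (2 / b₀) * r := by
        have h7 : 1 ≤ r / b₀ := (one_le_div hb0).2 hrb
        have h8 : r ≤ r / b₀ := by
          rw [le_div_iff₀ hb0]
          nlinarith
        calc 1 + r ≤ r / b₀ + r / b₀ := add_le_add h7 h8
          _ = (2 / b₀) * r := by ring
      calc 1 + r ≤ (2 / b₀) * r := h6
        _ = (2 / b₀ ^ 2) * (b₀ * r) := by field_simp
        _ ≤ (2 / b₀ ^ 2) * mt n t := mul_le_mul_of_nonneg_left hmb (by positivity)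
    have hm0 : 0 < mt n t := lt_of_lt_of_le (by positivity) hmb
    calc C2 * (1 + r) ≤ C2 * ((2 / b₀ ^ 2) * mt n t) := mul_le_mul_of_nonneg_left h5 hC2.le
      _ = (C2 * (2 / b₀ ^ 2)) * mt n t := by ring
      _ ≤ max C1 (C2 * (2 / b₀ ^ 2)) * mt n t :=
          mul_le_mul_of_nonneg_right (le_max_right _ _) hm0.le
      _ ≤ √n + max C1 (C2 * (2 / b₀ ^ 2)) * mt n t := by linarith

/-- The scaled minimum. -/
theorem min_scale (n : ℕ) (a b : ℝ) (ha : 0 < a) (hb : 0 < b) :
    min (b / a ^ n) (b ^ (1 / (((n + 1 : ℕ) : ℝ)))) = a * mt n (b / a ^ (n + 1)) := by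
  have e1 : a * (b / a ^ (n + 1)) = b / a ^ n := by
    rw [pow_succ]
    field_simp
  have e2 : a * (b / a ^ (n + 1)) ^ (1 / ((n : ℝ) + 1)) = b ^ (1 / (((n + 1 : ℕ) : ℝ))) := by
    rw [Real.div_rpow hb.le (by positivity)]
    have h1 : (a ^ (n + 1)) ^ (1 / ((n : ℝ) + 1)) = a := by
      rw [← Real.rpow_natCast, ← Real.rpow_mul ha.le]
      push_cast
      rw [mul_one_div_cancel (by positivity), Real.rpow_one]
    rw [h1]
    push_cast
    field_simp
  unfold mt
  rw [mul_min_of_nonneg _ _ ha.le, e1, e2]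

end MainAAux

open MainAAux in
theorem mainA (hc : ClaimScale) (hs : ClaimStd) (h1 : ClaimSmall) (h2 : ClaimLarge)
    (h3 : ClaimLow) (h4 : ClaimVol) : MainA := by
  intro k hk
  obtain ⟨n, rfl⟩ : ∃ n, k = n + 1 := ⟨k - 1, by omega⟩
  have hn : 1 ≤ n := by omega
  obtain ⟨c, hc0, hlow⟩ := lower n hn h3 h4
  obtain ⟨C, hC0, hup⟩ := upper n hn h1 h2
  refine ⟨c, C, hc0, hC0, fun a b ha hb => ?_⟩
  have hk1 : n + 1 - 1 = n := by omega
  have hk2 : (((n + 1 : ℕ) : ℝ) - 1) = n := by push_cast; ring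
  rw [hk1, hk2, min_scale n a b ha hb]
  set t := b / a ^ (n + 1) with ht
  have ht0 : 0 < t := by positivity
  obtain ⟨x, hx0, hxW, hxle⟩ := hup t ht0
  have hmem : a * x ∈ {c : ℝ | 0 < c ∧ Works (n + 1) a b c} := by
    refine ⟨by positivity, ?_⟩
    rw [works_iff hc (n + 1) a b (a * x) (by omega) ha hb (by positivity)]
    have : a * x / a = x := by field_simp
    rw [this]
    exact hxW
  have hbdd : BddBelow {c : ℝ | 0 < c ∧ Works (n + 1) a b c} := ⟨0, fun y hy => hy.1.le⟩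
  constructor
  · refine le_csInf ⟨_, hmem⟩ ?_
    rintro y ⟨hy0, hyW⟩
    rw [works_iff hc (n + 1) a b y (by omega) ha hb hy0] at hyW
    have h5 := hlow t (y / a) ht0 (by positivity) hyW
    have h6 : a * (√n + c * mt n t) ≤ a * (y / a) := mul_le_mul_of_nonneg_left h5 ha.le
    have h7 : a * (y / a) = y := by field_simp
    rw [h7] at h6
    calc √n * a + c * (a * mt n t) = a * (√n + c * mt n t) := by ring
      _ ≤ y := h6
  · refine (csInf_le hbdd hmem).trans ?_
    calc a * x ≤ a * (√n + C * mt n t) := mul_le_mul_of_nonneg_left hxle ha.le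
      _ = √n * a + C * (a * mt n t) := by ring

end Pool.Agent.Potatoes

end

section

/-!
# MP_72041b_co, C5: placement of one body
-/

namespace Pool.Agent.Potatoes

open MeasureTheory Set Metric
open scoped RealInnerProductSpace

namespace Place

/-- The `m`-th coordinate vector, projected on the first `j` vectors of the basis. -/
noncomputable def pp {n : ℕ} (v : OrthonormalBasis (Fin (n + 1)) ℝ (E (n + 1))) (j : ℕ)
    (m : Fin (n + 1)) : E (n + 1) :=
  ∑ l : Fin (n + 1), (if (l : ℕ) < j then v l m else 0) • v l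

theorem ppInner {n : ℕ} (v : OrthonormalBasis (Fin (n + 1)) ℝ (E (n + 1))) (j : ℕ)
    (m : Fin (n + 1)) (x : E (n + 1)) :
    ⟪pp v j m, x⟫ = ∑ l : Fin (n + 1), (if (l : ℕ) < j then ⟪v l, x⟫ * v l m else 0) := by
  unfold pp
  rw [sum_inner]
  refine Finset.sum_congr rfl fun l _ => ?_
  rw [inner_smul_left]
  split_ifs
  · simp [mul_comm]
  · simp

theorem vInner {n : ℕ} (v : OrthonormalBasis (Fin (n + 1)) ℝ (E (n + 1))) (c : Fin (n + 1) → ℝ)
    (l : Fin (n + 1)) : ⟪v l, ∑ i, c i • v i⟫ = c l := by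
  rw [inner_sum, Finset.sum_eq_single l]
  · rw [inner_smul_right, v.inner_eq_ite, if_pos rfl, mul_one]
  · intro b _ hb
    rw [inner_smul_right, v.inner_eq_ite, if_neg (Ne.symm hb), mul_zero]
  · intro h
    exact absurd (Finset.mem_univ l) h

end Place

open Place in
theorem claimPlace (h : ClaimCover) : ClaimPlace := by
  intro n j hj v hv K hK hd u p w P hbox
  set Φ : E (n + 1) ≃ₗᵢ[ℝ] E (n + 1) := u.equiv v (Equiv.refl _) with hΦ
  have hΦu : ∀ l, Φ (u l) = v l := by
    intro l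
    rw [hΦ]
    simp
  have hΦi : ∀ l x, ⟪v l, Φ x⟫ = ⟪u l, x⟫ := by
    intro l x
    rw [← hΦu l, LinearIsometryEquiv.inner_map_map]
  set p' : Fin (j + 1) → E (n + 1) := fun m => pp v j (Fin.castLE (by omega) m) with hp'
  have hsimp : IsSimplex p' := by
    intro a b
    rw [hp']
    simp only
    rw [ppInner]
    have h1 : ∀ l : Fin (n + 1), (l : ℕ) < j →
        ⟪v l, pp v j (Fin.castLE (by omega) b)⟫ = v l (Fin.castLE (by omega) b) := by
      intro l hl
      unfold pp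
      rw [vInner v (fun l => if (l : ℕ) < j then v l (Fin.castLE (by omega) b) else 0) l,
        if_pos hl]
    have h2 := hv.gram j hj (Fin.castLE (by omega) a) (Fin.castLE (by omega) b)
      (by simpa using Nat.lt_succ_iff.mp a.2) (by simpa using Nat.lt_succ_iff.mp b.2)
    have h3 : (Fin.castLE (by omega : j + 1 ≤ n + 1) a = Fin.castLE (by omega) b) ↔ a = b :=
      (Fin.castLE_injective _).eq_iff
    simp only [h3] at h2
    rw [← h2]
    refine Finset.sum_congr rfl fun l _ => ?_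
    split_ifs with hl
    · rw [h1 l hl, mul_comm]
    · rfl
  have hKne : K.Nonempty := hK.inner.mono interior_subset
  have hdist : ∀ x ∈ Φ '' K, ∀ y ∈ Φ '' K, dist x y ≤ 1 := by
    rintro _ ⟨x, hx, rfl⟩ _ ⟨y, hy, rfl⟩
    rw [Φ.dist_map]
    exact (dist_le_diam_of_mem hK.compact.isBounded hx hy).trans hd
  obtain ⟨Q, τ, h1, h2⟩ := h (n + 1) j p' hsimp (Φ '' K)
    (hK.compact.image Φ.continuous) (hKne.image _) hdist
  set c : Fin (n + 1) → ℝ := fun l => if (l : ℕ) < j then 0 else P l - p l with hc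
  set t : E (n + 1) := τ + ∑ l, c l • v l with ht
  set g : E (n + 1) ≃ᵢ E (n + 1) :=
    (Φ.toIsometryEquiv.trans Q.toIsometryEquiv).trans (IsometryEquiv.addRight t) with hg
  have hgx : ∀ x, g x = (Q (Φ x) + τ) + ∑ l, c l • v l := by
    intro x
    show Q (Φ x) + t = _
    rw [ht, add_assoc]
  refine ⟨g, fun x hx => ⟨fun l hl => ?_, fun m => ?_⟩⟩
  · have horth : ∀ m, ⟪p' m, v l⟫ = 0 := by
      intro m
      rw [hp']
      simp only
      rw [ppInner]
      refine Finset.sum_eq_zero fun i _ => ?_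
      split_ifs with hi
      · rw [v.inner_eq_ite, if_neg, zero_mul]
        rintro rfl
        omega
      · rfl
    obtain ⟨h3, h4⟩ := h1 (v l) horth
    have h5 : ⟪v l, g x⟫ = ⟪u l, x⟫ + (P l - p l) := by
      rw [hgx, inner_add_right, inner_add_right, h4, vInner, hc]
      simp only
      rw [if_neg (by omega)]
      have : ⟪v l, Q (Φ x)⟫ = ⟪v l, Φ x⟫ := by
        conv_lhs => rw [← h3]
        exact LinearIsometryEquiv.inner_map_map _ _ _
      rw [this, hΦi, add_zero]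
    have h6 := hbox x hx l
    rw [h5]
    constructor
    · linarith [h6.1]
    · linarith [h6.2]
  · rw [← ppInner]
    by_cases hm : (m : ℕ) ≤ j
    · have h3 := h2 (Φ x) (mem_image_of_mem _ hx) ⟨m, by omega⟩
      have h4 : p' ⟨m, by omega⟩ = pp v j m := by
        rw [hp']
        simp only
        congr 1
      rw [h4] at h3
      rw [hgx, inner_add_right]
      have h5 : ⟪pp v j m, ∑ l, c l • v l⟫ = 0 := by
        rw [ppInner]
        refine Finset.sum_eq_zero fun i _ => ?_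
        split_ifs with hi
        · rw [vInner, hc]
          simp only
          rw [if_pos hi, zero_mul]
        · rfl
      rw [h5, add_zero]
      exact h3
    · have h3 : pp v j m = 0 := by
        unfold pp
        refine Finset.sum_eq_zero fun i _ => ?_
        split_ifs with hi
        · rw [hv.supp i m (by omega) (by omega), zero_smul]
        · rw [zero_smul]
      rw [h3, inner_zero_left, abs_zero]
      positivity

end Pool.Agent.Potatoes

end

section

/-!
# MP_72041b_co: rotations in an even-dimensional subspace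
-/

namespace Pool.Agent.Potatoes

open MeasureTheory Set Metric
open scoped RealInnerProductSpace

namespace Rot

/-- The standard complex structure on `ℝ^m x ℝ^m`. -/
noncomputable def J0 (m : ℕ) : EuclideanSpace ℝ (Fin m ⊕ Fin m) →ₗ[ℝ]
    EuclideanSpace ℝ (Fin m ⊕ Fin m) where
  toFun v := WithLp.toLp 2 (Sum.elim (fun i => -v (Sum.inr i)) (fun i => v (Sum.inl i)))
  map_add' v w := by
    ext i
    rcases i with i | i
    · simp only [PiLp.add_apply, Sum.elim_inl]
      ring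
    · simp only [PiLp.add_apply, Sum.elim_inr]
  map_smul' c v := by
    ext i
    rcases i with i | i
    · simp only [PiLp.smul_apply, Sum.elim_inl, smul_eq_mul, RingHom.id_apply]
      ring
    · simp only [PiLp.smul_apply, Sum.elim_inr, smul_eq_mul, RingHom.id_apply]

theorem J0_norm (m : ℕ) (v : EuclideanSpace ℝ (Fin m ⊕ Fin m)) : ‖J0 m v‖ = ‖v‖ := by
  rw [EuclideanSpace.norm_eq, EuclideanSpace.norm_eq]
  congr 1
  rw [Fintype.sum_sum_type, Fintype.sum_sum_type, add_comm]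
  congr 1
  refine Finset.sum_congr rfl fun i _ => ?_
  change ‖-v (Sum.inr i)‖ ^ 2 = _
  rw [norm_neg]

theorem J0_inner (m : ℕ) (v : EuclideanSpace ℝ (Fin m ⊕ Fin m)) : ⟪J0 m v, v⟫ = 0 := by
  rw [PiLp.inner_apply, Fintype.sum_sum_type, ← Finset.sum_add_distrib]
  refine Finset.sum_eq_zero fun i _ => ?_
  change ⟪-v (Sum.inr i), v (Sum.inl i)⟫ + ⟪v (Sum.inl i), v (Sum.inr i)⟫ = 0
  rw [inner_neg_left, real_inner_comm]
  ring

section

variable {V : Type*} [NormedAddCommGroup V] [InnerProductSpace ℝ V] [FiniteDimensional ℝ V]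

theorem exists_J (h : Even (Module.finrank ℝ V)) :
    ∃ J : V →ₗ[ℝ] V, (∀ x, ‖J x‖ = ‖x‖) ∧ ∀ x, ⟪J x, x⟫ = 0 := by
  obtain ⟨m, hm⟩ := h
  let b : OrthonormalBasis (Fin m ⊕ Fin m) ℝ V :=
    (stdOrthonormalBasis ℝ V).reindex ((finCongr hm).trans finSumFinEquiv.symm)
  refine ⟨b.repr.symm.toLinearMap ∘ₗ J0 m ∘ₗ b.repr.toLinearMap, fun x => ?_, fun x => ?_⟩
  · change ‖b.repr.symm (J0 m (b.repr x))‖ = ‖x‖
    rw [LinearIsometryEquiv.norm_map, J0_norm, LinearIsometryEquiv.norm_map]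
  · change ⟪b.repr.symm (J0 m (b.repr x)), x⟫ = 0
    rw [← LinearIsometryEquiv.inner_map_map b.repr, LinearIsometryEquiv.apply_symm_apply,
      J0_inner]

/-- The rotation. -/
noncomputable def rotL (F : Submodule ℝ V) (J : F →ₗ[ℝ] F) (c s : ℝ) : V →ₗ[ℝ] V :=
  LinearMap.id - F.subtype ∘ₗ F.orthogonalProjectionOnto.toLinearMap +
    F.subtype ∘ₗ (c • F.orthogonalProjectionOnto.toLinearMap +
      s • (J ∘ₗ F.orthogonalProjectionOnto.toLinearMap))

theorem rotL_apply (F : Submodule ℝ V) (J : F →ₗ[ℝ] F) (c s : ℝ) (x : V) :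
    rotL F J c s x = x - (F.orthogonalProjectionOnto x : V) +
      ((c • F.orthogonalProjectionOnto x + s • J (F.orthogonalProjectionOnto x) : F) : V) := rfl

theorem rot_norm (F : Submodule ℝ V) (J : F →ₗ[ℝ] F) (hJ : ∀ x, ‖J x‖ = ‖x‖)
    (hJ' : ∀ x, ⟪J x, x⟫ = 0) (c s : ℝ) (hcs : c ^ 2 + s ^ 2 = 1) (x : V) :
    ‖rotL F J c s x‖ = ‖x‖ := by
  have h1 : ∀ y : F, ‖x - (F.orthogonalProjectionOnto x : V) + (y : V)‖ ^ 2 =
      ‖x - (F.orthogonalProjectionOnto x : V)‖ ^ 2 + ‖y‖ ^ 2 := by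
    intro y
    have h2 : ⟪x - (F.orthogonalProjectionOnto x : V), (y : V)⟫ = 0 := by
      rw [real_inner_comm]
      exact (F.sub_starProjection_mem_orthogonal x) y y.2
    rw [norm_add_sq_real, h2, Submodule.coe_norm]
    ring
  have h3 : ‖(c • F.orthogonalProjectionOnto x + s • J (F.orthogonalProjectionOnto x) : F)‖ ^ 2 =
      ‖F.orthogonalProjectionOnto x‖ ^ 2 := by
    rw [norm_add_sq_real, norm_smul, norm_smul, hJ, inner_smul_left, inner_smul_right,
      real_inner_comm, hJ', mul_pow, mul_pow, Real.norm_eq_abs, Real.norm_eq_abs, sq_abs, sq_abs]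
    simp only [mul_zero, add_zero]
    rw [← add_mul, hcs, one_mul]
  have h4 : ‖rotL F J c s x‖ ^ 2 = ‖x‖ ^ 2 := by
    rw [rotL_apply, h1, h3, ← h1, sub_add_cancel]
  exact (sq_eq_sq₀ (norm_nonneg _) (norm_nonneg _)).1 h4

/-- The rotation as a linear isometry equivalence. -/
noncomputable def rot (F : Submodule ℝ V) (J : F →ₗ[ℝ] F) (hJ : ∀ x, ‖J x‖ = ‖x‖)
    (hJ' : ∀ x, ⟪J x, x⟫ = 0) (t : ℝ) : V ≃ₗᵢ[ℝ] V :=
  LinearIsometry.toLinearIsometryEquiv
    ⟨rotL F J (Real.cos (Real.pi * t)) (Real.sin (Real.pi * t)),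
      rot_norm F J hJ hJ' _ _ (Real.cos_sq_add_sin_sq _)⟩ rfl

theorem rot_apply (F : Submodule ℝ V) (J : F →ₗ[ℝ] F) (hJ : ∀ x, ‖J x‖ = ‖x‖)
    (hJ' : ∀ x, ⟪J x, x⟫ = 0) (t : ℝ) (x : V) : rot F J hJ hJ' t x =
      x - (F.orthogonalProjectionOnto x : V) +
      ((Real.cos (Real.pi * t) • F.orthogonalProjectionOnto x +
        Real.sin (Real.pi * t) • J (F.orthogonalProjectionOnto x) : F) : V) := rfl

theorem main (F : Submodule ℝ V) (hF : Even (Module.finrank ℝ F)) :
    ∃ R : ℝ → (V ≃ₗᵢ[ℝ] V), (∀ x, Continuous fun t => R t x) ∧ (∀ x, R 0 x = x) ∧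
    (∀ x ∈ F, R 1 x = -x) ∧ ∀ t, ∀ x ∈ Fᗮ, R t x = x := by
  obtain ⟨J, hJ, hJ'⟩ := exists_J hF
  refine ⟨rot F J hJ hJ', fun x => ?_, fun x => ?_, fun x hx => ?_, fun t x hx => ?_⟩
  · simp only [rot_apply]
    refine continuous_const.add (continuous_subtype_val.comp ?_)
    refine Continuous.add ?_ ?_
    · exact (Real.continuous_cos.comp (continuous_const.mul continuous_id)).smul continuous_const
    · exact (Real.continuous_sin.comp (continuous_const.mul continuous_id)).smul continuous_const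
  · rw [rot_apply, mul_zero, Real.cos_zero, Real.sin_zero, one_smul, zero_smul, add_zero,
      sub_add_cancel]
  · have h1 : (F.orthogonalProjectionOnto x : V) = x :=
      F.starProjection_eq_self_iff.2 hx
    rw [rot_apply, mul_one, Real.cos_pi, Real.sin_pi, zero_smul, add_zero, neg_one_smul,
      Submodule.coe_neg, h1, sub_self, zero_add]
  · have h1 : F.orthogonalProjectionOnto x = 0 :=
      Submodule.orthogonalProjectionOnto_apply_of_mem_orthogonal hx
    rw [rot_apply, h1, map_zero, smul_zero, smul_zero, add_zero, Submodule.coe_zero, sub_zero,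
      add_zero]

end

end Rot

theorem claimRot : ClaimRot := fun _ F hF => Rot.main F hF

end Pool.Agent.Potatoes

end

section

/-!
# MP_72041b_co: scaling
-/

namespace Pool.Agent.Potatoes

open MeasureTheory Set Metric
open scoped Pointwise

namespace Scale

variable {k : ℕ}

/-- conjugation of an isometry with a homothety -/
noncomputable def conj {r : ℝ} (hr : 0 < r) (g : E k ≃ᵢ E k) : E k ≃ᵢ E k where
  toFun := fun x => r • g (r⁻¹ • x)
  invFun := fun x => r • g.symm (r⁻¹ • x)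
  left_inv := by
    intro x
    show r • g.symm (r⁻¹ • (r • g (r⁻¹ • x))) = x
    rw [inv_smul_smul₀ hr.ne', IsometryEquiv.symm_apply_apply, smul_inv_smul₀ hr.ne']
  right_inv := by
    intro x
    show r • g (r⁻¹ • (r • g.symm (r⁻¹ • x))) = x
    rw [inv_smul_smul₀ hr.ne', IsometryEquiv.apply_symm_apply, smul_inv_smul₀ hr.ne']
  isometry_toFun := by
    apply Isometry.of_dist_eq
    intro x y
    show dist (r • g (r⁻¹ • x)) (r • g (r⁻¹ • y)) = dist x y
    rw [dist_smul₀, g.isometry.dist_eq, dist_smul₀, ← mul_assoc, norm_inv,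
      mul_inv_cancel₀ (norm_ne_zero_iff.mpr hr.ne'), one_mul]

lemma conj_apply {r : ℝ} (hr : 0 < r) (g : E k ≃ᵢ E k) (x : E k) :
    conj hr g x = r • g (r⁻¹ • x) := rfl

lemma conj_image {r : ℝ} (hr : 0 < r) (g : E k ≃ᵢ E k) (K : Set (E k)) :
    conj hr g '' K = r • (g '' (r⁻¹ • K)) := by
  ext y
  simp only [mem_image, Set.mem_smul_set, conj_apply]
  constructor
  · rintro ⟨x, hx, rfl⟩
    exact ⟨g (r⁻¹ • x), ⟨r⁻¹ • x, ⟨x, hx, rfl⟩, rfl⟩, rfl⟩
  · rintro ⟨_, ⟨_, ⟨x, hx, rfl⟩, rfl⟩, rfl⟩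
    exact ⟨x, hx, rfl⟩

lemma smul_stdCube {r : ℝ} (hr : 0 < r) (s : ℝ) :
    r⁻¹ • stdCube k (r * s) = stdCube k s := by
  ext x
  rw [Set.mem_inv_smul_set_iff₀ hr.ne']
  simp only [stdCube, Set.mem_ofPred_eq, PiLp.smul_apply, smul_eq_mul, abs_mul, abs_of_pos hr]
  refine forall_congr' fun i => ?_
  rw [mul_div_assoc]
  exact mul_le_mul_iff_right₀ hr

lemma body_smul {r : ℝ} (hr : 0 < r) {K : Set (E k)} (hK : IsBody K) : IsBody (r • K) := by
  refine ⟨hK.compact.smul r, hK.convex.smul r, ?_⟩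
  rw [interior_smul₀ hr.ne']
  exact hK.inner.smul_set

end Scale

open Scale in
theorem claimScale : ClaimScale := by
  intro k a b c r hk ha hb hc hr hW ι _ K hK hd hv
  have hr' : 0 < r⁻¹ := inv_pos.mpr hr
  obtain ⟨Q, ⟨g, hg⟩, h, h1, h2⟩ := hW ι (fun i => r⁻¹ • K i) (fun i => body_smul hr' (hK i))
    (by
      intro i
      show diam (r⁻¹ • K i) ≤ a
      rw [diam_smul₀, Real.norm_of_nonneg hr'.le]
      rw [inv_mul_le_iff₀ hr]
      exact hd i)
    (by
      have h1 : ∀ i, volume (r⁻¹ • K i) = ENNReal.ofReal (r⁻¹ ^ k) * volume (K i) := by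
        intro i
        rw [Measure.addHaar_smul, finrank_euclideanSpace_fin, abs_of_pos (pow_pos hr' k)]
      simp only [h1]
      rw [ENNReal.tsum_mul_left]
      calc ENNReal.ofReal (r⁻¹ ^ k) * ∑' i, volume (K i)
          ≤ ENNReal.ofReal (r⁻¹ ^ k) * ENNReal.ofReal (r ^ k * b) := by gcongr
        _ = ENNReal.ofReal b := by
            rw [← ENNReal.ofReal_mul (pow_pos hr' k).le, ← mul_assoc, ← mul_pow,
              inv_mul_cancel₀ hr.ne', one_pow, one_mul])
  refine ⟨r • Q, ⟨conj hr g, ?_⟩, fun i => conj hr (h i), ?_, ?_⟩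
  · rw [conj_image, mul_div_assoc, smul_stdCube hr, hg]
  · intro i
    rw [conj_image]
    exact Set.smul_set_mono (h1 i)
  · intro i j hij
    rw [conj_image, conj_image]
    rw [← Set.image_smul, ← Set.image_smul]
    exact (Set.disjoint_image_iff (smul_right_injective (E k) hr.ne')).mpr (h2 i j hij)

end Pool.Agent.Potatoes

end

section

/-!
# MP_72041b_co: the part of the cube close to a diagonal hyperplane
-/

namespace Pool.Agent.Potatoes

open MeasureTheory Set Metric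

namespace Slab

/-- The shear. -/
def mat (n : ℕ) (σ : Fin (n + 1) → ℝ) : Matrix (Fin (n + 1)) (Fin (n + 1)) ℝ :=
  Matrix.of fun i j => if i = Fin.last n then σ j else if i = j then 1 else 0

theorem det_mat (n : ℕ) (σ : Fin (n + 1) → ℝ) : (mat n σ).det = σ (Fin.last n) := by
  have hT : (mat n σ).BlockTriangular OrderDual.toDual := by
    intro i j hij
    have hij' : i < j := hij
    have h1 : i ≠ Fin.last n := fun h => by
      rw [h] at hij'
      exact absurd hij' (not_lt.mpr (Fin.le_last j))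
    simp [mat, h1, hij'.ne]
  rw [Matrix.det_of_lowerTriangular _ hT, Fin.prod_univ_castSucc]
  have h2 : ∀ i : Fin n, mat n σ i.castSucc i.castSucc = 1 := fun i => by
    have : i.castSucc ≠ Fin.last n := (Fin.castSucc_lt_last i).ne
    simp [mat, this]
  simp only [h2, Finset.prod_const_one, one_mul]
  simp [mat]

end Slab

open Slab in
theorem claimSlab : ClaimSlab := by
  intro n s δ σ hs hδ hσ
  set A : Set (Fin (n + 1) → ℝ) :=
    {x | (∀ i, |x i| ≤ s / 2) ∧ |∑ i, σ i * x i| ≤ δ} with hA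
  set a : Fin (n + 1) → ℝ := fun i => if i = Fin.last n then -δ else -(s / 2) with ha
  set b : Fin (n + 1) → ℝ := fun i => if i = Fin.last n then δ else s / 2 with hb
  have e1 : volume {x : E (n + 1) | x ∈ stdCube (n + 1) s ∧ |∑ i, σ i * x i| ≤ δ} =
      volume A := by
    have hAm : MeasurableSet A := by
      have h1 : MeasurableSet {x : Fin (n + 1) → ℝ | ∀ i, |x i| ≤ s / 2} := by
        rw [setOf_forall]
        exact MeasurableSet.iInter fun i =>
          measurableSet_le ((measurable_pi_apply i).abs) measurable_const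
      have h2 : MeasurableSet {x : Fin (n + 1) → ℝ | |∑ i, σ i * x i| ≤ δ} := by
        refine measurableSet_le ?_ measurable_const
        exact (Finset.measurable_sum _ fun i _ => (measurable_pi_apply i).const_mul _).abs
      exact h1.inter h2
    rw [← (EuclideanSpace.volume_preserving_symm_measurableEquiv_toLp
      (Fin (n + 1))).measure_preimage hAm.nullMeasurableSet]
    rfl
  rw [e1]
  have hdet : LinearMap.det (Matrix.toLin' (mat n σ)) = σ (Fin.last n) := by
    rw [LinearMap.det_toLin', det_mat]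
  have hσl : σ (Fin.last n) ≠ 0 := by
    rcases hσ (Fin.last n) with h | h <;> rw [h] <;> norm_num
  have hsub : A ⊆ Matrix.toLin' (mat n σ) ⁻¹' Icc a b := by
    intro x hx
    have hval : ∀ i, Matrix.toLin' (mat n σ) x i =
        if i = Fin.last n then ∑ j, σ j * x j else x i := by
      intro i
      rw [Matrix.toLin'_apply, Matrix.mulVec, dotProduct]
      split_ifs with h
      · simp [mat, h]
      · simp [mat, h]
    rw [mem_preimage, mem_Icc, Pi.le_def, Pi.le_def]
    constructor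
    · intro i
      rw [hval, ha]
      simp only
      split_ifs
      · exact (abs_le.mp hx.2).1
      · exact (abs_le.mp (hx.1 i)).1
    · intro i
      rw [hval, hb]
      simp only
      split_ifs
      · exact (abs_le.mp hx.2).2
      · exact (abs_le.mp (hx.1 i)).2
  refine (measure_mono hsub).trans ?_
  rw [Measure.addHaar_preimage_linearMap _ (by rw [hdet]; exact hσl), hdet]
  have h1 : |(σ (Fin.last n))⁻¹| = 1 := by
    rcases hσ (Fin.last n) with h | h <;> rw [h] <;> norm_num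
  rw [h1, ENNReal.ofReal_one, one_mul, Real.volume_Icc_pi, Fin.prod_univ_castSucc]
  have h2 : ∀ i : Fin n, ENNReal.ofReal (b i.castSucc - a i.castSucc) = ENNReal.ofReal s := by
    intro i
    have : i.castSucc ≠ Fin.last n := (Fin.castSucc_lt_last i).ne
    rw [ha, hb]
    simp only [this, if_false]
    congr 1
    ring
  have h3 : ENNReal.ofReal (b (Fin.last n) - a (Fin.last n)) = ENNReal.ofReal (2 * δ) := by
    rw [ha, hb]
    simp only [if_true]
    congr 1
    ring
  simp only [h2]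
  rw [h3, Finset.prod_const, Finset.card_univ, Fintype.card_fin, ← ENNReal.ofReal_pow hs,
    ← ENNReal.ofReal_mul (by positivity)]
  refine ENNReal.ofReal_le_ofReal ?_
  have h4 : 1 ≤ √((n : ℝ) + 1) := by
    rw [Real.one_le_sqrt]
    have : (0 : ℝ) ≤ n := Nat.cast_nonneg n
    linarith
  have h5 : s ^ n ≤ (√((n : ℝ) + 1) * s) ^ n :=
    pow_le_pow_left₀ hs (le_mul_of_one_le_left hs h4) n
  calc s ^ n * (2 * δ) ≤ (√((n : ℝ) + 1) * s) ^ n * (2 * δ) :=
        mul_le_mul_of_nonneg_right h5 (by positivity)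
    _ = 2 * δ * (√((n : ℝ) + 1) * s) ^ n := by ring

end Pool.Agent.Potatoes

end
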